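import Pool.Agent.Lib.MP_b8b21d_al.DefsL

/-!
Definitions for the quadratic bound `π(w) - 1 ≤ (π_K(w) - 1)^2` of MP_b8b21d_al.
-/

namespace PrimRank

open scoped TensorProduct

/-- The properties of the ring `K((G))` of series with well ordered support over a bi-ordered group
`G` which are used: `c s g` is the coefficient of `g` in the series `s`, and `j` is the embedding of
the group algebra. -/
structure IsMN (K : Type*) [Field K] (G : Type) [Group G] [LinearOrder G] (Λ : Type*)
    [DivisionRing Λ] [Algebra K Λ] (c : Λ →ₗ[K] (G → K)) (j : MonoidAlgebra K G →ₐ[K] Λ) :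
    Prop where
  inj : Function.Injective c
  pwo : ∀ s, (Function.support (c s)).IsPWO
  surj : ∀ f : G → K, (Function.support f).IsPWO → ∃ s, c s = f
  coe : ∀ (a : MonoidAlgebra K G) (g : G), c (j a) g = a.coeff g
  left : ∀ (g : G) (s : Λ) (k : G), c (j (MonoidAlgebra.of K G g) * s) k = c s (g⁻¹ * k)
  right : ∀ (g : G) (s : Λ) (k : G), c (s * j (MonoidAlgebra.of K G g)) k = c s (k * g⁻¹)
  lead : ∀ (s t : Λ) (a b : G), (∀ h, h < a → c s h = 0) → (∀ h, h < b → c t h = 0) →
    c (s * t) (a * b) = c s a * c t b ∧ ∀ h, h < a * b → c (s * t) h = 0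

/-- The value at `g` of an element of `Λ ⊗ N`. -/
noncomputable def evT {K : Type*} [Field K] {G : Type} {Λ : Type*} [DivisionRing Λ]
    [Algebra K Λ] (c : Λ →ₗ[K] (G → K)) {N : Type*} [AddCommGroup N] [Module K N] (g : G) :
    Λ ⊗[K] N →ₗ[K] N :=
  (TensorProduct.lid K N).toLinearMap ∘ₗ LinearMap.rTensor N ((LinearMap.proj g) ∘ₗ c)

theorem evT_tmul {K : Type*} [Field K] {G : Type} {Λ : Type*} [DivisionRing Λ]
    [Algebra K Λ] (c : Λ →ₗ[K] (G → K)) {N : Type*} [AddCommGroup N] [Module K N] (g : G)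
    (s : Λ) (n : N) : evT c g (s ⊗ₜ[K] n) = c s g • n := by
  simp [evT]

/-- The edge `(g, y)` comes before the edge `(1, x)`. -/
def Bef {G : Type} [Group G] [LinearOrder G] {α : Type} [LinearOrder α] (g : G) (y x : α) : Prop :=
  g < 1 ∨ (g = 1 ∧ y < x)

section flow

variable {K : Type*} [Field K] {α : Type} [Fintype α] {Λ : Type*} [DivisionRing Λ]
  [Algebra K Λ] {N : Type*} [AddCommGroup N] [Module K N]

/-- Flows with values in `N`, on which the generator `x` acts by `X x`. -/
def IsFlow (c : Λ →ₗ[K] (FreeGroup α → K)) (X : α → N →ₗ[K] N) (z : α → Λ ⊗[K] N) : Prop :=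
  ∀ g : FreeGroup α, ∑ x, evT c (g * (FreeGroup.of x)⁻¹) (z x) = ∑ x, X x (evT c g (z x))

/-- The space of leading coefficients at the edge `(1, x)` of the flows. -/
def LL [LinearOrder (FreeGroup α)] [LinearOrder α] (c : Λ →ₗ[K] (FreeGroup α → K))
    (X : α → N →ₗ[K] N) (x : α) : Submodule K N where
  carrier := {d | ∃ z : α → Λ ⊗[K] N, IsFlow c X z ∧
    (∀ g y, Bef g y x → evT c g (z y) = 0) ∧ evT c 1 (z x) = d}
  zero_mem' := by
    refine ⟨0, ?_, ?_, ?_⟩
    · intro g; simp
    · intro g y _; simp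
    · simp
  add_mem' := by
    rintro d d' ⟨z, h1, h2, h3⟩ ⟨z', h1', h2', h3'⟩
    refine ⟨z + z', ?_, ?_, ?_⟩
    · intro g
      simp only [Pi.add_apply, map_add, Finset.sum_add_distrib]
      rw [h1 g, h1' g]
    · intro g y hy
      rw [Pi.add_apply, map_add, h2 g y hy, h2' g y hy, add_zero]
    · rw [Pi.add_apply, map_add, h3, h3']
  smul_mem' := by
    rintro r d ⟨z, h1, h2, h3⟩
    refine ⟨fun x => r • z x, ?_, ?_, ?_⟩
    · intro g
      simp only [map_smul]
      rw [← Finset.smul_sum, ← Finset.smul_sum, h1 g]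
    · intro g y hy
      simp only [map_smul]
      rw [h2 g y hy, smul_zero]
    · simp only [map_smul]
      rw [h3]

end flow

/-- The action of a group element on `GA / I`. -/
noncomputable def actQ {K : Type*} [Field K] {α : Type} (I : Submodule (GA K α) (GA K α))
    (g : FreeGroup α) : (GA K α ⧸ I) →ₗ[K] (GA K α ⧸ I) :=
  Algebra.lsmul K K (GA K α ⧸ I) (MonoidAlgebra.of K (FreeGroup α) g)

/-- The anti-automorphism `g ↦ g⁻¹` of the group algebra. -/
noncomputable def anti {K : Type*} [Field K] {G : Type} [Group G] :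
    MonoidAlgebra K G →ₗ[K] MonoidAlgebra K G :=
  (MonoidAlgebra.coeffLinearEquiv K).symm.toLinearMap ∘ₗ
    Finsupp.lmapDomain K K (fun g : G => g⁻¹) ∘ₗ (MonoidAlgebra.coeffLinearEquiv K).toLinearMap

/-- The additive homomorphism `FreeGroup α → K` with `x ↦ l x`. -/
noncomputable def wgt {K : Type*} [Field K] {α : Type} (l : α → K) (g : FreeGroup α) : K :=
  Multiplicative.toAdd (FreeGroup.lift (fun x => Multiplicative.ofAdd (l x)) g)

/-- The derivation `g ↦ l(g) g` of the group algebra. -/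
noncomputable def del {K : Type*} [Field K] {α : Type} (l : α → K) :
    GA K α →ₗ[K] GA K α :=
  (MonoidAlgebra.coeffLinearEquiv K).symm.toLinearMap ∘ₗ
    Finsupp.lsum K (fun g : FreeGroup α => wgt l g • Finsupp.lsingle g) ∘ₗ
    (MonoidAlgebra.coeffLinearEquiv K).toLinearMap

/-- `w - 1` is a sum of `m` products `a_i b_i`, where the `b_i` generate a proper left ideal and the
`a_i` generate a proper right ideal. -/
def PP (K : Type*) [Field K] {α : Type} (w : FreeGroup α) (m : ℕ) : Prop :=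
  ∃ a b : Fin m → GA K α, MonoidAlgebra.of K (FreeGroup α) w - 1 = ∑ i, a i * b i ∧
    (∀ c : Fin m → GA K α, ∑ i, c i * b i ≠ 1) ∧ ∀ c : Fin m → GA K α, ∑ i, a i * c i ≠ 1

end PrimRank
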