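import Pool.Agent.Lib.MP_b8b21d_al.HN.Defs

/-!
Basic facts on `Λ ⊗ N` and on flows.

PROOFS. Write `y ∈ Λ ⊗ N` as a finite sum `∑ tᵢ ⊗ nᵢ` with `nᵢ` members of a `K`-basis of `N` (for instance
through `Module.Basis.ofVectorSpace K N` and `TensorProduct.finsuppRight`/`Basis.tensorProduct`-like
equivalences, or `TensorProduct.exists_finset` plus a basis of the span of the `n`; a convenient form is:
there are a finite linearly independent family `n : Fin k → N` and `t : Fin k → Λ` with
`y = ∑ i, t i ⊗ₜ n i`). Then `evT c g y = ∑ c (t i) g • n i`.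
`eq_zero_of_evT`: all `c (t i) g = 0`, so `t i = 0` by injectivity of `c`.
`evT_smul_lead`: all `c (t i) k = 0` for `k < b`, `s • y = ∑ (s * t i) ⊗ₜ n i`, use `h.lead`.
`isFlow_smul`: let `∂ z = ∑ x, (rTensor (right multiplication by j (of x)) (z x) - lTensor (X x) (z x))`;
`evT c g (∂ z) = ∑ x (evT c (g x⁻¹) (z x) - X x (evT c g (z x)))` by `h.right`, so `z` is a flow iff
`∂ z = 0` (by `eq_zero_of_evT`), and `∂ (s • z) = s • ∂ z` because right multiplication commutes with left
multiplication (check on pure tensors).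
-/

namespace PrimRank

open scoped TensorProduct

variable {K : Type*} [Field K] {α : Type} [Fintype α] [LinearOrder (FreeGroup α)]
  {Λ : Type*} [DivisionRing Λ] [Algebra K Λ]
  {c : Λ →ₗ[K] (FreeGroup α → K)} {j : MonoidAlgebra K (FreeGroup α) →ₐ[K] Λ}
  {N : Type*} [AddCommGroup N] [Module K N]

omit [Fintype α] [LinearOrder (FreeGroup α)] in
private theorem repr_evT {ι : Type*} (b : Module.Basis ι K N) (y : Λ ⊗[K] N) (g : FreeGroup α)
    (i : ι) : b.repr (evT c g y) i = c ((b.baseChange Λ).repr y i) g := by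
  induction y using TensorProduct.induction_on with
  | zero => simp
  | add x y hx hy =>
    simp only [map_add, Finsupp.add_apply, Pi.add_apply]
    rw [hx, hy]
  | tmul s n =>
    rw [evT_tmul, Module.Basis.baseChange_repr_tmul]
    simp only [map_smul, Finsupp.smul_apply, smul_eq_mul, Pi.smul_apply]
    ring

theorem eq_zero_of_evT (h : IsMN K (FreeGroup α) Λ c j) (y : Λ ⊗[K] N)
    (hy : ∀ g, evT c g y = 0) : y = 0 := by
  set b := Module.Basis.ofVectorSpace K N with hb
  apply (b.baseChange Λ).repr.injective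
  ext i
  apply h.inj
  ext g
  rw [← repr_evT b y g i, hy g]
  simp

theorem evT_smul_lead (h : IsMN K (FreeGroup α) Λ c j) (s : Λ) (y : Λ ⊗[K] N) (a b : FreeGroup α)
    (hs : ∀ g, g < a → c s g = 0) (hy : ∀ g, g < b → evT c g y = 0) :
    evT c (a * b) (s • y) = c s a • evT c b y ∧ ∀ g, g < a * b → evT c g (s • y) = 0 := by
  set B := Module.Basis.ofVectorSpace K N with hb
  have h0 : ∀ i, ∀ g, g < b → c ((B.baseChange Λ).repr y i) g = 0 := by
    intro i g hg
    rw [← repr_evT B y g i, hy g hg]
    simp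
  have hmul : ∀ i, (B.baseChange Λ).repr (s • y) i = s * (B.baseChange Λ).repr y i := by
    intro i
    simp
  constructor
  · apply B.repr.injective
    ext i
    rw [repr_evT, hmul, (h.lead s _ a b hs (h0 i)).1, map_smul, Finsupp.smul_apply, repr_evT]
    simp
  · intro g hg
    apply B.repr.injective
    ext i
    rw [repr_evT, hmul, (h.lead s _ a b hs (h0 i)).2 g hg]
    simp

private noncomputable def rgt (j : MonoidAlgebra K (FreeGroup α) →ₐ[K] Λ) (x : α) :
    Λ ⊗[K] N →ₗ[K] Λ ⊗[K] N :=
  LinearMap.rTensor N (LinearMap.mulRight K (j (MonoidAlgebra.of K _ (FreeGroup.of x))))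

omit [Fintype α] in
private theorem evT_rgt (h : IsMN K (FreeGroup α) Λ c j) (x : α) (y : Λ ⊗[K] N)
    (g : FreeGroup α) : evT c g (rgt j x y) = evT c (g * (FreeGroup.of x)⁻¹) y := by
  induction y using TensorProduct.induction_on with
  | zero => simp
  | add u v hu hv => simp only [map_add]; rw [hu, hv]
  | tmul s n =>
    rw [evT_tmul, rgt, LinearMap.rTensor_tmul, evT_tmul, LinearMap.mulRight_apply, h.right]

omit [Fintype α] [LinearOrder (FreeGroup α)] in
private theorem rgt_smul (x : α) (s : Λ) (y : Λ ⊗[K] N) :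
    rgt j x (s • y) = s • rgt j x y := by
  induction y using TensorProduct.induction_on with
  | zero => simp
  | add u v hu hv => simp only [map_add, smul_add]; rw [hu, hv]
  | tmul t n =>
    rw [TensorProduct.smul_tmul', rgt, LinearMap.rTensor_tmul, LinearMap.rTensor_tmul,
      TensorProduct.smul_tmul']
    simp [mul_assoc]

omit [Fintype α] [LinearOrder (FreeGroup α)] in
private theorem evT_lTensor (f : N →ₗ[K] N) (y : Λ ⊗[K] N)
    (g : FreeGroup α) : evT c g (LinearMap.lTensor Λ f y) = f (evT c g y) := by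
  induction y using TensorProduct.induction_on with
  | zero => simp
  | add u v hu hv => simp only [map_add]; rw [hu, hv]
  | tmul s n => rw [LinearMap.lTensor_tmul, evT_tmul, evT_tmul, map_smul]

private theorem lTensor_smul' (f : N →ₗ[K] N) (s : Λ) (y : Λ ⊗[K] N) :
    LinearMap.lTensor Λ f (s • y) = s • LinearMap.lTensor Λ f y := by
  induction y using TensorProduct.induction_on with
  | zero => simp
  | add u v hu hv => simp only [map_add, smul_add]; rw [hu, hv]
  | tmul t n =>
    rw [TensorProduct.smul_tmul', LinearMap.lTensor_tmul, LinearMap.lTensor_tmul,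
      TensorProduct.smul_tmul']

private theorem isFlow_iff' (h : IsMN K (FreeGroup α) Λ c j) (X : α → N →ₗ[K] N)
    (z : α → Λ ⊗[K] N) :
    IsFlow c X z ↔ ∑ x, rgt j x (z x) = ∑ x, LinearMap.lTensor Λ (X x) (z x) := by
  constructor
  · intro hz
    rw [← sub_eq_zero]
    apply eq_zero_of_evT h
    intro g
    rw [map_sub, map_sum, map_sum, sub_eq_zero]
    simp only [evT_rgt h, evT_lTensor]
    exact hz g
  · intro hz g
    have := congrArg (evT c g) hz
    rw [map_sum, map_sum] at this
    simp only [evT_rgt h, evT_lTensor] at this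
    exact this

theorem isFlow_smul (h : IsMN K (FreeGroup α) Λ c j) (X : α → N →ₗ[K] N) (s : Λ)
    (z : α → Λ ⊗[K] N) (hz : IsFlow c X z) : IsFlow c X (fun x => s • z x) := by
  rw [isFlow_iff' h] at hz ⊢
  simp only [rgt_smul, lTensor_smul']
  rw [← Finset.smul_sum, ← Finset.smul_sum, hz]

end PrimRank
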