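import Pool.Agent.Lib.MP_b8b21d_al.HN.H0

/-!
Families with independent leading coefficients are independent over `Λ`.

PROOF. Let `∑ s k • z k = 0` with some `s k ≠ 0`. For `s k ≠ 0` let `v k` be the minimum of the support of
`c (s k)` (the support is PWO, hence WF, and nonempty as `c` is injective). Choose `k₀` with `s k₀ ≠ 0` and
`(v k₀, x k₀)` minimal for the order: first `v`, then `x`. Look at the value at `g = v k₀` of the
coordinate `y = x k₀`: for `k` with `s k ≠ 0`: if `v k > v k₀`: as all values of `z k` at `h < 1` vanish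
(`Bef`), `evT_smul_lead` (with `a = v k`, `b = 1`) gives value `0` at `g = v k₀ < v k * 1`. If `v k = v k₀`
the value is `c (s k) (v k) • evT c 1 (z k y)` (again `evT_smul_lead`), and if moreover `x k > y` this is `0`
by `Bef 1 y (x k)`; `x k < y` is excluded by minimality. So
`∑_{k : x k = y, v k = v k₀} c (s k) (v k₀) • evT c 1 (z k y) = 0`, contradicting the independence of these
vectors, as `c (s k₀) (v k₀) ≠ 0`. (Use `Fintype`/`Finset` minimum over the lexicographic order; the
hypothesis on `z` at `g = 1`, `y < x k` and at `g < 1`, all `y`.)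
-/

namespace PrimRank

open scoped TensorProduct

variable {K : Type*} [Field K] {α : Type} [Fintype α] [LinearOrder α] [LinearOrder (FreeGroup α)]
  {Λ : Type*} [DivisionRing Λ] [Algebra K Λ]
  {c : Λ →ₗ[K] (FreeGroup α → K)} {j : MonoidAlgebra K (FreeGroup α) →ₐ[K] Λ}
  {N : Type*} [AddCommGroup N] [Module K N]

/-- the leading term of a nonzero element -/
private theorem h1_exists_min (h : IsMN K (FreeGroup α) Λ c j) (a : Λ) :
    ∃ v : FreeGroup α, a ≠ 0 → (c a v ≠ 0 ∧ ∀ g, g < v → c a g = 0) := by
  by_cases ha : a = 0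
  · exact ⟨1, fun h' => absurd ha h'⟩
  · have hne : (Function.support (c a)).Nonempty := by
      rw [Function.support_nonempty_iff]
      intro h0
      exact ha (h.inj (by rw [h0, map_zero]))
    refine ⟨(h.pwo a).isWF.min hne, fun _ => ⟨(h.pwo a).isWF.min_mem hne, fun g hg => ?_⟩⟩
    by_contra hc
    exact (h.pwo a).isWF.not_lt_min hne (Function.mem_support.2 hc) hg

theorem linearIndependent_of_lead (h : IsMN K (FreeGroup α) Λ c j) {s : ℕ}
    (z : Fin s → α → Λ ⊗[K] N) (x : Fin s → α)
    (hb : ∀ k g y, Bef g y (x k) → evT c g (z k y) = 0)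
    (hi : ∀ x₀, LinearIndependent K (fun k : {k : Fin s // x k = x₀} => evT c 1 (z k x₀))) :
    LinearIndependent Λ z := by
  classical
  rw [Fintype.linearIndependent_iff]
  intro a ha
  by_contra hcon
  push Not at hcon
  have hv := fun k => h1_exists_min h (a k)
  choose v hv using hv
  have hne : (Finset.univ.filter fun k => a k ≠ 0).Nonempty := by
    obtain ⟨k, hk⟩ := hcon
    exact ⟨k, Finset.mem_filter.2 ⟨Finset.mem_univ _, hk⟩⟩
  obtain ⟨k₀, hk₀, hmin⟩ := Finset.exists_min_image _
    (fun k => (toLex (v k, x k) : FreeGroup α ×ₗ α)) hne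
  have hk₀' : a k₀ ≠ 0 := (Finset.mem_filter.1 hk₀).2
  have key : ∀ k, evT c (v k₀) (a k • z k (x k₀)) =
      if x k = x k₀ then (if v k = v k₀ then c (a k) (v k₀) else 0) • evT c 1 (z k (x k₀))
      else 0 := by
    intro k
    by_cases hk : a k = 0
    · rw [hk, zero_smul, map_zero, map_zero]
      simp
    · obtain ⟨hk1, hk2⟩ := hv k hk
      have hlead := evT_smul_lead h (a k) (z k (x k₀)) (v k) 1 hk2
        (fun g hg => hb k g (x k₀) (Or.inl hg))
      rw [mul_one] at hlead
      have hm := hmin k (Finset.mem_filter.2 ⟨Finset.mem_univ _, hk⟩)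
      rw [Prod.Lex.toLex_le_toLex] at hm
      rcases hm with hlt | ⟨heq, hle⟩
      · have hlt' : v k₀ < v k := hlt
        rw [hlead.2 _ hlt', if_neg hlt'.ne', zero_smul, ite_self]
      · have heq' : v k₀ = v k := heq
        have hle' : x k₀ ≤ x k := hle
        rw [heq', hlead.1, if_pos rfl]
        rcases hle'.lt_or_eq with hlt | he
        · rw [if_neg hlt.ne', hb k 1 (x k₀) (Or.inr ⟨rfl, hlt⟩), smul_zero]
        · rw [if_pos he.symm]
  have hsum : ∑ k : {k : Fin s // x k = x k₀},
      (if v k = v k₀ then c (a k) (v k₀) else 0) • evT c 1 (z k (x k₀)) = 0 := by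
    have h1 : evT c (v k₀) ((∑ k, a k • z k) (x k₀)) = 0 := by
      rw [ha, Pi.zero_apply, map_zero]
    rw [Finset.sum_apply, map_sum] at h1
    simp only [Pi.smul_apply] at h1
    rw [Finset.sum_congr rfl fun k _ => key k, ← Finset.sum_filter] at h1
    rw [← h1]
    symm
    exact Finset.sum_subtype (Finset.univ.filter fun k => x k = x k₀) (by simp)
      (fun k => (if v k = v k₀ then c (a k) (v k₀) else 0) • evT c 1 (z k (x k₀)))
  have h2 := (Fintype.linearIndependent_iff.1 (hi (x k₀)))
    (fun k => if v k = v k₀ then c (a k) (v k₀) else 0) hsum ⟨k₀, rfl⟩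
  simp only [if_true] at h2
  exact (hv k₀ hk₀').1 h2

end PrimRank
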