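import Pool.Agent.Lib.MP_b8b21d_al.HN.Defs

/-!
Orthogonal families in subspaces of `Λ^E` (Gaussian elimination with pivots at leading terms).

PROOF. Induction on `n`, for all `Z`. For `n + 1 ≤ finrank Z`: take `0 ≠ y ∈ Z`. Consider all pairs
`(g, l e)` with `c (y e) g ≠ 0`; the supports are PWO = WF and `E` is finite, so there is a pair minimal for
the order: first `g`, then `l e`; say it is attained at `e₀` with `g₀`. So `c (y e) g = 0` whenever
`g < g₀` or (`g = g₀` and `l e < l e₀`), and `c (y e₀) g₀ ≠ 0`, `y e₀ ≠ 0`. Let `z₀ = (y e₀)⁻¹ • y ∈ Z`, so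
`z₀ e₀ = 1`. CLAIM: with `x = l e₀`: `Bef g (l e) x → c (z₀ e) g = 0`. Let `a` be the minimum of the support
of `u = (y e₀)⁻¹` (nonzero). By `h.lead` for `u` (at `a`) and `y e₀` (at `g₀`): the coefficient of
`u * y e₀ = 1` at `a g₀` is `≠ 0`, so `a g₀ = 1` (the coefficients of `1 = j 1` are those of `1`, by `h.coe`).
For `g < 1 = a g₀`: `c (u * y e) g = 0` by `h.lead` (`y e` vanishes below `g₀`). For `g = 1`, `l e < x`:
`c (u * y e) (a g₀) = c u a * c (y e) g₀ = 0`. Let `Z₁ = {z ∈ Z : z e₀ = 0}`: `finrank Z₁ ≥ n` (kernel of the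
linear form `z ↦ z e₀` on `Z`). The induction gives `z' : Fin n → ..` in `Z₁`; put `z₀` in front
(`Fin.cons`). Independence over `K` for `x₀`: in a relation between the vectors of coefficients at `1`, if
`x₀ = l e₀` the coordinate `e₀` is `c 1 1 = 1` for `z₀` and `0` for the others, so the coefficient of `z₀` is
`0`; then use the induction hypothesis. If `x₀ ≠ l e₀`, `z₀` does not occur.
-/

namespace PrimRank

variable {K : Type*} [Field K] {α : Type} [Fintype α] [LinearOrder α] [LinearOrder (FreeGroup α)]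
  [MulLeftStrictMono (FreeGroup α)] [MulRightStrictMono (FreeGroup α)]
  {Λ : Type*} [DivisionRing Λ] [Algebra K Λ]
  {c : Λ →ₗ[K] (FreeGroup α → K)} {j : MonoidAlgebra K (FreeGroup α) →ₐ[K] Λ}

omit [Fintype α] [LinearOrder α] [LinearOrder (FreeGroup α)] [MulLeftStrictMono (FreeGroup α)]
  [MulRightStrictMono (FreeGroup α)] in
private theorem h2_li_iff {E : Type} (l : E → α) (n : ℕ) (z : Fin n → E → Λ) (x : Fin n → α)
    (x₀ : α) :
    LinearIndependent K (fun i : {i : Fin n // x i = x₀} =>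
        (fun e : {e : E // l e = x₀} => c (z i e) 1)) ↔
    ∀ a : Fin n → K, (∀ i, x i ≠ x₀ → a i = 0) →
      (∀ e, l e = x₀ → ∑ i, a i * c (z i e) 1 = 0) → ∀ i, a i = 0 := by
  classical
  rw [Fintype.linearIndependent_iff]
  constructor
  · intro h a ha hs i
    by_cases hi : x i = x₀
    · refine h (fun i => a i.1) ?_ ⟨i, hi⟩
      funext e
      rw [Finset.sum_apply]
      have h1 := hs e.1 e.2
      rw [← Finset.sum_filter_of_ne (p := fun i => x i = x₀) (fun i _ hne => by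
        by_contra hx
        exact hne (by rw [ha i hx, zero_mul]))] at h1
      rw [Finset.sum_subtype (Finset.univ.filter fun i => x i = x₀) (p := fun i => x i = x₀)
        (fun i => by simp)] at h1
      exact h1
    · exact ha i hi
  · intro h g hg i
    have key := h (fun i => if hi : x i = x₀ then g ⟨i, hi⟩ else 0)
      (fun i hi => dif_neg hi) ?_ i.1
    · rw [dif_pos i.2] at key
      exact key
    · intro e he
      rw [← Finset.sum_filter_of_ne (p := fun i => x i = x₀) (fun i _ hne => by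
        by_contra hx
        exact hne (by rw [dif_neg hx, zero_mul])),
        Finset.sum_subtype (Finset.univ.filter fun i => x i = x₀) (p := fun i => x i = x₀)
        (fun i => by simp)]
      have h1 := congrFun hg ⟨e, he⟩
      rw [Finset.sum_apply] at h1
      refine Eq.trans (Finset.sum_congr rfl fun i _ => ?_) h1
      rw [dif_pos i.2]
      rfl

omit [Fintype α] [LinearOrder α] in
private theorem h2_c_one (h : IsMN K (FreeGroup α) Λ c j) (g : FreeGroup α) :
    (c 1 1 = 1) ∧ (c 1 g ≠ 0 → g = 1) := by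
  have hj : j 1 = 1 := map_one j
  have h1 : ∀ g, c 1 g = (1 : MonoidAlgebra K (FreeGroup α)).coeff g := fun g => by
    rw [← h.coe 1 g, hj]
  refine ⟨by rw [h1, MonoidAlgebra.coeff_one_one], fun hg => ?_⟩
  by_contra hne
  apply hg
  rw [h1, MonoidAlgebra.one_def]
  simp [Ne.symm hne]

omit [Fintype α] in
private theorem h2_pivot (h : IsMN K (FreeGroup α) Λ c j) {E : Type} [Fintype E] (l : E → α)
    (y : E → Λ) (hy : y ≠ 0) :
    ∃ e₀, y e₀ ≠ 0 ∧ ∀ g e, Bef g (l e) (l e₀) → c ((y e₀)⁻¹ * y e) g = 0 := by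
  classical
  have hU : (⋃ e ∈ (Finset.univ : Finset E), Function.support (c (y e))).IsWF :=
    (Finset.isWF_bUnion _).2 fun e _ => (h.pwo (y e)).isWF
  have hne0 : ∀ s : Λ, s ≠ 0 → (Function.support (c s)).Nonempty := by
    intro s hs
    rw [Function.support_nonempty_iff]
    intro h0
    exact hs (h.inj (by rw [h0, map_zero]))
  have hUne : (⋃ e ∈ (Finset.univ : Finset E), Function.support (c (y e))).Nonempty := by
    obtain ⟨e, he⟩ := Function.ne_iff.1 hy
    obtain ⟨g, hg⟩ := hne0 (y e) he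
    exact ⟨g, Set.mem_biUnion (Finset.mem_coe.2 (Finset.mem_univ e)) hg⟩
  obtain ⟨g₀, ⟨e₁, he₁⟩, hmin⟩ : ∃ g₀, (∃ e, c (y e) g₀ ≠ 0) ∧ ∀ g < g₀, ∀ e, c (y e) g = 0 := by
    refine ⟨hU.min hUne, ?_, ?_⟩
    · have h1 := hU.min_mem hUne
      simp only [Set.mem_iUnion, Function.mem_support] at h1
      obtain ⟨e, -, he⟩ := h1
      exact ⟨e, he⟩
    · intro g hg e
      by_contra hne
      exact hU.not_lt_min hUne (Set.mem_biUnion (Finset.mem_coe.2 (Finset.mem_univ e)) hne) hg
  obtain ⟨e₀, he₀, hle⟩ := Finset.exists_min_image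
    (Finset.univ.filter fun e => c (y e) g₀ ≠ 0) l ⟨e₁, by simp [he₁]⟩
  have he₀' : c (y e₀) g₀ ≠ 0 := (Finset.mem_filter.1 he₀).2
  have hy0 : y e₀ ≠ 0 := by
    intro h0
    rw [h0, map_zero] at he₀'
    exact he₀' rfl
  have hu0 : (y e₀)⁻¹ ≠ 0 := inv_ne_zero hy0
  have hW : (Function.support (c (y e₀)⁻¹)).IsWF := (h.pwo _).isWF
  obtain ⟨a, ha, hamin⟩ : ∃ a, c (y e₀)⁻¹ a ≠ 0 ∧ ∀ g < a, c (y e₀)⁻¹ g = 0 := by
    refine ⟨hW.min (hne0 _ hu0), hW.min_mem _, fun g hg => ?_⟩
    by_contra hne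
    exact hW.not_lt_min (hne0 _ hu0) hne hg
  have hag : a * g₀ = 1 := by
    apply (h2_c_one h (a * g₀)).2
    have h1 := (h.lead (y e₀)⁻¹ (y e₀) a g₀ hamin (fun g hg => hmin g hg e₀)).1
    rw [inv_mul_cancel₀ hy0] at h1
    rw [h1]
    exact mul_ne_zero ha he₀'
  refine ⟨e₀, hy0, fun g e hbef => ?_⟩
  have h2 := h.lead (y e₀)⁻¹ (y e) a g₀ hamin (fun g hg => hmin g hg e)
  rw [hag] at h2
  rcases hbef with hg | ⟨hg, hl⟩
  · exact h2.2 g hg
  · rw [hg, h2.1]
    have h3 : c (y e) g₀ = 0 := by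
      by_contra hne
      exact absurd (hle e (Finset.mem_filter.2 ⟨Finset.mem_univ _, hne⟩)) (not_le.2 hl)
    rw [h3, mul_zero]

private theorem h2_finrank {E : Type} [Fintype E] (Z : Submodule Λ (E → Λ)) (n : ℕ)
    (hn : n + 1 ≤ Module.finrank Λ Z) (e₀ : E) :
    ∃ Z₁ : Submodule Λ (E → Λ), Z₁ ≤ Z ∧ (∀ z ∈ Z₁, z e₀ = 0) ∧ n ≤ Module.finrank Λ Z₁ := by
  set f : Z →ₗ[Λ] Λ := (LinearMap.proj e₀ : (E → Λ) →ₗ[Λ] Λ).comp Z.subtype with hf
  refine ⟨(LinearMap.ker f).map Z.subtype, ?_, ?_, ?_⟩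
  · rintro _ ⟨z, -, rfl⟩
    exact z.2
  · rintro _ ⟨z, hz, rfl⟩
    exact hz
  · rw [Submodule.finrank_map_subtype_eq]
    have h1 := LinearMap.finrank_range_add_finrank_ker f
    have h2 : Module.finrank Λ (LinearMap.range f) ≤ 1 := by
      have := Submodule.finrank_le (LinearMap.range f)
      rwa [Module.finrank_self] at this
    omega

theorem exists_lead (h : IsMN K (FreeGroup α) Λ c j) {E : Type} [Fintype E] (l : E → α)
    (Z : Submodule Λ (E → Λ)) (n : ℕ) (hn : n ≤ Module.finrank Λ Z) :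
    ∃ (z : Fin n → E → Λ) (x : Fin n → α), (∀ i, z i ∈ Z) ∧
      (∀ i e g, Bef g (l e) (x i) → c (z i e) g = 0) ∧
      ∀ x₀, LinearIndependent K (fun i : {i : Fin n // x i = x₀} =>
        (fun e : {e : E // l e = x₀} => c (z i e) 1)) := by
  induction n generalizing Z with
  | zero =>
    refine ⟨fun i => i.elim0, fun i => i.elim0, fun i => i.elim0, fun i => i.elim0, fun x₀ => ?_⟩
    rw [h2_li_iff l 0 _ _ x₀]
    exact fun _ _ _ i => i.elim0
  | succ n ih =>
    obtain ⟨y, hyZ, hy⟩ : ∃ y ∈ Z, y ≠ 0 := by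
      refine Submodule.exists_mem_ne_zero_of_ne_bot ?_
      rintro rfl
      rw [finrank_bot] at hn
      omega
    obtain ⟨e₀, hy0, hpiv⟩ := h2_pivot h l y hy
    obtain ⟨Z₁, hZ₁, hZ₁0, hn₁⟩ := h2_finrank Z n hn e₀
    obtain ⟨z', x', hz', hv', hli'⟩ := ih Z₁ hn₁
    refine ⟨Fin.cons ((y e₀)⁻¹ • y) z', Fin.cons (l e₀) x', ?_, ?_, ?_⟩
    · intro i
      refine Fin.cases ?_ (fun i => ?_) i
      · exact Z.smul_mem _ hyZ
      · exact hZ₁ (hz' i)
    · intro i
      refine Fin.cases ?_ (fun i => ?_) i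
      · intro e g hb
        exact hpiv g e hb
      · intro e g hb
        exact hv' i e g hb
    · intro x₀
      rw [h2_li_iff l (n + 1) _ _ x₀]
      intro a ha hs
      have hli := (h2_li_iff l n z' x' x₀).1 (hli' x₀)
      have ha0 : a 0 = 0 := by
        by_cases hx : l e₀ = x₀
        · have h1 := hs e₀ hx
          rw [Fin.sum_univ_succ] at h1
          have h2 : c ((Fin.cons ((y e₀)⁻¹ • y) z' : Fin (n + 1) → E → Λ) 0 e₀) 1 = 1 := by
            show c ((y e₀)⁻¹ * y e₀) 1 = 1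
            rw [inv_mul_cancel₀ hy0]
            exact (h2_c_one h 1).1
          have h3 : ∀ i : Fin n, c ((Fin.cons ((y e₀)⁻¹ • y) z' : Fin (n + 1) → E → Λ) i.succ e₀) 1
              = 0 := by
            intro i
            show c (z' i e₀) 1 = 0
            rw [hZ₁0 _ (hz' i), map_zero]
            rfl
          rw [h2, mul_one, Finset.sum_eq_zero (fun i _ => by rw [h3 i, mul_zero]), add_zero] at h1
          exact h1
        · exact ha 0 hx
      intro i
      refine Fin.cases ha0 (fun i => ?_) i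
      refine hli (fun i => a i.succ) (fun i hi => ha i.succ hi) (fun e he => ?_) i
      have h1 := hs e he
      rw [Fin.sum_univ_succ, ha0, zero_mul, zero_add] at h1
      exact h1

end PrimRank
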