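import Pool.Agent.Lib.MP_b8b21d_al.HN.H0

/-!
Flows with values in `K[F] / I`: there are at most `m - 1` independent ones, if `I` is free of rank `m`.

Proof. For a `K`-space `N` with endomorphisms `X x` let `∂ z = ∑_x (z x * x - X x (z x))`, a `Λ`-linear map
`(Λ ⊗ N)^α → Λ ⊗ N`; the flows are its kernel. For `N = A = K[F]` the map `∂` is injective (`dT_inj`: the
Cayley graph is a tree) and its image is the kernel of `μ : Λ ⊗ A → Λ`, `s ⊗ a ↦ s j(a)`. Given a flow `z`
with values in `A / I`, lift it linearly to `y ∈ (Λ ⊗ A)^α`; then `∂ y` lies in `Λ ⊗ I = ⊕ (Λ ⊗ A) b_i`, and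
`κ(z) ∈ Λ^m` has the components `μ` of the components of `∂ y`. The map `κ` is injective on flows and its
values satisfy `∑ κ_i j(b_i) = μ(∂ y) = 0`.
-/

namespace PrimRank

open scoped TensorProduct

namespace H3

section free

variable {α : Type}

/-- multiplication of a group element by a letter -/
theorem len_letter [DecidableEq α] (y : α × Bool) (g : FreeGroup α) :
    (FreeGroup.mk [y] * g).toWord.length = g.toWord.length + 1 ∨
      g.toWord = (y.1, !y.2) :: (FreeGroup.mk [y] * g).toWord := by
  have h3 : (FreeGroup.mk [y] * g).toWord = FreeGroup.reduce (y :: g.toWord) := by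
    rw [FreeGroup.toWord_mul, FreeGroup.toWord_mk, FreeGroup.reduce_singleton]
    rfl
  rw [h3, FreeGroup.reduce.cons, FreeGroup.reduce_toWord]
  cases h4 : g.toWord with
  | nil => exact Or.inl rfl
  | cons hd tl =>
    show (if y.1 = hd.1 ∧ y.2 = !hd.2 then tl else y :: hd :: tl).length = (hd :: tl).length + 1 ∨
      hd :: tl = (y.1, !y.2) :: (if y.1 = hd.1 ∧ y.2 = !hd.2 then tl else y :: hd :: tl)
    split_ifs with h5
    · right
      congr 1
      refine Prod.ext h5.1.symm ?_
      show hd.2 = !y.2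
      rw [h5.2, Bool.not_not]
    · left
      rfl

theorem mk_true (x : α) : FreeGroup.mk [(x, true)] = FreeGroup.of x := rfl

theorem mk_false (x : α) : FreeGroup.mk [(x, false)] = (FreeGroup.of x)⁻¹ := rfl

/-- The combinatorial core of the injectivity: a finitely supported function on the edges of the Cayley
tree which satisfies one equation at each vertex vanishes. -/
theorem tree_core [DecidableEq α] [Fintype α] {Λ : Type*} [DivisionRing Λ] (S : α → FreeGroup α → Λ) (J : α → Λ)
    (hJ : ∀ x, J x ≠ 0)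
    (N : ℕ) (hN : ∀ x t, N ≤ t.toWord.length → S x t = 0)
    (h : ∀ t, ∑ x, S x t * J x = ∑ x, S x ((FreeGroup.of x)⁻¹ * t)) : ∀ x t, S x t = 0 := by
  classical
  have key : ∀ n : ℕ, ∀ x t, (N + 1 - n ≤ t.toWord.length ∨
      N + 1 - n ≤ (FreeGroup.of x * t).toWord.length) → S x t = 0 := by
    intro n
    induction n with
    | zero =>
      intro x t ht
      apply hN
      rcases ht with ht | ht
      · omega
      · rcases len_letter (x, true) t with h1 | h1
        · rw [mk_true] at h1
          omega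
        · have h2 := congrArg List.length h1
          rw [mk_true, List.length_cons] at h2
          omega
    | succ n ih =>
      -- all values at a vertex of length `N + 1 - (n + 1)` vanish
      have hv : ∀ v : FreeGroup α, v.toWord.length = N + 1 - (n + 1) → n < N + 1 →
          ∀ x, S x v * J x = 0 ∧ S x ((FreeGroup.of x)⁻¹ * v) = 0 := by
        intro v hv hn
        set D : α × Bool → Λ := fun c => if c.2 = true then S c.1 v * J c.1 else
          - S c.1 ((FreeGroup.of c.1)⁻¹ * v) with hD
        have h1 : ∀ c : α × Bool, (FreeGroup.mk [c] * v).toWord.length = v.toWord.length + 1 →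
            D c = 0 := by
          rintro ⟨x, b⟩ hc
          cases b with
          | true =>
            rw [mk_true] at hc
            simp only [hD, if_true]
            rw [ih x v (Or.inr (by omega)), zero_mul]
          | false =>
            rw [mk_false] at hc
            simp only [hD, Bool.false_eq_true, if_false, neg_eq_zero]
            exact ih x _ (Or.inl (by omega))
        have h2 : ∑ c, D c = 0 := by
          rw [Fintype.sum_prod_type]
          simp only [Fintype.sum_bool, hD, if_true, Bool.false_eq_true, if_false]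
          rw [Finset.sum_add_distrib, Finset.sum_neg_distrib, h v, add_neg_cancel]
        have h3 : ∀ c, D c = 0 := by
          intro c
          rcases len_letter c v with h4 | h4
          · exact h1 c h4
          · rw [Finset.sum_eq_single c] at h2
            · exact h2
            · intro d _ hd
              rcases len_letter d v with h5 | h5
              · exact h1 d h5
              · exfalso
                apply hd
                rw [h4] at h5
                have h6 := (List.cons.inj h5).1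
                have h7 := (Prod.mk.inj h6)
                refine Prod.ext h7.1.symm ?_
                have h8 := h7.2
                cases h9 : d.2 <;> cases h10 : c.2 <;> simp_all
            · intro h6
              exact absurd (Finset.mem_univ c) h6
        intro x
        constructor
        · have := h3 (x, true)
          simpa only [hD, if_true] using this
        · have := h3 (x, false)
          simpa only [hD, Bool.false_eq_true, if_false, neg_eq_zero] using this
      intro x t ht
      by_cases hn : n < N + 1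
      · rcases ht with ht | ht
        · rcases Nat.lt_or_ge (N + 1 - (n + 1)) t.toWord.length with h1 | h1
          · exact ih x t (Or.inl (by omega))
          · have h2 := (hv t (by omega) hn x).1
            exact (mul_eq_zero.1 h2).resolve_right (hJ x)
        · rcases Nat.lt_or_ge (N + 1 - (n + 1)) (FreeGroup.of x * t).toWord.length with h1 | h1
          · exact ih x t (Or.inr (by omega))
          · have h2 := (hv (FreeGroup.of x * t) (by omega) hn x).2
            rwa [inv_mul_cancel_left] at h2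
      · exact ih x t (Or.inl (by omega))
  intro x t
  exact key (N + 1) x t (Or.inl (by omega))

end free

section tens

variable {K : Type*} [Field K] {α : Type} {Λ : Type*} [DivisionRing Λ] [Algebra K Λ]
  {c : Λ →ₗ[K] (FreeGroup α → K)} {j : MonoidAlgebra K (FreeGroup α) →ₐ[K] Λ}
  {N : Type*} [AddCommGroup N] [Module K N] {N' : Type*} [AddCommGroup N'] [Module K N']

/-- right multiplication by `r` on the first factor -/
noncomputable def RM (K : Type*) [Field K] {Λ : Type*} [DivisionRing Λ] [Algebra K Λ]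
    (N : Type*) [AddCommGroup N] [Module K N] (r : Λ) : Λ ⊗[K] N →ₗ[Λ] Λ ⊗[K] N :=
  TensorProduct.AlgebraTensorModule.map (LinearMap.toSpanSingleton Λ Λ r) LinearMap.id

theorem RM_tmul (r s : Λ) (n : N) : RM K N r (s ⊗ₜ[K] n) = (s * r) ⊗ₜ[K] n := by
  simp [RM]

/-- The boundary map of flows. -/
noncomputable def dT [Fintype α] (j : MonoidAlgebra K (FreeGroup α) →ₐ[K] Λ)
    (X : α → N →ₗ[K] N) : (α → Λ ⊗[K] N) →ₗ[Λ] Λ ⊗[K] N :=
  ∑ x, (RM K N (j (MonoidAlgebra.of K (FreeGroup α) (FreeGroup.of x))) -
    (X x).baseChange Λ) ∘ₗ LinearMap.proj x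

theorem dT_apply [Fintype α] (X : α → N →ₗ[K] N) (z : α → Λ ⊗[K] N) :
    dT j X z = ∑ x, (RM K N (j (MonoidAlgebra.of K (FreeGroup α) (FreeGroup.of x))) (z x) -
      (X x).baseChange Λ (z x)) := by
  simp only [dT, LinearMap.sum_apply, LinearMap.comp_apply, LinearMap.sub_apply,
    LinearMap.proj_apply]

/-- the map induced on the second factor, applied to all edges -/
noncomputable def pf (α : Type) (Λ : Type*) [DivisionRing Λ] [Algebra K Λ] (φ : N →ₗ[K] N') :
    (α → Λ ⊗[K] N) →ₗ[Λ] (α → Λ ⊗[K] N') :=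
  LinearMap.pi fun x => φ.baseChange Λ ∘ₗ LinearMap.proj x

theorem pf_apply (φ : N →ₗ[K] N') (z : α → Λ ⊗[K] N) (x : α) :
    pf α Λ φ z x = φ.baseChange Λ (z x) := rfl

theorem RM_baseChange (φ : N →ₗ[K] N') (r : Λ) (y : Λ ⊗[K] N) :
    RM K N' r (φ.baseChange Λ y) = φ.baseChange Λ (RM K N r y) := by
  induction y using TensorProduct.induction_on with
  | zero => simp only [map_zero]
  | tmul s n => simp only [LinearMap.baseChange_tmul, RM_tmul]
  | add a b ha hb => simp only [map_add, ha, hb]

theorem dT_pf [Fintype α] (X : α → N →ₗ[K] N) (X' : α → N' →ₗ[K] N') (φ : N →ₗ[K] N')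
    (h : ∀ x n, φ (X x n) = X' x (φ n)) (z : α → Λ ⊗[K] N) :
    dT j X' (pf α Λ φ z) = φ.baseChange Λ (dT j X z) := by
  rw [dT_apply, dT_apply, map_sum]
  refine Finset.sum_congr rfl fun x _ => ?_
  rw [map_sub, pf_apply, RM_baseChange]
  congr 1
  have h1 : (X' x) ∘ₗ φ = φ ∘ₗ (X x) := LinearMap.ext fun n => (h x n).symm
  rw [← LinearMap.comp_apply, ← LinearMap.baseChange_comp, h1, LinearMap.baseChange_comp,
    LinearMap.comp_apply]

theorem evT_RM [LinearOrder (FreeGroup α)] (h : IsMN K (FreeGroup α) Λ c j) (g k : FreeGroup α)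
    (y : Λ ⊗[K] N) : evT c k (RM K N (j (MonoidAlgebra.of K (FreeGroup α) g)) y) =
      evT c (k * g⁻¹) y := by
  induction y using TensorProduct.induction_on with
  | zero => simp only [map_zero]
  | tmul s n => rw [RM_tmul, evT_tmul, evT_tmul, h.right]
  | add a b ha hb => simp only [map_add, ha, hb]

theorem evT_baseChange (φ : N →ₗ[K] N') (k : FreeGroup α) (y : Λ ⊗[K] N) :
    evT c k (φ.baseChange Λ y) = φ (evT c k y) := by
  induction y using TensorProduct.induction_on with
  | zero => simp only [map_zero]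
  | tmul s n => rw [LinearMap.baseChange_tmul, evT_tmul, evT_tmul, map_smul]
  | add a b ha hb => simp only [map_add, ha, hb]

theorem dT_eq_zero_of_isFlow [Fintype α] [LinearOrder (FreeGroup α)]
    (h : IsMN K (FreeGroup α) Λ c j) (X : α → N →ₗ[K] N) (z : α → Λ ⊗[K] N)
    (hz : IsFlow c X z) : dT j X z = 0 := by
  apply eq_zero_of_evT h
  intro g
  rw [dT_apply, map_sum]
  simp only [map_sub, evT_RM h, evT_baseChange]
  rw [Finset.sum_sub_distrib, hz g, sub_self]

/-! ### The group algebra -/

/-- left multiplication by a generator on the group algebra -/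
noncomputable def XA (K : Type*) [Field K] {α : Type} (x : α) : GA K α →ₗ[K] GA K α :=
  LinearMap.mulLeft K (MonoidAlgebra.of K (FreeGroup α) (FreeGroup.of x))

/-- the multiplication `Λ ⊗ A → Λ` -/
noncomputable def mu (j : MonoidAlgebra K (FreeGroup α) →ₐ[K] Λ) : Λ ⊗[K] GA K α →ₗ[Λ] Λ :=
  TensorProduct.AlgebraTensorModule.lift
    { toFun := fun s => (LinearMap.mulLeft K s) ∘ₗ j.toLinearMap
      map_add' := fun s t => by
        ext
        simp [add_mul]
      map_smul' := fun s t => by
        ext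
        simp }

theorem mu_tmul (s : Λ) (a : GA K α) : mu j (s ⊗ₜ[K] a) = s * j a := by
  simp [mu]

/-- the coordinate at `t` of an element of `Λ ⊗ A` -/
noncomputable def co (K : Type*) [Field K] {α : Type} (Λ : Type*) [DivisionRing Λ] [Algebra K Λ]
    (t : FreeGroup α) : Λ ⊗[K] GA K α →ₗ[Λ] Λ :=
  (Algebra.TensorProduct.basis Λ (MonoidAlgebra.basis (FreeGroup α) K)).coord t

theorem co_tmul (t : FreeGroup α) (s : Λ) (a : GA K α) :
    co K Λ t (s ⊗ₜ[K] a) = a.coeff t • s := by
  rw [co, Module.Basis.coord_apply, Algebra.TensorProduct.basis_repr_tmul, Finsupp.smul_apply,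
    Finsupp.mapRange_apply, smul_eq_mul]
  show s * algebraMap K Λ (a.coeff t) = a.coeff t • s
  rw [← Algebra.commutes, Algebra.smul_def]

theorem co_ext (y : Λ ⊗[K] GA K α) (hy : ∀ t, co K Λ t y = 0) : y = 0 :=
  (Algebra.TensorProduct.basis Λ (MonoidAlgebra.basis (FreeGroup α) K)).ext_elem fun t => by
    rw [map_zero, Finsupp.zero_apply]
    exact hy t

theorem co_fin [DecidableEq α] (y : Λ ⊗[K] GA K α) :
    ∃ N : ℕ, ∀ t : FreeGroup α, N ≤ t.toWord.length → co K Λ t y = 0 := by
  set f := (Algebra.TensorProduct.basis Λ (MonoidAlgebra.basis (FreeGroup α) K)).repr y with hf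
  refine ⟨f.support.sup (fun t => t.toWord.length) + 1, fun t ht => ?_⟩
  show f t = 0
  by_contra h1
  have h2 := Finset.le_sup (f := fun t : FreeGroup α => t.toWord.length)
    (Finsupp.mem_support_iff.2 h1)
  omega

theorem co_RM (t : FreeGroup α) (r : Λ) (y : Λ ⊗[K] GA K α) :
    co K Λ t (RM K (GA K α) r y) = co K Λ t y * r := by
  induction y using TensorProduct.induction_on with
  | zero => simp only [map_zero, zero_mul]
  | tmul s n => rw [RM_tmul, co_tmul, co_tmul, smul_mul_assoc]
  | add a b ha hb => simp only [map_add, ha, hb, add_mul]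

theorem co_XA (t : FreeGroup α) (x : α) (y : Λ ⊗[K] GA K α) :
    co K Λ t ((XA K x).baseChange Λ y) = co K Λ ((FreeGroup.of x)⁻¹ * t) y := by
  induction y using TensorProduct.induction_on with
  | zero => simp only [map_zero]
  | tmul s n =>
    rw [LinearMap.baseChange_tmul, co_tmul, co_tmul]
    show ((MonoidAlgebra.of K (FreeGroup α) (FreeGroup.of x) * n).coeff t) • s = _
    rw [MonoidAlgebra.of_apply, MonoidAlgebra.coeff_single_mul_apply, one_mul]
  | add a b ha hb => simp only [map_add, ha, hb]

theorem j_ne_zero (g : FreeGroup α) : j (MonoidAlgebra.of K (FreeGroup α) g) ≠ 0 := by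
  intro h1
  have h2 : j (MonoidAlgebra.of K (FreeGroup α) g) *
      j (MonoidAlgebra.of K (FreeGroup α) g⁻¹) = 1 := by
    rw [← map_mul, ← map_mul, mul_inv_cancel, map_one, map_one]
  rw [h1, zero_mul] at h2
  exact zero_ne_one h2

theorem dT_inj [Fintype α] (y : α → Λ ⊗[K] GA K α) (hy : dT j (XA K) y = 0) : y = 0 := by
  classical
  choose N hN using fun x => co_fin (Λ := Λ) (y x)
  funext x
  apply co_ext
  intro t
  refine tree_core (fun x t => co K Λ t (y x))
    (fun x => j (MonoidAlgebra.of K (FreeGroup α) (FreeGroup.of x))) (fun x => j_ne_zero _)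
    (∑ x, N x) (fun x t ht => hN x t (le_trans (Finset.single_le_sum (f := N)
      (fun _ _ => Nat.zero_le _) (Finset.mem_univ x)) ht)) (fun t => ?_) x t
  have h1 := congrArg (co K Λ t) hy
  rw [dT_apply, map_sum, map_zero] at h1
  simp only [map_sub, co_RM, co_XA] at h1
  rw [Finset.sum_sub_distrib] at h1
  exact sub_eq_zero.1 h1

theorem mu_dT [Fintype α] (y : α → Λ ⊗[K] GA K α) : mu j (dT j (XA K) y) = 0 := by
  have h1 : ∀ (x : α) (u : Λ ⊗[K] GA K α),
      mu j (RM K (GA K α) (j (MonoidAlgebra.of K (FreeGroup α) (FreeGroup.of x))) u) =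
        mu j ((XA K x).baseChange Λ u) := by
    intro x u
    induction u using TensorProduct.induction_on with
    | zero => simp only [map_zero]
    | tmul s n =>
      rw [RM_tmul, LinearMap.baseChange_tmul, mu_tmul, mu_tmul]
      show _ = s * j (MonoidAlgebra.of K (FreeGroup α) (FreeGroup.of x) * n)
      rw [map_mul, mul_assoc]
    | add a b ha hb => simp only [map_add, ha, hb]
  rw [dT_apply, map_sum]
  refine Finset.sum_eq_zero fun x _ => ?_
  rw [map_sub, h1, sub_self]

theorem range_dT_aux [Fintype α] (g : FreeGroup α) : ∀ s : Λ,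
    s ⊗ₜ[K] (MonoidAlgebra.of K (FreeGroup α) g) -
      (s * j (MonoidAlgebra.of K (FreeGroup α) g)) ⊗ₜ[K] (1 : GA K α) ∈
      LinearMap.range (dT j (XA K)) := by
  classical
  have hs : ∀ (x : α) (s : Λ) (h : FreeGroup α),
      (s * j (MonoidAlgebra.of K (FreeGroup α) (FreeGroup.of x))) ⊗ₜ[K]
        (MonoidAlgebra.of K (FreeGroup α) h) -
      s ⊗ₜ[K] (MonoidAlgebra.of K (FreeGroup α) (FreeGroup.of x * h)) ∈
      LinearMap.range (dT j (XA K)) := by
    intro x s h
    refine ⟨Pi.single x (s ⊗ₜ[K] (MonoidAlgebra.of K (FreeGroup α) h)), ?_⟩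
    rw [dT_apply, Finset.sum_eq_single x]
    · rw [Pi.single_eq_same, RM_tmul, LinearMap.baseChange_tmul]
      congr 2
      show MonoidAlgebra.of K (FreeGroup α) (FreeGroup.of x) * MonoidAlgebra.of K (FreeGroup α) h
        = _
      rw [← map_mul]
    · intro y _ hy
      rw [Pi.single_eq_of_ne hy, map_zero, map_zero, sub_zero]
    · intro h1
      exact absurd (Finset.mem_univ x) h1
  -- the set of good `g`
  have hmul : ∀ (x : α) (h : FreeGroup α), (∀ s : Λ,
      s ⊗ₜ[K] (MonoidAlgebra.of K (FreeGroup α) h) -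
      (s * j (MonoidAlgebra.of K (FreeGroup α) h)) ⊗ₜ[K] (1 : GA K α) ∈
      LinearMap.range (dT j (XA K))) → ∀ s : Λ,
      s ⊗ₜ[K] (MonoidAlgebra.of K (FreeGroup α) (FreeGroup.of x * h)) -
      (s * j (MonoidAlgebra.of K (FreeGroup α) (FreeGroup.of x * h))) ⊗ₜ[K] (1 : GA K α) ∈
      LinearMap.range (dT j (XA K)) := by
    intro x h ih s
    have h1 := Submodule.sub_mem _ (ih (s * j (MonoidAlgebra.of K (FreeGroup α) (FreeGroup.of x))))
      (hs x s h)
    rw [map_mul (MonoidAlgebra.of K (FreeGroup α)) (FreeGroup.of x) h, map_mul j, ← mul_assoc]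
    rw [map_mul (MonoidAlgebra.of K (FreeGroup α)) (FreeGroup.of x) h] at h1
    convert h1 using 1
    abel
  have hinv : ∀ (x : α) (h : FreeGroup α), (∀ s : Λ,
      s ⊗ₜ[K] (MonoidAlgebra.of K (FreeGroup α) h) -
      (s * j (MonoidAlgebra.of K (FreeGroup α) h)) ⊗ₜ[K] (1 : GA K α) ∈
      LinearMap.range (dT j (XA K))) → ∀ s : Λ,
      s ⊗ₜ[K] (MonoidAlgebra.of K (FreeGroup α) ((FreeGroup.of x)⁻¹ * h)) -
      (s * j (MonoidAlgebra.of K (FreeGroup α) ((FreeGroup.of x)⁻¹ * h))) ⊗ₜ[K] (1 : GA K α) ∈
      LinearMap.range (dT j (XA K)) := by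
    intro x h ih s
    have h2 := hs x (s * j (MonoidAlgebra.of K (FreeGroup α) (FreeGroup.of x)⁻¹))
      ((FreeGroup.of x)⁻¹ * h)
    have h3 : s * j (MonoidAlgebra.of K (FreeGroup α) (FreeGroup.of x)⁻¹) *
        j (MonoidAlgebra.of K (FreeGroup α) (FreeGroup.of x)) = s := by
      rw [mul_assoc, ← map_mul, ← map_mul, inv_mul_cancel, map_one, map_one, mul_one]
    rw [h3, mul_inv_cancel_left] at h2
    have h1 := Submodule.add_mem _ (ih (s * j (MonoidAlgebra.of K (FreeGroup α)
      (FreeGroup.of x)⁻¹))) h2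
    rw [map_mul (MonoidAlgebra.of K (FreeGroup α)) (FreeGroup.of x)⁻¹ h, map_mul j, ← mul_assoc]
    rw [map_mul (MonoidAlgebra.of K (FreeGroup α)) (FreeGroup.of x)⁻¹ h] at h1
    convert h1 using 1
    abel
  have hlist : ∀ L : List (α × Bool), ∀ s : Λ,
      s ⊗ₜ[K] (MonoidAlgebra.of K (FreeGroup α) (FreeGroup.mk L)) -
      (s * j (MonoidAlgebra.of K (FreeGroup α) (FreeGroup.mk L))) ⊗ₜ[K] (1 : GA K α) ∈
      LinearMap.range (dT j (XA K)) := by
    intro L
    induction L with
    | nil =>
      intro s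
      have h1 : FreeGroup.mk ([] : List (α × Bool)) = 1 := rfl
      rw [h1, map_one, map_one, mul_one, sub_self]
      exact Submodule.zero_mem _
    | cons y L ih =>
      obtain ⟨x, b⟩ := y
      cases b with
      | true =>
        have h1 : FreeGroup.mk ((x, true) :: L) = FreeGroup.of x * FreeGroup.mk L := by
          rw [← mk_true, FreeGroup.mul_mk]
          rfl
        rw [h1]
        exact hmul x _ ih
      | false =>
        have h1 : FreeGroup.mk ((x, false) :: L) = (FreeGroup.of x)⁻¹ * FreeGroup.mk L := by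
          rw [← mk_false, FreeGroup.mul_mk]
          rfl
        rw [h1]
        exact hinv x _ ih
  have h1 := hlist g.toWord
  rwa [FreeGroup.mk_toWord] at h1

theorem range_dT [Fintype α] (w : Λ ⊗[K] GA K α) (hw : mu j w = 0) :
    ∃ v, dT j (XA K) v = w := by
  have h1 : ∀ w : Λ ⊗[K] GA K α, w - (mu j w) ⊗ₜ[K] (1 : GA K α) ∈
      LinearMap.range (dT j (XA K)) := by
    intro w
    induction w using TensorProduct.induction_on with
    | zero =>
      rw [map_zero, TensorProduct.zero_tmul, sub_zero]
      exact Submodule.zero_mem _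
    | tmul s a =>
      rw [mu_tmul]
      induction a using MonoidAlgebra.induction_on with
      | of g => exact range_dT_aux g s
      | add a b ha hb =>
        rw [TensorProduct.tmul_add, map_add, mul_add, TensorProduct.add_tmul]
        have h2 := Submodule.add_mem _ ha hb
        convert h2 using 1
        abel
      | smul r a ha =>
        have h2 := Submodule.smul_mem _ (algebraMap K Λ r) ha
        rw [smul_sub, TensorProduct.smul_tmul', TensorProduct.smul_tmul', smul_eq_mul,
          smul_eq_mul, ← Algebra.smul_def, ← Algebra.smul_def] at h2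
        rw [map_smul, mul_smul_comm, ← TensorProduct.smul_tmul]
        exact h2
    | add a b ha hb =>
      rw [map_add, TensorProduct.add_tmul]
      have h2 := Submodule.add_mem _ ha hb
      convert h2 using 1
      abel
  have h2 := h1 w
  rw [hw, TensorProduct.zero_tmul, sub_zero] at h2
  exact h2

theorem pf_comp {N'' : Type*} [AddCommGroup N''] [Module K N''] (ψ : N' →ₗ[K] N'')
    (φ : N →ₗ[K] N') (z : α → Λ ⊗[K] N) :
    pf α Λ ψ (pf α Λ φ z) = pf α Λ (ψ ∘ₗ φ) z := by
  funext x
  rw [pf_apply, pf_apply, pf_apply, LinearMap.baseChange_comp, LinearMap.comp_apply]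

theorem pf_id (z : α → Λ ⊗[K] N) : pf α Λ (LinearMap.id : N →ₗ[K] N) z = z := by
  funext x
  rw [pf_apply, LinearMap.baseChange_id, LinearMap.id_apply]

theorem pf_zero (z : α → Λ ⊗[K] N) : pf α Λ (0 : N →ₗ[K] N') z = 0 := by
  funext x
  rw [pf_apply, LinearMap.baseChange_zero, LinearMap.zero_apply, Pi.zero_apply]

/-- right multiplication by `b` -/
theorem mu_mulRight (b : GA K α) (u : Λ ⊗[K] GA K α) :
    mu j ((LinearMap.mulRight K b).baseChange Λ u) = mu j u * j b := by
  induction u using TensorProduct.induction_on with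
  | zero => simp only [map_zero, zero_mul]
  | tmul s n =>
    rw [LinearMap.baseChange_tmul, mu_tmul, mu_tmul, LinearMap.mulRight_apply, map_mul, mul_assoc]
  | add a b ha hb => simp only [map_add, ha, hb, add_mul]

theorem baseChange_sum {ι : Type*} (s : Finset ι) (φ : ι → N →ₗ[K] N') (u : Λ ⊗[K] N) :
    (∑ i ∈ s, φ i).baseChange Λ u = ∑ i ∈ s, (φ i).baseChange Λ u := by
  induction u using TensorProduct.induction_on with
  | zero => simp only [map_zero, Finset.sum_const_zero]
  | tmul t n => simp only [LinearMap.baseChange_tmul, LinearMap.sum_apply, TensorProduct.tmul_sum]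
  | add a b ha hb => simp only [map_add, ha, hb, Finset.sum_add_distrib]

end tens

section final

variable {K : Type*} [Field K] {α : Type} [Fintype α] [LinearOrder (FreeGroup α)]
  {Λ : Type*} [DivisionRing Λ] [Algebra K Λ]
  {c : Λ →ₗ[K] (FreeGroup α → K)} {j : MonoidAlgebra K (FreeGroup α) →ₐ[K] Λ}

/-- The core of the bound. -/
theorem exists_kappa (h : IsMN K (FreeGroup α) Λ c j) (I : Submodule (GA K α) (GA K α)) (m : ℕ)
    (b : Module.Basis (Fin m) (GA K α) I) :
    ∃ κ : (α → Λ ⊗[K] (GA K α ⧸ I)) →ₗ[Λ] (Fin m → Λ), ∀ z,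
      IsFlow c (fun x => actQ I (FreeGroup.of x)) z →
      (∑ i, κ z i * j (b i : GA K α) = 0) ∧ (κ z = 0 → z = 0) := by
  classical
  set π : GA K α →ₗ[K] (GA K α ⧸ I) := I.mkQ.restrictScalars K with hπ
  have hπs : Function.Surjective π := I.mkQ_surjective
  obtain ⟨σ, hσ⟩ := LinearMap.exists_rightInverse_of_surjective π (LinearMap.range_eq_top.2 hπs)
  have hσ' : ∀ n, π (σ n) = n := fun n => LinearMap.congr_fun hσ n
  have hmem : ∀ a, a - σ (π a) ∈ I := by
    intro a
    have h1 : π (a - σ (π a)) = 0 := by rw [map_sub, hσ', sub_self]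
    exact (Submodule.Quotient.mk_eq_zero I).1 h1
  -- the coordinates of the projection to `I`
  set τ : Fin m → GA K α →ₗ[K] GA K α := fun i =>
    ((b.coord i).restrictScalars K) ∘ₗ (LinearMap.codRestrict (I.restrictScalars K)
      (LinearMap.id - σ ∘ₗ π) (fun a => hmem a)) with hτ
  have hτs : ∀ a, a - σ (π a) = ∑ i, τ i a * (b i : GA K α) := by
    intro a
    have h1 := b.sum_repr (⟨a - σ (π a), hmem a⟩ : I)
    have h2 := congrArg (fun u : I => (u : GA K α)) h1
    simp only [Submodule.coe_sum, Submodule.coe_smul, smul_eq_mul] at h2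
    rw [← h2]
    rfl
  have hdec : (LinearMap.id : GA K α →ₗ[K] GA K α) =
      σ ∘ₗ π + ∑ i, (LinearMap.mulRight K (b i : GA K α)) ∘ₗ τ i := by
    refine LinearMap.ext fun a => ?_
    have h1 := hτs a
    rw [LinearMap.id_apply, LinearMap.add_apply, LinearMap.comp_apply, LinearMap.sum_apply]
    simp only [LinearMap.comp_apply, LinearMap.mulRight_apply]
    rw [← h1]
    abel
  have hX : ∀ x (n : GA K α), π (XA K x n) = actQ I (FreeGroup.of x) (π n) := by
    intro x n
    rfl
  refine ⟨LinearMap.pi fun i => mu j ∘ₗ (τ i).baseChange Λ ∘ₗ dT j (XA K) ∘ₗ pf α Λ σ,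
    fun z hz => ?_⟩
  have hz0 : dT j (fun x => actQ I (FreeGroup.of x)) z = 0 := dT_eq_zero_of_isFlow h _ z hz
  set y := pf α Λ σ z with hy
  have hyz : pf α Λ π y = z := by
    rw [hy, pf_comp, hσ, pf_id]
  set w := dT j (XA K) y with hw
  have hπw : π.baseChange Λ w = 0 := by
    rw [hw, ← dT_pf (XA K) (fun x => actQ I (FreeGroup.of x)) π hX, hyz, hz0]
  have hwd : w = ∑ i, (LinearMap.mulRight K (b i : GA K α)).baseChange Λ
      ((τ i).baseChange Λ w) := by
    have h1 : w = (LinearMap.id : GA K α →ₗ[K] GA K α).baseChange Λ w := by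
      rw [LinearMap.baseChange_id, LinearMap.id_apply]
    rw [hdec, LinearMap.baseChange_add, LinearMap.add_apply, LinearMap.baseChange_comp,
      LinearMap.comp_apply, hπw, map_zero, zero_add, baseChange_sum] at h1
    rw [h1]
    refine Finset.sum_congr rfl fun i _ => ?_
    rw [← h1, LinearMap.baseChange_comp, LinearMap.comp_apply]
  have hκ : ∀ i, (LinearMap.pi fun i => mu j ∘ₗ (τ i).baseChange Λ ∘ₗ dT j (XA K) ∘ₗ
      pf α Λ σ) z i = mu j ((τ i).baseChange Λ w) := fun i => rfl
  constructor
  · simp only [hκ]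
    have h1 : mu j w = 0 := mu_dT y
    rw [hwd, map_sum] at h1
    simp only [mu_mulRight] at h1
    exact h1
  · intro h0
    have h1 : ∀ i, mu j ((τ i).baseChange Λ w) = 0 := by
      intro i
      rw [← hκ i, h0, Pi.zero_apply]
    choose v hv using fun i => range_dT _ (h1 i)
    have h2 : ∀ i (x : α) (n : GA K α), LinearMap.mulRight K (b i : GA K α) (XA K x n) =
        XA K x (LinearMap.mulRight K (b i : GA K α) n) := by
      intro i x n
      show (MonoidAlgebra.of K (FreeGroup α) (FreeGroup.of x) * n) * (b i : GA K α) =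
        MonoidAlgebra.of K (FreeGroup α) (FreeGroup.of x) * (n * (b i : GA K α))
      rw [mul_assoc]
    have h3 : dT j (XA K) (y - ∑ i, pf α Λ (LinearMap.mulRight K (b i : GA K α)) (v i)) = 0 := by
      rw [map_sub, map_sum, sub_eq_zero, ← hw]
      conv_lhs => rw [hwd]
      refine Finset.sum_congr rfl fun i _ => ?_
      rw [dT_pf (XA K) (XA K) _ (h2 i), hv i]
    have h4 := sub_eq_zero.1 (dT_inj _ h3)
    rw [← hyz, h4, map_sum]
    refine Finset.sum_eq_zero fun i _ => ?_
    rw [pf_comp]
    have h5 : π ∘ₗ LinearMap.mulRight K (b i : GA K α) = 0 := by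
      refine LinearMap.ext fun a => ?_
      show π (a * (b i : GA K α)) = 0
      exact (Submodule.Quotient.mk_eq_zero I).2 (I.smul_mem a (b i).2)
    rw [h5, pf_zero]

end final

end H3

variable {K : Type*} [Field K] {α : Type} [Fintype α] [LinearOrder (FreeGroup α)]
  {Λ : Type*} [DivisionRing Λ] [Algebra K Λ]
  {c : Λ →ₗ[K] (FreeGroup α → K)} {j : MonoidAlgebra K (FreeGroup α) →ₐ[K] Λ}

theorem card_flow_lt (h : IsMN K (FreeGroup α) Λ c j) (I : Submodule (GA K α) (GA K α)) (m : ℕ)
    (b : Module.Basis (Fin m) (GA K α) I) (hm : 0 < m) {s : ℕ}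
    (z : Fin s → α → Λ ⊗[K] (GA K α ⧸ I))
    (hz : ∀ k, IsFlow c (fun x => actQ I (FreeGroup.of x)) (z k)) (hli : LinearIndependent Λ z) :
    s + 1 ≤ m := by
  classical
  obtain ⟨κ, hκ⟩ := H3.exists_kappa h I m b
  -- the flows form a submodule
  set F : Submodule Λ (α → Λ ⊗[K] (GA K α ⧸ I)) :=
    LinearMap.ker (H3.dT j (fun x => actQ I (FreeGroup.of x))) with hF
  have hFlow : ∀ u ∈ F, IsFlow c (fun x => actQ I (FreeGroup.of x)) u := by
    intro u hu g
    have h1 : H3.dT j (fun x => actQ I (FreeGroup.of x)) u = 0 := hu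
    have h2 := congrArg (evT c g) h1
    rw [H3.dT_apply, map_sum, map_zero] at h2
    simp only [map_sub, H3.evT_RM h, H3.evT_baseChange] at h2
    rw [Finset.sum_sub_distrib] at h2
    exact sub_eq_zero.1 h2
  have hspan : Submodule.span Λ (Set.range z) ≤ F := by
    rw [Submodule.span_le]
    rintro _ ⟨k, rfl⟩
    exact H3.dT_eq_zero_of_isFlow h _ _ (hz k)
  have hdis : Disjoint (Submodule.span Λ (Set.range z)) (LinearMap.ker κ) := by
    rw [Submodule.disjoint_def]
    intro u hu hk
    exact (hκ u (hFlow u (hspan hu))).2 hk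
  have hli2 : LinearIndependent Λ (κ ∘ z) := hli.map hdis
  -- the linear form
  set ℓ : (Fin m → Λ) →ₗ[Λ] Λ := ∑ i, LinearMap.toSpanSingleton Λ Λ (j (b i : GA K α)) ∘ₗ
    LinearMap.proj i with hℓ
  have hℓa : ∀ v, ℓ v = ∑ i, v i * j (b i : GA K α) := by
    intro v
    simp only [hℓ, LinearMap.sum_apply, LinearMap.comp_apply, LinearMap.proj_apply,
      LinearMap.toSpanSingleton_apply, smul_eq_mul]
  have hker : ∀ k, (κ ∘ z) k ∈ LinearMap.ker ℓ := by
    intro k
    rw [LinearMap.mem_ker, hℓa]
    exact (hκ (z k) (hz k)).1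
  have hli3 : LinearIndependent Λ (fun k => (⟨(κ ∘ z) k, hker k⟩ : LinearMap.ker ℓ)) := by
    apply LinearIndependent.of_comp (LinearMap.ker ℓ).subtype
    exact hli2
  have h1 := hli3.fintype_card_le_finrank
  rw [Fintype.card_fin] at h1
  have h2 := LinearMap.finrank_range_add_finrank_ker ℓ
  rw [Module.finrank_fin_fun] at h2
  have h3 : LinearMap.range ℓ ≠ ⊥ := by
    intro h4
    have h5 : ℓ (Pi.single ⟨0, hm⟩ 1) = 0 := by
      have h6 : ℓ (Pi.single ⟨0, hm⟩ 1) ∈ LinearMap.range ℓ := ⟨_, rfl⟩
      rw [h4] at h6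
      exact (Submodule.mem_bot Λ).1 h6
    rw [hℓa, Finset.sum_eq_single ⟨0, hm⟩, Pi.single_eq_same, one_mul] at h5
    · have h7 : (b ⟨0, hm⟩ : GA K α) = 0 := by
        refine MonoidAlgebra.ext (Finsupp.ext fun g => ?_)
        rw [← h.coe, h5, map_zero, Pi.zero_apply, MonoidAlgebra.coeff_zero, Finsupp.zero_apply]
      exact b.ne_zero ⟨0, hm⟩ (Subtype.ext h7)
    · intro i _ hi
      rw [Pi.single_eq_of_ne hi, zero_mul]
    · intro h8
      exact absurd (Finset.mem_univ _) h8
  have h4 : 0 < Module.finrank Λ (LinearMap.range ℓ) := by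
    rw [Nat.pos_iff_ne_zero]
    intro h5
    exact h3 (Submodule.finrank_eq_zero.1 h5)
  omega

end PrimRank
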