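import Pool.Agent.Lib.MP_b8b21d_al.HN.H1
import Pool.Agent.Lib.MP_b8b21d_al.HN.H3

/-!
The spaces of leading coefficients have total dimension at most `m - 1`.

PROOF. Suppose that for each `x` we have a finite linearly independent family in `LL c _ x`, with `n x`
members; choose the corresponding flows; together they are a family of `s = ∑ n x` flows which satisfies the
hypotheses of `linearIndependent_of_lead`, so `s + 1 ≤ m` by `card_flow_lt`. Hence every `LL c _ x` is finite
dimensional (an infinite dimensional space has independent families of all sizes) and with bases of all of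
them `∑ finrank + 1 ≤ m`. (Index the family by `Σ x, Fin (n x)` and transport to `Fin s` by `finSigmaFinEquiv`
or `Fintype.equivFin`.)
-/

namespace PrimRank

open scoped TensorProduct

variable {K : Type*} [Field K] {α : Type} [Fintype α] [LinearOrder α] [LinearOrder (FreeGroup α)]
  {Λ : Type*} [DivisionRing Λ] [Algebra K Λ]
  {c : Λ →ₗ[K] (FreeGroup α → K)} {j : MonoidAlgebra K (FreeGroup α) →ₐ[K] Λ}

private theorem h4_aux {ι : Type*} {n : α → ℕ} {N : Type*} (d : ∀ x, Fin (n x) → N)
    (e : ι → Σ x, Fin (n x)) (he : Function.Injective e) (x₀ : α) :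
    ∃ f : {k : ι // (e k).1 = x₀} → Fin (n x₀), Function.Injective f ∧
      ∀ k, d x₀ (f k) = d (e k.1).1 (e k.1).2 := by
  refine ⟨fun k => k.2 ▸ (e k.1).2, ?_, ?_⟩
  · rintro ⟨k, hk⟩ ⟨k', hk'⟩ h
    apply Subtype.ext
    apply he
    change e k = e k'
    change (hk ▸ (e k).2 : Fin (n x₀)) = (hk' ▸ (e k').2 : Fin (n x₀)) at h
    revert hk hk' h
    generalize e k = p
    generalize e k' = p'
    obtain ⟨x, i⟩ := p
    obtain ⟨x', i'⟩ := p'
    intro hk hk' h
    change x = x₀ at hk
    change x' = x₀ at hk'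
    subst hk
    subst hk'
    exact congrArg _ h
  · rintro ⟨k, hk⟩
    change d x₀ (hk ▸ (e k).2 : Fin (n x₀)) = d (e k).1 (e k).2
    revert hk
    generalize e k = p
    obtain ⟨x, i⟩ := p
    intro hk
    change x = x₀ at hk
    subst hk
    rfl

private theorem h4_key (h : IsMN K (FreeGroup α) Λ c j) (I : Submodule (GA K α) (GA K α)) (m : ℕ)
    (b : Module.Basis (Fin m) (GA K α) I) (hm : 0 < m) (n : α → ℕ)
    (hn : ∀ x, (n x : Cardinal) ≤
      Module.rank K (LL c (fun x => actQ I (FreeGroup.of x)) x)) :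
    ∑ x, n x + 1 ≤ m := by
  classical
  have h1 : ∀ x, ∃ d : Fin (n x) → LL c (fun x => actQ I (FreeGroup.of x)) x,
      LinearIndependent K d := by
    intro x
    obtain ⟨s, hs, hli⟩ := le_rank_iff_exists_linearIndependent_finset.1 (hn x)
    let e : Fin (n x) ≃ s := (Fintype.equivFinOfCardEq (by simp [hs])).symm
    exact ⟨_, hli.comp e e.injective⟩
  choose d hd using h1
  have h2 : ∀ x i, ∃ z : α → Λ ⊗[K] (GA K α ⧸ I),
      IsFlow c (fun x => actQ I (FreeGroup.of x)) z ∧
      (∀ g y, Bef g y x → evT c g (z y) = 0) ∧ evT c 1 (z x) = d x i := fun x i => (d x i).2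
  choose z hz1 hz2 hz3 using h2
  have hcard : Fintype.card (Σ x, Fin (n x)) = ∑ x, n x := by
    rw [Fintype.card_sigma]
    simp
  let e : Fin (∑ x, n x) ≃ Σ x, Fin (n x) := (Fintype.equivFinOfCardEq hcard).symm
  refine card_flow_lt h I m b hm (fun k => z (e k).1 (e k).2) (fun k => hz1 _ _) ?_
  refine linearIndependent_of_lead h _ (fun k => (e k).1) (fun k g y hy => hz2 _ _ g y hy)
    (fun x₀ => ?_)
  obtain ⟨f, hf, hf'⟩ := h4_aux (fun x i => ((d x i : GA K α ⧸ I))) e e.injective x₀
  have h3 : LinearIndependent K (fun i => (d x₀ i : GA K α ⧸ I)) :=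
    (hd x₀).map' (Submodule.subtype _) (Submodule.ker_subtype _)
  have h4 : (fun k : {k : Fin (∑ x, n x) // (e k).1 = x₀} =>
      evT c 1 (z (e k.1).1 (e k.1).2 x₀)) = (fun i => (d x₀ i : GA K α ⧸ I)) ∘ f := by
    funext k
    rw [Function.comp_apply, hf' k, ← hz3]
    exact congrArg (fun t => evT c 1 (z (e k.1).1 (e k.1).2 t)) k.2.symm
  rw [h4]
  exact h3.comp f hf

theorem sum_finrank_LL (h : IsMN K (FreeGroup α) Λ c j) (I : Submodule (GA K α) (GA K α)) (m : ℕ)
    (b : Module.Basis (Fin m) (GA K α) I) (hm : 0 < m) :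
    (∀ x, FiniteDimensional K (LL c (fun x => actQ I (FreeGroup.of x)) x)) ∧
      ∑ x, Module.finrank K (LL c (fun x => actQ I (FreeGroup.of x)) x) + 1 ≤ m := by
  classical
  have hfin : ∀ x, FiniteDimensional K (LL c (fun x => actQ I (FreeGroup.of x)) x) := by
    intro x₀
    by_contra hcon
    have h1 : Cardinal.aleph0 ≤ Module.rank K (LL c (fun x => actQ I (FreeGroup.of x)) x₀) := by
      rw [← not_lt]
      intro h2
      exact hcon (Module.rank_lt_aleph0_iff.1 h2)
    have h2 := h4_key h I m b hm (fun x => if x = x₀ then m else 0) (fun x => by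
      by_cases hx : x = x₀
      · subst hx
        rw [if_pos rfl]
        exact (Cardinal.natCast_lt_aleph0.le).trans h1
      · rw [if_neg hx]
        simp)
    rw [Finset.sum_ite_eq' Finset.univ x₀ (fun _ => m)] at h2
    simp at h2
  refine ⟨hfin, h4_key h I m b hm _ fun x => ?_⟩
  have := hfin x
  rw [Module.finrank_eq_rank]

end PrimRank
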