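import Pool.Agent.Lib.MP_b8b21d_al.HN.H0

/-!
Contraction of flows with values in a tensor product.

PROOF of `contract_right`. Let `c'(e, g) : N₁` be `(1 ⊗ (f ∘ ρ₂ (g x⁻¹...)))`; precisely: let `x = l e` and let
`F g : N₂ →ₗ K` be `f ∘ ρ₂ (of x₀)⁻¹ ∘ ρ₂ (g)`. Define the flow `z'` by (values)
`evT c g (z' x) = ∑_{e : l e = x} c (z e) g • C (F (g * of x)) (δ e)`, where `C F : N₁ ⊗ N₂ → N₁` is contraction
with `F` (`TensorProduct.rid` after `LinearMap.lTensor`). It is an element of `Λ ⊗ N₁`: write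
`δ e = ∑ᵢ aᵢ ⊗ bᵢ` (finite), then `z' x = ∑_e ∑ᵢ (series with coefficients c (z e) g * F (g * of x) (bᵢ)) ⊗ aᵢ`,
where the series exists by `h.surj`, its support being contained in that of `c (z e)` (`h.pwo`, mono).
FLOW EQUATION at `g`: `∑_x evT c (g x⁻¹) (z' x) = ∑_e c (z e) (g (l e)⁻¹) • C (F g) (δ e)
= C (F g) (∑_e c (z e) (g (l e)⁻¹) • δ e) = C (F g) (∑_e c (z e) g • (ρ₁ x ⊗ ρ₂ x) (δ e))`, and
`C (F g) ((ρ₁ x ⊗ ρ₂ x) d) = ρ₁ x (C (F g ∘ ρ₂ x) d) = ρ₁ x (C (F (g x)) d)`, so this is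
`∑_x ρ₁ x (evT c g (z' x))`. LEADING TERM: `z'` vanishes at the edges before `(1, x₀)`, and
`evT c 1 (z' x₀) = ∑_{e : l e = x₀} c (z e) 1 • C (F (of x₀)) (δ e)` with `F (of x₀) = f`. The left version
(`contract_left`) is the same with the two factors exchanged.
-/

namespace PrimRank

open scoped TensorProduct

variable {K : Type*} [Field K] {α : Type} [Fintype α] [LinearOrder α] [LinearOrder (FreeGroup α)]
  {Λ : Type*} [DivisionRing Λ] [Algebra K Λ]
  {c : Λ →ₗ[K] (FreeGroup α → K)} {j : MonoidAlgebra K (FreeGroup α) →ₐ[K] Λ}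
  {N₁ N₂ : Type*} [AddCommGroup N₁] [Module K N₁] [AddCommGroup N₂] [Module K N₂]

/-- The general contraction lemma. -/
private theorem H5_gen {M N : Type*} [AddCommGroup M] [Module K M] [AddCommGroup N] [Module K N]
    (CF : FreeGroup α → M →ₗ[K] N) (T : α → M →ₗ[K] M) (X : α → N →ₗ[K] N)
    (hC : ∀ (s : Λ) (d : M) (x : α), ∃ y : Λ ⊗[K] N, ∀ g,
      evT c g y = c s g • CF (g * FreeGroup.of x) d)
    (hT : ∀ g x d, CF g (T x d) = X x (CF (g * FreeGroup.of x) d))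
    {E : Type} [Fintype E] (l : E → α) (δ : E → M) (z : E → Λ) (x₀ : α)
    (hflow : ∀ g : FreeGroup α, ∑ e, c (z e) (g * (FreeGroup.of (l e))⁻¹) • δ e =
      ∑ e, c (z e) g • T (l e) (δ e))
    (hb : ∀ e g, Bef g (l e) x₀ → c (z e) g = 0) :
    CF (FreeGroup.of x₀) (∑ e, if l e = x₀ then c (z e) 1 • δ e else 0) ∈ LL c X x₀ := by
  choose y hy using fun e : E => hC (z e) (δ e) (l e)
  have hev : ∀ g x, evT c g (∑ e, if l e = x then y e else 0) =
      ∑ e, if l e = x then c (z e) g • CF (g * FreeGroup.of (l e)) (δ e) else 0 := by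
    intro g x
    rw [map_sum]
    refine Finset.sum_congr rfl fun e _ => ?_
    split_ifs with hx
    · exact hy e g
    · exact map_zero _
  refine ⟨fun x => ∑ e, if l e = x then y e else 0, ?_, ?_, ?_⟩
  · intro g
    have hL : ∑ x, evT c (g * (FreeGroup.of x)⁻¹) (∑ e, if l e = x then y e else 0) =
        CF g (∑ e, c (z e) (g * (FreeGroup.of (l e))⁻¹) • δ e) := by
      rw [map_sum, Finset.sum_congr rfl fun x _ => hev (g * (FreeGroup.of x)⁻¹) x,
        Finset.sum_comm]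
      refine Finset.sum_congr rfl fun e _ => ?_
      rw [Finset.sum_eq_single (l e)]
      · rw [if_pos rfl, inv_mul_cancel_right, map_smul]
      · intro x _ hx
        rw [if_neg (Ne.symm hx)]
      · intro h; exact absurd (Finset.mem_univ _) h
    have hR : ∑ x, X x (evT c g (∑ e, if l e = x then y e else 0)) =
        CF g (∑ e, c (z e) g • T (l e) (δ e)) := by
      rw [map_sum]
      have h1 : ∀ x, X x (evT c g (∑ e, if l e = x then y e else 0)) =
          ∑ e, if l e = x then CF g (c (z e) g • T (l e) (δ e)) else 0 := by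
        intro x
        rw [hev g x, map_sum]
        refine Finset.sum_congr rfl fun e _ => ?_
        split_ifs with hx
        · subst hx
          rw [map_smul, map_smul, hT]
        · exact map_zero _
      rw [Finset.sum_congr rfl fun x _ => h1 x, Finset.sum_comm]
      refine Finset.sum_congr rfl fun e _ => ?_
      rw [Finset.sum_eq_single (l e)]
      · rw [if_pos rfl]
      · intro x _ hx
        rw [if_neg (Ne.symm hx)]
      · intro h; exact absurd (Finset.mem_univ _) h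
    show ∑ x, evT c (g * (FreeGroup.of x)⁻¹) (∑ e, if l e = x then y e else 0) =
      ∑ x, X x (evT c g (∑ e, if l e = x then y e else 0))
    rw [hL, hR, hflow g]
  · intro g x hx
    show evT c g (∑ e, if l e = x then y e else 0) = 0
    rw [hev g x]
    refine Finset.sum_eq_zero fun e _ => ?_
    split_ifs with he
    · rw [hb e g (by rw [he]; exact hx), zero_smul]
    · rfl
  · show evT c 1 (∑ e, if l e = x₀ then y e else 0) = _
    rw [hev 1 x₀, map_sum]
    refine Finset.sum_congr rfl fun e _ => ?_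
    split_ifs with he
    · rw [map_smul, one_mul, he]
    · exact (map_zero _).symm

private theorem H5_right (h : IsMN K (FreeGroup α) Λ c j) (F : FreeGroup α → N₂ →ₗ[K] K)
    (s : Λ) (d : N₁ ⊗[K] N₂) :
    ∃ y : Λ ⊗[K] N₁, ∀ g, evT c g y = c s g • ((TensorProduct.rid K N₁).toLinearMap ∘ₗ
      LinearMap.lTensor N₁ (F g)) d := by
  induction d using TensorProduct.induction_on with
  | zero => exact ⟨0, fun g => by rw [map_zero, map_zero, smul_zero]⟩
  | tmul a b =>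
    obtain ⟨t, ht⟩ := h.surj (fun g => c s g * F g b) ((h.pwo s).mono (by
      intro g hg hs
      apply hg
      show c s g * F g b = 0
      rw [hs, zero_mul]))
    refine ⟨t ⊗ₜ[K] a, fun g => ?_⟩
    rw [evT_tmul, ht]
    show (c s g * F g b) • a = c s g • TensorProduct.rid K N₁ (a ⊗ₜ[K] F g b)
    rw [TensorProduct.rid_tmul, smul_smul]
  | add a b ha hb =>
    obtain ⟨y, hy⟩ := ha
    obtain ⟨y', hy'⟩ := hb
    exact ⟨y + y', fun g => by rw [map_add, map_add, hy, hy', smul_add]⟩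

private theorem H5_left (h : IsMN K (FreeGroup α) Λ c j) (F : FreeGroup α → N₁ →ₗ[K] K)
    (s : Λ) (d : N₁ ⊗[K] N₂) :
    ∃ y : Λ ⊗[K] N₂, ∀ g, evT c g y = c s g • ((TensorProduct.lid K N₂).toLinearMap ∘ₗ
      LinearMap.rTensor N₂ (F g)) d := by
  induction d using TensorProduct.induction_on with
  | zero => exact ⟨0, fun g => by rw [map_zero, map_zero, smul_zero]⟩
  | tmul a b =>
    obtain ⟨t, ht⟩ := h.surj (fun g => c s g * F g a) ((h.pwo s).mono (by
      intro g hg hs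
      apply hg
      show c s g * F g a = 0
      rw [hs, zero_mul]))
    refine ⟨t ⊗ₜ[K] b, fun g => ?_⟩
    rw [evT_tmul, ht]
    show (c s g * F g a) • b = c s g • TensorProduct.lid K N₂ (F g a ⊗ₜ[K] b)
    rw [TensorProduct.lid_tmul, smul_smul]
  | add a b ha hb =>
    obtain ⟨y, hy⟩ := ha
    obtain ⟨y', hy'⟩ := hb
    exact ⟨y + y', fun g => by rw [map_add, map_add, hy, hy', smul_add]⟩

theorem contract_right (h : IsMN K (FreeGroup α) Λ c j) (ρ₁ : FreeGroup α →* Module.End K N₁)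
    (ρ₂ : FreeGroup α →* Module.End K N₂) {E : Type} [Fintype E] (l : E → α)
    (δ : E → N₁ ⊗[K] N₂) (z : E → Λ) (x₀ : α)
    (hflow : ∀ g : FreeGroup α, ∑ e, c (z e) (g * (FreeGroup.of (l e))⁻¹) • δ e =
      ∑ e, c (z e) g • TensorProduct.map (ρ₁ (FreeGroup.of (l e))) (ρ₂ (FreeGroup.of (l e))) (δ e))
    (hb : ∀ e g, Bef g (l e) x₀ → c (z e) g = 0) (f : N₂ →ₗ[K] K) :
    TensorProduct.rid K N₁ (LinearMap.lTensor N₁ f
      (∑ e, if l e = x₀ then c (z e) 1 • δ e else 0)) ∈ LL c (fun x => ρ₁ (FreeGroup.of x)) x₀ := by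
  have hmul : ∀ g x, (ρ₂ ((FreeGroup.of x₀)⁻¹ * g)) ∘ₗ (ρ₂ (FreeGroup.of x)) =
      ρ₂ ((FreeGroup.of x₀)⁻¹ * (g * FreeGroup.of x)) := by
    intro g x
    rw [← mul_assoc, map_mul ρ₂ _ (FreeGroup.of x)]
    rfl
  have key := H5_gen (c := c) (fun g => (TensorProduct.rid K N₁).toLinearMap ∘ₗ
      LinearMap.lTensor N₁ (f ∘ₗ ρ₂ ((FreeGroup.of x₀)⁻¹ * g)))
    (fun x => TensorProduct.map (ρ₁ (FreeGroup.of x)) (ρ₂ (FreeGroup.of x)))
    (fun x => ρ₁ (FreeGroup.of x))
    (fun s d x => H5_right h (fun g => f ∘ₗ ρ₂ ((FreeGroup.of x₀)⁻¹ * (g * FreeGroup.of x))) s d)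
    (by
      intro g x d
      induction d using TensorProduct.induction_on with
      | zero => simp only [map_zero]
      | tmul a b =>
        show TensorProduct.rid K N₁ ((ρ₁ (FreeGroup.of x) a) ⊗ₜ[K]
            f (((ρ₂ ((FreeGroup.of x₀)⁻¹ * g)) ∘ₗ (ρ₂ (FreeGroup.of x))) b)) =
          ρ₁ (FreeGroup.of x) (TensorProduct.rid K N₁ (a ⊗ₜ[K]
            f (ρ₂ ((FreeGroup.of x₀)⁻¹ * (g * FreeGroup.of x)) b)))
        rw [hmul, TensorProduct.rid_tmul, TensorProduct.rid_tmul, map_smul]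
      | add a b ha hb => rw [map_add, map_add, ha, hb, map_add, map_add])
    l δ z x₀ hflow hb
  have h1 : f ∘ₗ ρ₂ ((FreeGroup.of x₀)⁻¹ * FreeGroup.of x₀) = f := by
    rw [inv_mul_cancel, map_one]
    rfl
  simp only [h1] at key
  exact key

theorem contract_left (h : IsMN K (FreeGroup α) Λ c j) (ρ₁ : FreeGroup α →* Module.End K N₁)
    (ρ₂ : FreeGroup α →* Module.End K N₂) {E : Type} [Fintype E] (l : E → α)
    (δ : E → N₁ ⊗[K] N₂) (z : E → Λ) (x₀ : α)
    (hflow : ∀ g : FreeGroup α, ∑ e, c (z e) (g * (FreeGroup.of (l e))⁻¹) • δ e =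
      ∑ e, c (z e) g • TensorProduct.map (ρ₁ (FreeGroup.of (l e))) (ρ₂ (FreeGroup.of (l e))) (δ e))
    (hb : ∀ e g, Bef g (l e) x₀ → c (z e) g = 0) (f : N₁ →ₗ[K] K) :
    TensorProduct.lid K N₂ (LinearMap.rTensor N₂ f
      (∑ e, if l e = x₀ then c (z e) 1 • δ e else 0)) ∈ LL c (fun x => ρ₂ (FreeGroup.of x)) x₀ := by
  have hmul : ∀ g x, (ρ₁ ((FreeGroup.of x₀)⁻¹ * g)) ∘ₗ (ρ₁ (FreeGroup.of x)) =
      ρ₁ ((FreeGroup.of x₀)⁻¹ * (g * FreeGroup.of x)) := by
    intro g x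
    rw [← mul_assoc, map_mul ρ₁ _ (FreeGroup.of x)]
    rfl
  have key := H5_gen (c := c) (fun g => (TensorProduct.lid K N₂).toLinearMap ∘ₗ
      LinearMap.rTensor N₂ (f ∘ₗ ρ₁ ((FreeGroup.of x₀)⁻¹ * g)))
    (fun x => TensorProduct.map (ρ₁ (FreeGroup.of x)) (ρ₂ (FreeGroup.of x)))
    (fun x => ρ₂ (FreeGroup.of x))
    (fun s d x => H5_left h (fun g => f ∘ₗ ρ₁ ((FreeGroup.of x₀)⁻¹ * (g * FreeGroup.of x))) s d)
    (by
      intro g x d
      induction d using TensorProduct.induction_on with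
      | zero => simp only [map_zero]
      | tmul a b =>
        show TensorProduct.lid K N₂ (f (((ρ₁ ((FreeGroup.of x₀)⁻¹ * g)) ∘ₗ
            (ρ₁ (FreeGroup.of x))) a) ⊗ₜ[K] (ρ₂ (FreeGroup.of x) b)) =
          ρ₂ (FreeGroup.of x) (TensorProduct.lid K N₂
            (f (ρ₁ ((FreeGroup.of x₀)⁻¹ * (g * FreeGroup.of x)) a) ⊗ₜ[K] b))
        rw [hmul, TensorProduct.lid_tmul, TensorProduct.lid_tmul, map_smul]
      | add a b ha hb => rw [map_add, map_add, ha, hb, map_add, map_add])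
    l δ z x₀ hflow hb
  have h1 : f ∘ₗ ρ₁ ((FreeGroup.of x₀)⁻¹ * FreeGroup.of x₀) = f := by
    rw [inv_mul_cancel, map_one]
    rfl
  simp only [h1] at key
  exact key

end PrimRank
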