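import Mathlib

/-!
Linear algebra: tensors all of whose contractions lie in given subspaces.

PROOF. Choose complements: linear projections `p₁ : N₁ → L₁` and `p₂ : N₂ → L₂` onto the subspaces. For a tensor
`t` with all right contractions in `L₁`: `(p₁ ⊗ 1) t = t` (as an element of `N₁ ⊗ N₂`, with `p₁` viewed as an
endomorphism): test with all `1 ⊗ f` (the maps `1 ⊗ f`, `f : N₂ → K`, separate the points of `N₁ ⊗ N₂`: write
the tensor with a basis of `N₂`). Similarly `(1 ⊗ p₂) t = t`. So `t` is in the image of `L₁ ⊗ L₂ → N₁ ⊗ N₂`,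
which has dimension at most `finrank L₁ * finrank L₂`, and the number of independent vectors in it is bounded
by its dimension.
-/

namespace PrimRank

open scoped TensorProduct

private theorem H5b_sepR {K : Type*} [Field K] {N₁ N₂ : Type*} [AddCommGroup N₁] [Module K N₁]
    [AddCommGroup N₂] [Module K N₂] {x : N₁ ⊗[K] N₂}
    (h : ∀ f : N₂ →ₗ[K] K, TensorProduct.rid K N₁ (LinearMap.lTensor N₁ f x) = 0) : x = 0 := by
  classical
  let b := Module.Free.chooseBasis K N₂
  apply (TensorProduct.equivFinsuppOfBasisRight b : N₁ ⊗[K] N₂ ≃ₗ[K] _).injective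
  rw [map_zero]
  ext k
  have h1 : ∀ y : N₁ ⊗[K] N₂, TensorProduct.equivFinsuppOfBasisRight b y k =
      TensorProduct.rid K N₁ (LinearMap.lTensor N₁ (b.coord k) y) := by
    intro y
    induction y using TensorProduct.induction_on with
    | zero => simp
    | tmul u v => simp
    | add y z hy hz => rw [map_add, Finsupp.add_apply, hy, hz, map_add, map_add]
  rw [h1, h]
  rfl

private theorem H5b_sepL {K : Type*} [Field K] {N₁ N₂ : Type*} [AddCommGroup N₁] [Module K N₁]
    [AddCommGroup N₂] [Module K N₂] {x : N₁ ⊗[K] N₂}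
    (h : ∀ f : N₁ →ₗ[K] K, TensorProduct.lid K N₂ (LinearMap.rTensor N₂ f x) = 0) : x = 0 := by
  classical
  let b := Module.Free.chooseBasis K N₁
  apply (TensorProduct.equivFinsuppOfBasisLeft b : N₁ ⊗[K] N₂ ≃ₗ[K] _).injective
  rw [map_zero]
  ext k
  have h1 : ∀ y : N₁ ⊗[K] N₂, TensorProduct.equivFinsuppOfBasisLeft b y k =
      TensorProduct.lid K N₂ (LinearMap.rTensor N₂ (b.coord k) y) := by
    intro y
    induction y using TensorProduct.induction_on with
    | zero => simp
    | tmul u v => simp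
    | add y z hy hz => rw [map_add, Finsupp.add_apply, hy, hz, map_add, map_add]
  rw [h1, h]
  rfl

private theorem H5b_projR {K : Type*} [Field K] {N₁ N₂ : Type*} [AddCommGroup N₁] [Module K N₁]
    [AddCommGroup N₂] [Module K N₂] (P : N₁ →ₗ[K] N₁) (x : N₁ ⊗[K] N₂) (f : N₂ →ₗ[K] K) :
    TensorProduct.rid K N₁ (LinearMap.lTensor N₁ f (LinearMap.rTensor N₂ P x)) =
      P (TensorProduct.rid K N₁ (LinearMap.lTensor N₁ f x)) := by
  induction x using TensorProduct.induction_on with
  | zero => simp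
  | tmul u v => simp
  | add y z hy hz => simp only [map_add, hy, hz]

private theorem H5b_projL {K : Type*} [Field K] {N₁ N₂ : Type*} [AddCommGroup N₁] [Module K N₁]
    [AddCommGroup N₂] [Module K N₂] (P : N₂ →ₗ[K] N₂) (x : N₁ ⊗[K] N₂) (f : N₁ →ₗ[K] K) :
    TensorProduct.lid K N₂ (LinearMap.rTensor N₂ f (LinearMap.lTensor N₁ P x)) =
      P (TensorProduct.lid K N₂ (LinearMap.rTensor N₂ f x)) := by
  induction x using TensorProduct.induction_on with
  | zero => simp
  | tmul u v => simp
  | add y z hy hz => simp only [map_add, hy, hz]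

theorem card_le_mul {K : Type*} [Field K] {N₁ N₂ : Type*} [AddCommGroup N₁] [Module K N₁]
    [AddCommGroup N₂] [Module K N₂] (L₁ : Submodule K N₁) (L₂ : Submodule K N₂)
    [FiniteDimensional K L₁] [FiniteDimensional K L₂] {ι : Type} [Fintype ι]
    (t : ι → N₁ ⊗[K] N₂) (ht : LinearIndependent K t)
    (h1 : ∀ i, ∀ f : N₂ →ₗ[K] K, TensorProduct.rid K N₁ (LinearMap.lTensor N₁ f (t i)) ∈ L₁)
    (h2 : ∀ i, ∀ f : N₁ →ₗ[K] K, TensorProduct.lid K N₂ (LinearMap.rTensor N₂ f (t i)) ∈ L₂) :
    Fintype.card ι ≤ Module.finrank K L₁ * Module.finrank K L₂ := by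
  obtain ⟨q₁, hq₁⟩ := L₁.subtype.exists_leftInverse_of_injective L₁.ker_subtype
  obtain ⟨q₂, hq₂⟩ := L₂.subtype.exists_leftInverse_of_injective L₂.ker_subtype
  have hp₁ : ∀ x ∈ L₁, (L₁.subtype ∘ₗ q₁) x = x := by
    intro x hx
    have h3 := LinearMap.congr_fun hq₁ ⟨x, hx⟩
    exact congrArg Subtype.val h3
  have hp₂ : ∀ x ∈ L₂, (L₂.subtype ∘ₗ q₂) x = x := by
    intro x hx
    have h3 := LinearMap.congr_fun hq₂ ⟨x, hx⟩
    exact congrArg Subtype.val h3
  have ht1 : ∀ i, LinearMap.rTensor N₂ (L₁.subtype ∘ₗ q₁) (t i) = t i := by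
    intro i
    rw [← sub_eq_zero]
    refine H5b_sepR fun f => ?_
    rw [map_sub, map_sub, H5b_projR, hp₁ _ (h1 i f), sub_self]
  have ht2 : ∀ i, LinearMap.lTensor N₁ (L₂.subtype ∘ₗ q₂) (t i) = t i := by
    intro i
    rw [← sub_eq_zero]
    refine H5b_sepL fun f => ?_
    rw [map_sub, map_sub, H5b_projL, hp₂ _ (h2 i f), sub_self]
  have hs : (fun i => TensorProduct.map L₁.subtype L₂.subtype
      (TensorProduct.map q₁ q₂ (t i))) = t := by
    funext i
    have h3 : TensorProduct.map L₁.subtype L₂.subtype (TensorProduct.map q₁ q₂ (t i)) =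
        LinearMap.rTensor N₂ (L₁.subtype ∘ₗ q₁)
          (LinearMap.lTensor N₁ (L₂.subtype ∘ₗ q₂) (t i)) := by
      generalize t i = x
      induction x using TensorProduct.induction_on with
      | zero => simp
      | tmul u v => simp
      | add y z hy hz => simp only [map_add, hy, hz]
    rw [h3, ht2, ht1]
  have hli : LinearIndependent K (fun i => TensorProduct.map q₁ q₂ (t i)) := by
    refine LinearIndependent.of_comp (TensorProduct.map L₁.subtype L₂.subtype) ?_
    have h4 : (TensorProduct.map L₁.subtype L₂.subtype ∘ fun i => TensorProduct.map q₁ q₂ (t i)) =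
        t := hs
    rw [h4]
    exact ht
  have h5 := hli.fintype_card_le_finrank
  rwa [Module.finrank_tensorProduct] at h5

end PrimRank
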