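import Pool.Agent.Lib.MP_b8b21d_al.HN.H2

/-!
Existence of many flows supported on a finite structure.

PROOF. Let `E = Σ x, Fin (finrank (D x))` (all `D x ≤ W` are finite dimensional), `l = Sigma.fst`, `δ` given by
bases of the `D x`, `w` a basis of `W` with `k = finrank W` elements. `δ e ∈ W`, `ρ (l e) (δ e) ∈ W`. Consider the
`Λ`-linear map `B : (E → Λ) → (Fin k → Λ)`,
`B z i = ∑_e (z e * j (of (l e)) * (coordinate i of δ e) - z e * (coordinate i of ρ (l e) (δ e)))` (coordinates in
`K`, through `algebraMap`, or `•`). It is left `Λ`-linear. Its kernel `Z` has `finrank Z ≥ card E - k ≥ n`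
(rank-nullity, `finrank (E → Λ) = card E`). Apply `exists_lead`. For `z ∈ Z` and `g` take the coefficient at `g` of
`B z i = 0`: by `h.right`, `∑_e c (z e) (g * (of (l e))⁻¹) * coord - c (z e) g * coord' = 0` for all `i`, i.e. the
flow equation. The independence: `∑_{i} a_i ∑_{e : l e = x₀} c (z i e) 1 • δ e = 0` gives, as the `δ e` with
`l e = x₀` are independent, `∑ a_i c (z i e) 1 = 0` for all these `e`; use the last part of `exists_lead`.
-/

namespace PrimRank

variable {K : Type*} [Field K] {α : Type} [Fintype α] [LinearOrder α] [LinearOrder (FreeGroup α)]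
  [MulLeftStrictMono (FreeGroup α)] [MulRightStrictMono (FreeGroup α)]
  {Λ : Type*} [DivisionRing Λ] [Algebra K Λ]
  {c : Λ →ₗ[K] (FreeGroup α → K)} {j : MonoidAlgebra K (FreeGroup α) →ₐ[K] Λ}

/-- The part of `E` over `x₀` is mapped to the index set of the basis of `D x₀`. -/
private theorem h6a_indep {X : Type*} [AddCommGroup X] [Module K X] (D : α → Submodule K X)
    [∀ x, FiniteDimensional K (D x)] (x₀ : α) :
    LinearIndependent K (fun e : {e : (Σ x, Fin (Module.finrank K (D x))) // e.1 = x₀} =>
      ((Module.finBasis K (D e.1.1)) e.1.2 : X)) := by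
  have h1 : LinearIndependent K (fun b => ((Module.finBasis K (D x₀)) b : X)) :=
    (Module.finBasis K (D x₀)).linearIndependent.map' (D x₀).subtype (Submodule.ker_subtype _)
  let f : {e : (Σ x, Fin (Module.finrank K (D x))) // e.1 = x₀} → Fin (Module.finrank K (D x₀)) :=
    fun e => e.2 ▸ e.1.2
  have hf : Function.Injective f := by
    rintro ⟨⟨a, b⟩, ha⟩ ⟨⟨a', b'⟩, ha'⟩ hff
    dsimp only at ha ha'
    subst ha
    subst ha'
    have : b = b' := hff
    subst this
    rfl
  have h2 := h1.comp f hf
  have h3 : (fun e : {e : (Σ x, Fin (Module.finrank K (D x))) // e.1 = x₀} =>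
      ((Module.finBasis K (D e.1.1)) e.1.2 : X)) =
      (fun b => ((Module.finBasis K (D x₀)) b : X)) ∘ f := by
    funext e
    obtain ⟨⟨a, b⟩, ha⟩ := e
    dsimp only at ha
    subst ha
    rfl
  rw [h3]
  exact h2

theorem exists_flow_family (h : IsMN K (FreeGroup α) Λ c j) {X : Type*} [AddCommGroup X]
    [Module K X] (ρ : α → X →ₗ[K] X) (W : Submodule K X) [FiniteDimensional K W]
    (D : α → Submodule K X) (hD : ∀ x, D x ≤ W) (hDρ : ∀ x, (D x).map (ρ x) ≤ W) (n : ℕ)
    (hn : n + Module.finrank K W ≤ ∑ x, Module.finrank K (D x)) :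
    ∃ (E : Type) (_ : Fintype E) (l : E → α) (δ : E → X) (z : Fin n → E → Λ) (x : Fin n → α),
      (∀ i (g : FreeGroup α), ∑ e, c (z i e) (g * (FreeGroup.of (l e))⁻¹) • δ e =
        ∑ e, c (z i e) g • ρ (l e) (δ e)) ∧
      (∀ i e g, Bef g (l e) (x i) → c (z i e) g = 0) ∧
      ∀ x₀, LinearIndependent K (fun i : {i : Fin n // x i = x₀} =>
        ∑ e, if l e = x₀ then c (z i e) 1 • δ e else 0) := by
  haveI hfd : ∀ x, FiniteDimensional K (D x) := fun x => Submodule.finiteDimensional_of_le (hD x)
  let E : Type := Σ x, Fin (Module.finrank K (D x))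
  let l : E → α := Sigma.fst
  let δ : E → X := fun e => ((Module.finBasis K (D e.1)) e.2 : X)
  have hδ : ∀ e, δ e ∈ D (l e) := fun e => ((Module.finBasis K (D e.1)) e.2).2
  have hδW : ∀ e, δ e ∈ W := fun e => hD _ (hδ e)
  have hρW : ∀ e, ρ (l e) (δ e) ∈ W := fun e =>
    hDρ _ (Submodule.mem_map_of_mem (hδ e))
  let w := Module.finBasis K W
  let p : E → Fin (Module.finrank K W) → K := fun e m => w.repr ⟨δ e, hδW e⟩ m
  let q : E → Fin (Module.finrank K W) → K := fun e m => w.repr ⟨ρ (l e) (δ e), hρW e⟩ m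
  let M : E → Fin (Module.finrank K W) → Λ := fun e m =>
    j (MonoidAlgebra.of K (FreeGroup α) (FreeGroup.of (l e))) * algebraMap K Λ (p e m) -
      algebraMap K Λ (q e m)
  let B : (E → Λ) →ₗ[Λ] (Fin (Module.finrank K W) → Λ) := LinearMap.pi fun m =>
    ∑ e, (LinearMap.toSpanSingleton Λ Λ (M e m)) ∘ₗ (LinearMap.proj e)
  have hB : ∀ z m, B z m = ∑ e, z e * M e m := by
    intro z m
    simp [B, LinearMap.sum_apply]
  have hker : n ≤ Module.finrank Λ (LinearMap.ker B) := by
    have h1 := LinearMap.finrank_range_add_finrank_ker B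
    have h2 : Module.finrank Λ (LinearMap.range B) ≤ Module.finrank K W := by
      have := Submodule.finrank_le (LinearMap.range B)
      rwa [Module.finrank_fintype_fun_eq_card, Fintype.card_fin] at this
    have h3 : Module.finrank Λ (E → Λ) = ∑ x, Module.finrank K (D x) := by
      rw [Module.finrank_fintype_fun_eq_card]
      simp [E, Fintype.card_sigma]
    omega
  obtain ⟨z, x, hz, hb, hi⟩ := exists_lead h l (LinearMap.ker B) n hker
  refine ⟨E, inferInstance, l, δ, z, x, ?_, hb, ?_⟩
  · intro i g
    have hz0 : ∀ m, ∑ e, z i e * M e m = 0 := by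
      intro m
      rw [← hB, LinearMap.mem_ker.1 (hz i)]
      rfl
    have hcoef : ∀ e m, c (z i e * M e m) g =
        c (z i e) (g * (FreeGroup.of (l e))⁻¹) * p e m - c (z i e) g * q e m := by
      intro e m
      have e1 : z i e * M e m = p e m • (z i e *
          j (MonoidAlgebra.of K (FreeGroup α) (FreeGroup.of (l e)))) - q e m • z i e := by
        simp only [M]
        rw [mul_sub, ← mul_assoc, ← Algebra.commutes (p e m), ← Algebra.commutes (q e m),
          Algebra.smul_def, Algebra.smul_def]
      rw [e1, map_sub, map_smul, map_smul]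
      simp only [Pi.sub_apply, Pi.smul_apply, smul_eq_mul]
      rw [h.right]
      ring
    have hsum : ∀ m, ∑ e, c (z i e) (g * (FreeGroup.of (l e))⁻¹) * p e m =
        ∑ e, c (z i e) g * q e m := by
      intro m
      have e1 : c (∑ e, z i e * M e m) g = 0 := by rw [hz0 m]; simp
      rw [map_sum, Finset.sum_apply] at e1
      rw [← sub_eq_zero, ← Finset.sum_sub_distrib, ← e1]
      exact Finset.sum_congr rfl fun e _ => (hcoef e m).symm
    have hW : (∑ e, c (z i e) (g * (FreeGroup.of (l e))⁻¹) • (⟨δ e, hδW e⟩ : W)) =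
        ∑ e, c (z i e) g • (⟨ρ (l e) (δ e), hρW e⟩ : W) := by
      refine w.ext_elem fun m => ?_
      rw [map_sum, map_sum, Finsupp.finsetSum_apply, Finsupp.finsetSum_apply]
      simp only [map_smul, Finsupp.smul_apply, smul_eq_mul]
      exact hsum m
    have := congrArg (Subtype.val) hW
    simpa using this
  · intro x₀
    have h0 := h6a_indep (K := K) D x₀
    have h1 : Function.Injective (Fintype.linearCombination K
      (fun e : {e : (Σ x, Fin (Module.finrank K (D x))) // e.1 = x₀} =>
      ((Module.finBasis K (D e.1.1)) e.1.2 : X))) :=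
      linearIndependent_iff_injective_fintypeLinearCombination.1 h0
    have h2 := (hi x₀).map' (Fintype.linearCombination K
      (fun e : {e : (Σ x, Fin (Module.finrank K (D x))) // e.1 = x₀} =>
      ((Module.finBasis K (D e.1.1)) e.1.2 : X))) (LinearMap.ker_eq_bot.2 h1)
    have h3 : (fun i : {i : Fin n // x i = x₀} =>
        ∑ e, if l e = x₀ then c (z i e) 1 • δ e else 0) =
        (Fintype.linearCombination K
          (fun e : {e : (Σ x, Fin (Module.finrank K (D x))) // e.1 = x₀} =>
          ((Module.finBasis K (D e.1.1)) e.1.2 : X))) ∘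
        (fun i : {i : Fin n // x i = x₀} => (fun e : {e : E // l e = x₀} => c (z i e) 1)) := by
      funext i
      rw [← Finset.sum_filter, Finset.sum_subtype (p := fun e : E => l e = x₀) _ (by simp)]
      rw [Function.comp_apply, Fintype.linearCombination_apply]
    rw [h3]
    exact h2

end PrimRank
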