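import Pool.Agent.Lib.MP_b8b21d_al.HN.M1

/-!
Well ordered subsets of bi-ordered groups (part 2): Neumann's lemma.

PROOF. `powSet s n` is the set of products of `n` elements of `s`, where all elements of `s` are
`> 1`. (1) The union `U` of all `powSet s n` is PWO: by Higman's lemma. In Mathlib the commutative version
is `Set.IsPWO.submonoid_closure`, whose proof (file Mathlib/Algebra/Group/Submonoid/Pointwise.lean)
uses `Set.PartiallyWellOrderedOn.partiallyWellOrderedOn_sublistForall₂` and
`List.SublistForall₂.prod_le_prod'` (or its commutative variant); copy this proof: elements of `U` are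
products of lists with entries in `s`, and if `l₁` is dominated by a sublist of `l₂` (entrywise `≤`) then
`l₁.prod ≤ l₂.prod` because all entries are `≥ 1` and the order is bi-invariant (prove this by
induction on `List.SublistForall₂` in the noncommutative case).
(2) Each `g` lies in only finitely many `powSet s n`. Suppose not. Let `X ⊆ U` be the set of `g` which
lie in infinitely many `powSet s n`; `X` is nonempty and contained in the PWO (= WF) set `U`, let `g` be
its minimum. For infinitely many `n ≥ 1` write `g = a_n * h_n` with `a_n ∈ s`, `h_n ∈ powSet s (n - 1)`,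
so `(a_n, h_n)` is in the finite set of pairs of `finite_pairs` for `s`, `U` and `g`. By the pigeonhole
principle one pair `(a, h)` occurs for infinitely many `n`, so `h ∈ X`, and `h < a * h = g`:
contradiction.
-/

namespace PrimRank

/-- products of `n` elements of `s` -/
def powSet {G : Type*} [Group G] (s : Set G) : ℕ → Set G
  | 0 => {1}
  | n + 1 => {g | ∃ a ∈ s, ∃ b ∈ powSet s n, a * b = g}

private theorem m3_mem_powSet_length {G : Type*} [Group G] {s : Set G} (l : List G)
    (h : ∀ x ∈ l, x ∈ s) : l.prod ∈ powSet s l.length := by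
  induction l with
  | nil => simp [powSet]
  | cons a l ih =>
    rw [List.prod_cons, List.length_cons]
    exact ⟨a, h a List.mem_cons_self, l.prod, ih fun x hx => h x (List.mem_cons_of_mem a hx), rfl⟩

private theorem m3_exists_list {G : Type*} [Group G] {s : Set G} (n : ℕ) (g : G)
    (h : g ∈ powSet s n) : ∃ l : List G, (∀ x ∈ l, x ∈ s) ∧ l.prod = g := by
  induction n generalizing g with
  | zero =>
    have h1 : g = 1 := h
    exact ⟨[], by simp, by rw [h1, List.prod_nil]⟩
  | succ n ih =>
    obtain ⟨a, ha, b, hb, rfl⟩ := h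
    obtain ⟨l, hl, rfl⟩ := ih b hb
    refine ⟨a :: l, ?_, by rw [List.prod_cons]⟩
    intro x hx
    rcases List.mem_cons.1 hx with rfl | hx
    · exact ha
    · exact hl x hx

theorem isPWO_iUnion_powSet {G : Type*} [Group G] [LinearOrder G] [MulLeftStrictMono G]
    [MulRightStrictMono G] {s : Set G} (hs : s.IsPWO) (hpos : ∀ g ∈ s, 1 < g) :
    {g : G | ∃ n, g ∈ powSet s n}.IsPWO := by
  have : MulLeftMono G := mulLeftMono_of_mulLeftStrictMono G
  have : MulRightMono G := mulRightMono_of_mulRightStrictMono G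
  have hset : {g : G | ∃ n, g ∈ powSet s n} = List.prod '' {l : List G | ∀ x, x ∈ l → x ∈ s} := by
    ext g
    constructor
    · rintro ⟨n, hn⟩
      obtain ⟨l, hl, rfl⟩ := m3_exists_list n g hn
      exact ⟨l, hl, rfl⟩
    · rintro ⟨l, hl, rfl⟩
      exact ⟨l.length, m3_mem_powSet_length l hl⟩
  rw [hset]
  refine (hs.partiallyWellOrderedOn_sublistForall₂ (· ≤ ·)).image_of_monotone_on ?_
  exact fun l1 _ l2 hl2 h12 => h12.prod_le_prod' fun x hx => (hpos x (hl2 x hx)).le

theorem finite_powSet {G : Type*} [Group G] [LinearOrder G] [MulLeftStrictMono G]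
    [MulRightStrictMono G] {s : Set G} (hs : s.IsPWO) (hpos : ∀ g ∈ s, 1 < g) (g : G) :
    {n : ℕ | g ∈ powSet s n}.Finite := by
  by_contra hinf
  have hU := isPWO_iUnion_powSet hs hpos
  have hXU : {x : G | {n : ℕ | x ∈ powSet s n}.Infinite} ⊆ {x : G | ∃ n, x ∈ powSet s n} := by
    intro x hx
    exact Set.Infinite.nonempty hx
  have hX : {x : G | {n : ℕ | x ∈ powSet s n}.Infinite}.IsWF := hU.isWF.mono hXU
  have hne : {x : G | {n : ℕ | x ∈ powSet s n}.Infinite}.Nonempty := ⟨g, hinf⟩
  have hmem : {n : ℕ | hX.min hne ∈ powSet s n}.Infinite := hX.min_mem hne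
  have hnot := fun (x : G) (hx : {n : ℕ | x ∈ powSet s n}.Infinite) => hX.not_lt_min hne hx
  revert hmem hnot
  generalize hX.min hne = y
  intro hmem hnot
  have hP := finite_pairs hs hU y
  have hfin : ∀ p ∈ {p : G × G | p.1 ∈ s ∧ p.2 ∈ {x : G | ∃ n, x ∈ powSet s n} ∧ p.1 * p.2 = y},
      {n : ℕ | p.2 ∈ powSet s n}.Finite := by
    intro p hp
    by_contra hinf'
    refine hnot p.2 hinf' ?_
    rw [← hp.2.2]
    exact lt_mul_of_one_lt_left' p.2 (hpos p.1 hp.1)
  have hbig := (hP.biUnion hfin).image Nat.succ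
  refine hmem ((hbig.union (Set.finite_singleton 0)).subset ?_)
  intro n hn
  rcases n with _ | n
  · exact Or.inr rfl
  · left
    obtain ⟨a, ha, b, hb, hab⟩ := hn
    exact ⟨n, Set.mem_biUnion (x := (a, b)) ⟨ha, ⟨n, hb⟩, hab⟩ hb, rfl⟩

end PrimRank
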