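import Pool.Agent.Lib.MP_b8b21d_al.HN.M2
import Pool.Agent.Lib.MP_b8b21d_al.HN.M3
import Pool.Agent.Lib.MP_b8b21d_al.HN.Defs

/-!
The theorem of Mal'cev and Neumann: `K((G))` is a division ring.

PROOFS. `lead`: if `f` vanishes below `a` and `g` below `b` then in `(f g)(k) = ∑ f h * g (h⁻¹ k)` a
nonzero term has `a ≤ h` and `b ≤ h⁻¹ k`, so `a b ≤ h (h⁻¹ k) = k`, with equality only for `h = a`
(`a < h` gives `a b < h b ≤ h (h⁻¹ k)`).
`exists_inv`: let `f ≠ 0`, `a` the minimum of its support (PWO = WF in a linear order), `r = f a ≠ 0`.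
Then `f = single a r * (1 - e)` where the support `s` of `e` consists of elements `> 1`
(`e = 1 - single a⁻¹ r⁻¹ * f`). Let `E : G → K`, `E k = ∑ᶠ n, (e ^ n) k`: the support of `e ^ n` is contained
in `powSet s n`, so only finitely many `n` contribute at `k` (`finite_powSet`) and the support of `E` is
PWO (`isPWO_iUnion_powSet`). Then `(1 - e) * E = 1` and `E * (1 - e) = 1`: at `k`, the sum
`∑_h e h * E (h⁻¹ k)` involves finitely many `h` (those in `s` with `h⁻¹ k` in the union of the
`powSet s n`, by `finite_pairs`) and for them finitely many `n`: interchange the finite sums: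
`(e * E) k = ∑ₙ (e ^ (n+1)) k`. (Only one of the two identities is needed if one first proves that every
nonzero element has a right inverse: a monoid in which every nonzero element has a right inverse and
there are no zero divisors (by `lead`) is a group.)
Then `K((G))` is a `DivisionRing`: build the instance with `inv f = if f = 0 then 0 else chosen inverse`
(for instance `DivisionRing.ofIsUnitOrEqZero`), take `Λ` with the same ring structure so that the algebra
structure is the one of M2, and for `j` take `MonoidAlgebra.lift K _ G` of the monoid homomorphism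
`g ↦ single g 1` (or any variant of it), `c = MNS.c`.
-/

namespace PrimRank

variable {K : Type*} [Field K] {G : Type} [Group G] [LinearOrder G] [MulLeftStrictMono G]
  [MulRightStrictMono G]

private theorem m4_c_single (g : G) (r : K) (h : G) :
    MNS.c K G (MNS.single g r) h = if h = g then r else 0 := rfl

private theorem m4_c_one (h : G) :
    MNS.c K G (1 : MNS K G) h = if h = 1 then 1 else 0 := rfl

theorem MNS.lead (s t : MNS K G) (a b : G) (hs : ∀ h, h < a → MNS.c K G s h = 0)
    (ht : ∀ h, h < b → MNS.c K G t h = 0) :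
    MNS.c K G (s * t) (a * b) = MNS.c K G s a * MNS.c K G t b ∧
      ∀ h, h < a * b → MNS.c K G (s * t) h = 0 := by
  have : MulLeftMono G := mulLeftMono_of_mulLeftStrictMono G
  have : MulRightMono G := mulRightMono_of_mulRightStrictMono G
  have key : ∀ k h, MNS.c K G s h * MNS.c K G t (h⁻¹ * k) ≠ 0 → a ≤ h ∧ b ≤ h⁻¹ * k := by
    intro k h hne
    constructor
    · by_contra hlt
      exact left_ne_zero_of_mul hne (hs h (not_le.1 hlt))
    · by_contra hlt
      exact right_ne_zero_of_mul hne (ht _ (not_le.1 hlt))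
  constructor
  · rw [MNS.c_mul, finsum_eq_single _ a]
    · rw [inv_mul_cancel_left]
    · intro h hh
      by_contra hne
      obtain ⟨h1, h2⟩ := key _ _ hne
      have h3 : a < h := lt_of_le_of_ne h1 (Ne.symm hh)
      have h4 : a * b < h * b := mul_lt_mul_left h3 b
      have h5 : h * b ≤ h * (h⁻¹ * (a * b)) := mul_le_mul_right h2 h
      rw [mul_inv_cancel_left] at h5
      exact absurd (h4.trans_le h5) (lt_irrefl _)
  · intro k hk
    rw [MNS.c_mul]
    apply finsum_eq_zero_of_forall_eq_zero
    intro h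
    by_contra hne
    obtain ⟨h1, h2⟩ := key _ _ hne
    have h3 : a * b ≤ h * (h⁻¹ * k) := mul_le_mul' h1 h2
    rw [mul_inv_cancel_left] at h3
    exact absurd (hk.trans_le h3) (lt_irrefl _)

private theorem m4_pow_mem (e : MNS K G) (n : ℕ) (k : G) (hk : MNS.c K G (e ^ n) k ≠ 0) :
    k ∈ powSet (Function.support (MNS.c K G e)) n := by
  induction n generalizing k with
  | zero =>
    rw [pow_zero, m4_c_one] at hk
    by_contra h
    exact hk (if_neg h)
  | succ n ih =>
    rw [pow_succ', MNS.c_mul] at hk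
    have h1 : ∃ h, MNS.c K G e h * MNS.c K G (e ^ n) (h⁻¹ * k) ≠ 0 := by
      by_contra hcon
      push Not at hcon
      exact hk (finsum_eq_zero_of_forall_eq_zero hcon)
    obtain ⟨h, hh⟩ := h1
    exact ⟨h, left_ne_zero_of_mul hh, h⁻¹ * k, ih _ (right_ne_zero_of_mul hh),
      mul_inv_cancel_left h k⟩

private theorem m4_finsum_succ (a : ℕ → K) (ha : (Function.support a).Finite) :
    ∑ᶠ n, a n = a 0 + ∑ᶠ n, a (n + 1) := by
  obtain ⟨N, hN⟩ := ha.bddAbove
  have h1 : Function.support a ⊆ ↑(Finset.range (N + 1)) := by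
    intro n hn
    have := hN hn
    simp only [Finset.coe_range, Set.mem_Iio]
    omega
  have h2 : (Function.support fun n => a (n + 1)) ⊆ ↑(Finset.range N) := by
    intro n hn
    have h3 : n + 1 ∈ Function.support a := hn
    have := hN h3
    simp only [Finset.coe_range, Set.mem_Iio]
    omega
  rw [finsum_eq_sum_of_support_subset _ h1, finsum_eq_sum_of_support_subset _ h2,
    Finset.sum_range_succ', add_comm]

private theorem m4_comm (F : G → ℕ → K) (hF : (Function.support fun p : G × ℕ =>
    F p.1 p.2).Finite) : ∑ᶠ h, ∑ᶠ n, F h n = ∑ᶠ n, ∑ᶠ h, F h n := by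
  have e1 := finsum_curry (fun p : G × ℕ => F p.1 p.2) hF
  have e2 := finsum_curry (fun p : ℕ × G => F p.2 p.1) (by
    refine (hF.image Prod.swap).subset ?_
    intro p hp
    exact ⟨(p.2, p.1), hp, rfl⟩)
  rw [← e1, ← e2, ← finsum_comp_equiv (Equiv.prodComm G ℕ)]
  rfl

private theorem m4_geom (e : MNS K G) (he : ∀ k, MNS.c K G e k ≠ 0 → 1 < k) :
    ∃ E : MNS K G, (1 - e) * E = 1 ∧ E * (1 - e) = 1 := by
  set s : Set G := Function.support (MNS.c K G e) with hsdef
  have hs : s.IsPWO := e.2
  have hpos : ∀ g ∈ s, 1 < g := fun g hg => he g hg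
  have hU := isPWO_iUnion_powSet hs hpos
  have hfin : ∀ k, (Function.support fun n => MNS.c K G (e ^ n) k).Finite := fun k =>
    (finite_powSet hs hpos k).subset fun n hn => m4_pow_mem e n k hn
  have hmem : ∀ k, (∑ᶠ n, MNS.c K G (e ^ n) k) ≠ 0 → ∃ n, k ∈ powSet s n := by
    intro k hk
    by_contra hcon
    push Not at hcon
    apply hk
    apply finsum_eq_zero_of_forall_eq_zero
    intro n
    by_contra hne
    exact hcon n (m4_pow_mem e n k hne)
  let E : MNS K G := ⟨fun k => ∑ᶠ n, MNS.c K G (e ^ n) k, hU.mono fun k hk => hmem k hk⟩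
  have hE : ∀ k, MNS.c K G E k = ∑ᶠ n, MNS.c K G (e ^ n) k := fun k => rfl
  have hE1 : ∀ k, MNS.c K G E k = MNS.c K G 1 k + ∑ᶠ n, MNS.c K G (e ^ (n + 1)) k := by
    intro k
    rw [hE, m4_finsum_succ _ (hfin k), pow_zero]
  have hl : ∀ k, MNS.c K G (e * E) k = ∑ᶠ n, MNS.c K G (e ^ (n + 1)) k := by
    intro k
    rw [MNS.c_mul]
    have h1 : ∀ h, MNS.c K G e h * MNS.c K G E (h⁻¹ * k) =
        ∑ᶠ n, MNS.c K G e h * MNS.c K G (e ^ n) (h⁻¹ * k) := by
      intro h
      rw [hE, mul_finsum]
    rw [finsum_congr h1, m4_comm]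
    · refine finsum_congr fun n => ?_
      rw [pow_succ', MNS.c_mul]
    · have hP := finite_pairs hs hU k
      refine (hP.biUnion fun p _ => ((Set.finite_singleton p.1).prod
        (finite_powSet hs hpos p.2))).subset ?_
      intro p hp
      have hp1 := left_ne_zero_of_mul hp
      have hp2 := m4_pow_mem e p.2 _ (right_ne_zero_of_mul hp)
      rw [Set.mem_iUnion₂]
      exact ⟨(p.1, p.1⁻¹ * k), ⟨hp1, ⟨p.2, hp2⟩, mul_inv_cancel_left _ _⟩, rfl, hp2⟩
  have hr : ∀ k, MNS.c K G (E * e) k = ∑ᶠ n, MNS.c K G (e ^ (n + 1)) k := by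
    intro k
    rw [MNS.c_mul]
    have h1 : ∀ h, MNS.c K G E h * MNS.c K G e (h⁻¹ * k) =
        ∑ᶠ n, MNS.c K G (e ^ n) h * MNS.c K G e (h⁻¹ * k) := by
      intro h
      rw [hE, finsum_mul]
    rw [finsum_congr h1, m4_comm]
    · refine finsum_congr fun n => ?_
      rw [pow_succ, MNS.c_mul]
    · have hP := finite_pairs hU hs k
      refine (hP.biUnion fun p _ => ((Set.finite_singleton p.1).prod
        (finite_powSet hs hpos p.1))).subset ?_
      intro p hp
      have hp1 := m4_pow_mem e p.2 _ (left_ne_zero_of_mul hp)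
      have hp2 := right_ne_zero_of_mul hp
      rw [Set.mem_iUnion₂]
      exact ⟨(p.1, p.1⁻¹ * k), ⟨⟨p.2, hp1⟩, hp2, mul_inv_cancel_left _ _⟩, rfl, hp1⟩
  have hl2 : E - e * E = 1 := by
    apply MNS.c_injective K G
    funext k
    rw [map_sub, Pi.sub_apply, hl, hE1, add_sub_cancel_right]
  have hr2 : E - E * e = 1 := by
    apply MNS.c_injective K G
    funext k
    rw [map_sub, Pi.sub_apply, hr, hE1, add_sub_cancel_right]
  exact ⟨E, by rw [sub_mul, one_mul, hl2], by rw [mul_sub, mul_one, hr2]⟩

theorem MNS.exists_inv (f : MNS K G) (hf : f ≠ 0) : ∃ g : MNS K G, f * g = 1 ∧ g * f = 1 := by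
  have hs : (Function.support (MNS.c K G f)).IsWF := f.2.isWF
  have hne : (Function.support (MNS.c K G f)).Nonempty := by
    by_contra hcon
    rw [Set.not_nonempty_iff_eq_empty, Function.support_eq_empty_iff] at hcon
    exact hf (MNS.c_injective K G (hcon.trans (map_zero _).symm))
  have hmin := hs.min_mem hne
  have hlt := fun (x : G) (hx : x ∈ Function.support (MNS.c K G f)) => hs.not_lt_min hne hx
  revert hmin hlt
  generalize hs.min hne = a
  intro hmin hlt
  have hr : MNS.c K G f a ≠ 0 := hmin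
  set r : K := MNS.c K G f a with hrdef
  set g0 : MNS K G := MNS.single a⁻¹ r⁻¹ with hg0
  have hg : MNS.single a r * g0 = 1 := by
    apply MNS.c_injective K G
    funext k
    rw [MNS.single_mul, hg0, m4_c_single, m4_c_one]
    by_cases hk : k = 1
    · rw [if_pos hk, if_pos (by rw [hk, mul_one]), mul_inv_cancel₀ hr]
    · rw [if_neg hk, if_neg, mul_zero]
      intro h
      exact hk (mul_eq_left.1 h)
  have he : ∀ k, MNS.c K G (1 - g0 * f) k ≠ 0 → 1 < k := by
    intro k hk
    rw [map_sub, Pi.sub_apply, hg0, MNS.single_mul, inv_inv, m4_c_one] at hk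
    by_contra hcon
    rcases eq_or_lt_of_le (not_lt.1 hcon) with h1 | h1
    · apply hk
      rw [if_pos h1, h1, mul_one, ← hrdef, inv_mul_cancel₀ hr, sub_self]
    · apply hk
      have h2 : a * k < a := by
        have := mul_lt_mul_right h1 a
        rwa [mul_one] at this
      have h3 : MNS.c K G f (a * k) = 0 := by
        by_contra h4
        exact hlt _ h4 h2
      rw [if_neg (ne_of_lt h1), h3, mul_zero, sub_zero]
  obtain ⟨E, h1, h2⟩ := m4_geom (1 - g0 * f) he
  rw [sub_sub_cancel] at h1 h2
  refine ⟨E * g0, ?_, ?_⟩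
  · have h3 : f * E = MNS.single a r := by
      calc f * E = (MNS.single a r * g0) * (f * E) := by rw [hg, one_mul]
        _ = MNS.single a r * (g0 * f * E) := by rw [mul_assoc, mul_assoc]
        _ = MNS.single a r := by rw [h1, mul_one]
    rw [← mul_assoc, h3, hg]
  · rw [mul_assoc]
    exact h2

private theorem m4_nontrivial : Nontrivial (MNS K G) := by
  refine ⟨⟨1, 0, fun h => ?_⟩⟩
  have h1 := congrFun (congrArg (MNS.c K G) h) 1
  rw [m4_c_one, if_pos rfl, map_zero] at h1
  exact one_ne_zero h1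

/-- The group elements in the ring of series. -/
private noncomputable def m4_hom : G →* MNS K G where
  toFun g := MNS.single g 1
  map_one' := rfl
  map_mul' := by
    intro g h
    apply MNS.c_injective K G
    funext k
    rw [MNS.single_mul, m4_c_single, m4_c_single, one_mul]
    by_cases hk : k = g * h
    · rw [if_pos hk, if_pos (by rw [hk, inv_mul_cancel_left])]
    · rw [if_neg hk, if_neg]
      intro h1
      exact hk (by rw [← h1, mul_inv_cancel_left])

private theorem m4_lift (a : MonoidAlgebra K G) (g : G) :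
    MNS.c K G (MonoidAlgebra.lift K (MNS K G) G m4_hom a) g = a.coeff g := by
  induction a using MonoidAlgebra.induction_linear with
  | zero => simp
  | add x y hx hy => rw [map_add, map_add, Pi.add_apply, hx, hy]; rfl
  | single m r =>
    rw [MonoidAlgebra.lift_single, map_smul, Pi.smul_apply]
    show r • MNS.c K G (MNS.single m 1) g = _
    rw [m4_c_single, MonoidAlgebra.coeff_single, Finsupp.single_apply, smul_eq_mul]
    by_cases h : g = m
    · rw [if_pos h, if_pos h.symm, mul_one]
    · rw [if_neg h, if_neg (Ne.symm h), mul_zero]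

/-- The theorem of Mal'cev and Neumann. -/
theorem exists_isMN.{u} (K : Type u) [Field K] (G : Type) [Group G] [LinearOrder G]
    [MulLeftStrictMono G] [MulRightStrictMono G] :
    ∃ (Λ : Type u) (_ : DivisionRing Λ) (_ : Algebra K Λ) (c : Λ →ₗ[K] (G → K))
      (j : MonoidAlgebra K G →ₐ[K] Λ), IsMN K G Λ c j := by
  have : Nontrivial (MNS K G) := m4_nontrivial
  have hu : ∀ a : MNS K G, IsUnit a ∨ a = 0 := by
    intro a
    by_cases ha : a = 0
    · exact Or.inr ha
    · obtain ⟨b, h1, h2⟩ := MNS.exists_inv a ha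
      exact Or.inl ⟨⟨a, b, h1, h2⟩, rfl⟩
  refine ⟨MNS K G, DivisionRing.ofIsUnitOrEqZero hu, (inferInstance : Algebra K (MNS K G)),
    MNS.c K G, MonoidAlgebra.lift K (MNS K G) G m4_hom, ?_⟩
  refine @IsMN.mk K _ G _ _ (MNS K G) (DivisionRing.ofIsUnitOrEqZero hu)
    (inferInstance : Algebra K (MNS K G)) (MNS.c K G)
    (MonoidAlgebra.lift K (MNS K G) G m4_hom) ?_ ?_ ?_ ?_ ?_ ?_ ?_
  · exact MNS.c_injective K G
  · intro s
    exact s.2
  · intro f hf
    exact ⟨⟨f, hf⟩, rfl⟩
  · exact m4_lift
  · intro g s k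
    have h1 : MonoidAlgebra.lift K (MNS K G) G m4_hom (MonoidAlgebra.of K G g) =
        MNS.single g 1 := by
      rw [MonoidAlgebra.lift_of]
      rfl
    have h2 := MNS.single_mul g (1 : K) s k
    rw [one_mul] at h2
    rw [h1]
    exact h2
  · intro g s k
    have h1 : MonoidAlgebra.lift K (MNS K G) G m4_hom (MonoidAlgebra.of K G g) =
        MNS.single g 1 := by
      rw [MonoidAlgebra.lift_of]
      rfl
    have h2 := MNS.mul_single g (1 : K) s k
    rw [mul_one] at h2
    rw [h1]
    exact h2
  · intro s t a b hs ht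
    exact MNS.lead s t a b hs ht

end PrimRank
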