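import Pool.Agent.Lib.MP_b8b21d_al.HN.O1
import Pool.Agent.Lib.MP_b8b21d_al.HN.M4
import Pool.Agent.Lib.MP_b8b21d_al.HN.H4
import Pool.Agent.Lib.MP_b8b21d_al.HN.H5
import Pool.Agent.Lib.MP_b8b21d_al.HN.H5b
import Pool.Agent.Lib.MP_b8b21d_al.HN.H6a

/-!
The linear Hanna Neumann theorem.

PROOF. Take a bi-invariant order on `FreeGroup α` (`exists_biorder`), a linear order on the finite type `α`, and
`Λ, c, j` from `exists_isMN`. Suppose `n := ∑ finrank (D x) - finrank W > (m₁ - 1) (m₂ - 1)` (natural numbers;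
so `n + finrank W = ∑ finrank (D x)`). Let `X = N₁ ⊗ N₂`, `N_i = GA / I_i`, `ρ x = map (actQ I₁ x) (actQ I₂ x)`,
and take the family of `exists_flow_family`. Let `ρ_i : FreeGroup α →* Module.End K N_i`, `g ↦ actQ I_i g`. For each
`x₀`: the vectors `ζ i = ∑ e, if l e = x₀ then c (z i e) 1 • δ e else 0` for `x i = x₀` are independent and their
contractions lie in `LL c _ x₀` for `N₁` and `N₂` (`contract_right`, `contract_left`), so
`#{i : x i = x₀} ≤ l₁ x₀ * l₂ x₀` (`card_le_mul`), `l_i x₀ = finrank (LL ..)` (finite dimensional by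
`sum_finrank_LL`). Sum over `x₀`: `n ≤ ∑ l₁ l₂ ≤ (∑ l₁) (∑ l₂) ≤ (m₁ - 1) (m₂ - 1)`.
-/

namespace PrimRank

open scoped TensorProduct

/-- The action of the free group on the quotient, as a monoid homomorphism. -/
private noncomputable def hSixAct {K : Type*} [Field K] {α : Type}
    (I : Submodule (GA K α) (GA K α)) : FreeGroup α →* Module.End K (GA K α ⧸ I) where
  toFun g := actQ I g
  map_one' := by
    unfold actQ
    rw [map_one, map_one]
  map_mul' g h := by
    unfold actQ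
    rw [map_mul, map_mul]

private theorem hSix_act_apply {K : Type*} [Field K] {α : Type}
    (I : Submodule (GA K α) (GA K α)) (g : FreeGroup α) : hSixAct I g = actQ I g := rfl

private theorem hSix_sum_mul_le {α : Type} [Fintype α] (a b : α → ℕ) :
    ∑ x, a x * b x ≤ (∑ x, a x) * ∑ x, b x := by
  rw [Finset.sum_mul]
  refine Finset.sum_le_sum fun x _ => Nat.mul_le_mul_left _ ?_
  exact Finset.single_le_sum (f := b) (fun _ _ => Nat.zero_le _) (Finset.mem_univ x)

/-- The linear Hanna Neumann theorem. -/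
theorem hanna_neumann {K : Type*} [Field K] {α : Type} [Fintype α]
    (I₁ I₂ : Submodule (GA K α) (GA K α)) (m₁ m₂ : ℕ) (hm₁ : 0 < m₁) (hm₂ : 0 < m₂)
    (b₁ : Module.Basis (Fin m₁) (GA K α) I₁) (b₂ : Module.Basis (Fin m₂) (GA K α) I₂)
    (W : Submodule K ((GA K α ⧸ I₁) ⊗[K] (GA K α ⧸ I₂))) [FiniteDimensional K W]
    (D : α → Submodule K ((GA K α ⧸ I₁) ⊗[K] (GA K α ⧸ I₂))) (hD : ∀ x, D x ≤ W)
    (hDx : ∀ x, (D x).map (TensorProduct.map (actQ I₁ (FreeGroup.of x))
      (actQ I₂ (FreeGroup.of x))) ≤ W) :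
    ∑ x, Module.finrank K (D x) ≤ Module.finrank K W + (m₁ - 1) * (m₂ - 1) := by
  classical
  obtain ⟨ord, hl, hr⟩ := exists_biorder α
  let _ := ord
  have := hl
  have := hr
  let _ : LinearOrder α := linearOrderOfSTO (WellOrderingRel (α := α))
  obtain ⟨Λ, iΛ, iA, c, j, h⟩ := exists_isMN K (FreeGroup α)
  let _ := iΛ
  let _ := iA
  by_contra hcon
  push Not at hcon
  obtain ⟨E, iE, l, δ, z, x, hflow, hbef, hind⟩ := exists_flow_family h
    (fun x => TensorProduct.map (actQ I₁ (FreeGroup.of x)) (actQ I₂ (FreeGroup.of x))) W D hD hDx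
    ((m₁ - 1) * (m₂ - 1) + 1) (by omega)
  obtain ⟨f1, s1⟩ := sum_finrank_LL h I₁ m₁ b₁ hm₁
  obtain ⟨f2, s2⟩ := sum_finrank_LL h I₂ m₂ b₂ hm₂
  have key : ∀ x₀ : α, Fintype.card {i : Fin ((m₁ - 1) * (m₂ - 1) + 1) // x i = x₀} ≤
      Module.finrank K (LL c (fun x => actQ I₁ (FreeGroup.of x)) x₀) *
        Module.finrank K (LL c (fun x => actQ I₂ (FreeGroup.of x)) x₀) := by
    intro x₀
    have := f1 x₀
    have := f2 x₀
    refine card_le_mul _ _ _ (hind x₀) ?_ ?_
    · rintro ⟨i, hi⟩ f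
      exact contract_right h (hSixAct I₁) (hSixAct I₂) l δ (z i) x₀ (hflow i)
        (fun e g hg => hbef i e g (by rw [hi]; exact hg)) f
    · rintro ⟨i, hi⟩ f
      exact contract_left h (hSixAct I₁) (hSixAct I₂) l δ (z i) x₀ (hflow i)
        (fun e g hg => hbef i e g (by rw [hi]; exact hg)) f
  have hcard : ∑ x₀, Fintype.card {i : Fin ((m₁ - 1) * (m₂ - 1) + 1) // x i = x₀} =
      (m₁ - 1) * (m₂ - 1) + 1 := by
    rw [← Fintype.card_sigma, Fintype.card_congr (Equiv.sigmaFiberEquiv x), Fintype.card_fin]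
  have hle : (m₁ - 1) * (m₂ - 1) + 1 ≤ (m₁ - 1) * (m₂ - 1) := by
    calc (m₁ - 1) * (m₂ - 1) + 1
        = ∑ x₀, Fintype.card {i : Fin ((m₁ - 1) * (m₂ - 1) + 1) // x i = x₀} := hcard.symm
      _ ≤ ∑ x₀, Module.finrank K (LL c (fun x => actQ I₁ (FreeGroup.of x)) x₀) *
            Module.finrank K (LL c (fun x => actQ I₂ (FreeGroup.of x)) x₀) :=
          Finset.sum_le_sum fun x₀ _ => key x₀
      _ ≤ (∑ x₀, Module.finrank K (LL c (fun x => actQ I₁ (FreeGroup.of x)) x₀)) *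
            ∑ x₀, Module.finrank K (LL c (fun x => actQ I₂ (FreeGroup.of x)) x₀) :=
          hSix_sum_mul_le _ _
      _ ≤ (m₁ - 1) * (m₂ - 1) := Nat.mul_le_mul (by omega) (by omega)
  omega

end PrimRank
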