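import Mathlib

/-!
Well ordered subsets of bi-ordered groups (part 1).

PROOFS. In a linear order `IsPWO = IsWF`; use `Set.isPWO_iff_exists_monotone_subseq` (every sequence
in the set has a monotone subsequence).
`isPWO_mul`: a sequence of `s * t` is `a n * b n`; pass to a subsequence with `a` monotone, then to one
with `b` monotone; products of `a ≤ a'`, `b ≤ b'` satisfy `a b ≤ a' b'` (both one sided monotonicities).
`finite_pairs`: if infinite, take an injective sequence of pairs `(a n, b n)`, pass to a subsequence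
with `a` and `b` monotone; as `a n * b n = g` is constant, both are constant: contradiction.
-/

namespace PrimRank

theorem isPWO_mul {G : Type*} [Group G] [LinearOrder G] [MulLeftStrictMono G]
    [MulRightStrictMono G] {s t : Set G} (hs : s.IsPWO) (ht : t.IsPWO) :
    {g : G | ∃ a ∈ s, ∃ b ∈ t, a * b = g}.IsPWO := by
  have h1 : (fun p : G × G => p.1 * p.2) '' (s ×ˢ t) = {g : G | ∃ a ∈ s, ∃ b ∈ t, a * b = g} := by
    ext g
    constructor
    · rintro ⟨p, ⟨h1, h2⟩, h3⟩
      exact ⟨p.1, h1, p.2, h2, h3⟩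
    · rintro ⟨a, ha, b, hb, h⟩
      exact ⟨(a, b), ⟨ha, hb⟩, h⟩
  rw [← h1]
  refine (hs.prod ht).image_of_monotone ?_
  have := mulLeftMono_of_mulLeftStrictMono G
  have := mulRightMono_of_mulRightStrictMono G
  intro p q hpq
  exact mul_le_mul' hpq.1 hpq.2

theorem finite_pairs {G : Type*} [Group G] [LinearOrder G] [MulLeftStrictMono G]
    [MulRightStrictMono G] {s t : Set G} (hs : s.IsPWO) (ht : t.IsPWO) (g : G) :
    {p : G × G | p.1 ∈ s ∧ p.2 ∈ t ∧ p.1 * p.2 = g}.Finite := by
  have h1 : {p : G × G | p.1 ∈ s ∧ p.2 ∈ t ∧ p.1 * p.2 = g}.IsPWO :=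
    (hs.prod ht).mono fun p hp => ⟨hp.1, hp.2.1⟩
  refine IsAntichain.finite_of_partiallyWellOrderedOn ?_ h1
  have := mulLeftMono_of_mulLeftStrictMono G
  intro p hp q hq hne hle
  apply hne
  have h2 : p.1 * p.2 = q.1 * q.2 := hp.2.2.trans hq.2.2.symm
  rcases eq_or_lt_of_le hle.1 with h3 | h3
  · rw [h3] at h2
    exact Prod.ext h3 (mul_left_cancel h2)
  · exact absurd h2 (ne_of_lt (mul_lt_mul_of_lt_of_le h3 hle.2))

end PrimRank
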