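import Pool.Agent.Lib.MP_b8b21d_al.HN.M1

/-!
The ring `K((G))` of series with well ordered support over a bi-ordered group `G`.

PROOFS. `mulFun f g k = ∑ᶠ h, f h * g (h⁻¹ * k)`; only finitely many `h` contribute by `finite_pairs`
(for the supports of `f` and `g`, map `h ↦ (h, h⁻¹ * k)`), and the support of `mulFun f g` is contained
in the set of products of the supports, which is PWO by `isPWO_mul`. Associativity: both sides at `k` are
the finite sum of `f a * g b * h c` over `a * b * c = k` (finite set: by `finite_pairs` twice). One way: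
`∑ᶠ` over pairs with `finsum_mem` / `Finsupp`-like Fubini (`finsum_curry` or `Finset.sum_comm'` over a big
finite set of pairs). Distributivity: `finsum_add_distrib` with finite supports.
`MNS.single g r` is the series with the single coefficient `r` at `g`.
-/

namespace PrimRank

/-- The functions with well ordered support, as a subspace. -/
def MNSsub (K : Type*) [Field K] (G : Type) [LinearOrder G] : Submodule K (G → K) where
  carrier := {f | (Function.support f).IsPWO}
  zero_mem' := by simp [Function.support_zero]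
  add_mem' := by
    intro f g hf hg
    exact (hf.union hg).mono (Function.support_add f g)
  smul_mem' := by
    intro r f hf
    exact hf.mono (Function.support_const_smul_subset r f)

/-- Series with well ordered support. -/
def MNS (K : Type*) [Field K] (G : Type) [LinearOrder G] : Type _ := MNSsub K G

noncomputable instance (K : Type*) [Field K] (G : Type) [LinearOrder G] :
    AddCommGroup (MNS K G) := inferInstanceAs (AddCommGroup (MNSsub K G))

noncomputable instance (K : Type*) [Field K] (G : Type) [LinearOrder G] :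
    Module K (MNS K G) := inferInstanceAs (Module K (MNSsub K G))

/-- The coefficients of a series. -/
def MNS.c (K : Type*) [Field K] (G : Type) [LinearOrder G] : MNS K G →ₗ[K] (G → K) :=
  (MNSsub K G).subtype

theorem MNS.c_injective (K : Type*) [Field K] (G : Type) [LinearOrder G] :
    Function.Injective (MNS.c K G) := Subtype.val_injective

variable {K : Type*} [Field K] {G : Type} [Group G] [LinearOrder G] [MulLeftStrictMono G]
  [MulRightStrictMono G]

theorem MNS.mul_mem (f g : MNS K G) :
    (Function.support fun k => ∑ᶠ h, MNS.c K G f h * MNS.c K G g (h⁻¹ * k)).IsPWO := by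
  refine (isPWO_mul f.2 g.2).mono ?_
  intro k hk
  have h1 : ∃ h, MNS.c K G f h * MNS.c K G g (h⁻¹ * k) ≠ 0 := by
    by_contra! h2
    exact hk (by simp only [h2, finsum_zero])
  obtain ⟨h, hh⟩ := h1
  exact ⟨h, left_ne_zero_of_mul hh, h⁻¹ * k, right_ne_zero_of_mul hh, mul_inv_cancel_left h k⟩

noncomputable instance : Mul (MNS K G) :=
  ⟨fun f g => ⟨fun k => ∑ᶠ h, MNS.c K G f h * MNS.c K G g (h⁻¹ * k), MNS.mul_mem f g⟩⟩

/-- The series with the single coefficient `r` at `g`. -/
noncomputable def MNS.single (g : G) (r : K) : MNS K G :=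
  ⟨fun h => if h = g then r else 0, (Set.isPWO_singleton g).mono (by
    intro h hh
    by_contra h'
    exact hh (if_neg (by simpa using h')))⟩

noncomputable instance : One (MNS K G) := ⟨MNS.single 1 1⟩

theorem MNS.finite_support (f g : MNS K G) (k : G) :
    (Function.support fun h => MNS.c K G f h * MNS.c K G g (h⁻¹ * k)).Finite := by
  have h1 := (finite_pairs f.2 g.2 k).image Prod.fst
  refine h1.subset ?_
  intro h hh
  exact ⟨(h, h⁻¹ * k), ⟨left_ne_zero_of_mul hh, right_ne_zero_of_mul hh, mul_inv_cancel_left h k⟩,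
    rfl⟩

private theorem MNS.c_mul_aux (f g : MNS K G) (k : G) :
    MNS.c K G (f * g) k = ∑ᶠ h, MNS.c K G f h * MNS.c K G g (h⁻¹ * k) := rfl

private theorem MNS.c_single (g : G) (r : K) (h : G) :
    MNS.c K G (MNS.single g r) h = if h = g then r else 0 := rfl

private theorem MNS.c_one (h : G) :
    MNS.c K G (1 : MNS K G) h = if h = 1 then 1 else 0 := rfl

private theorem MNS.finite_triples (f g h : MNS K G) (k : G) :
    (Function.support fun p : G × G =>
      MNS.c K G f p.2 * MNS.c K G g (p.2⁻¹ * p.1) * MNS.c K G h (p.1⁻¹ * k)).Finite := by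
  have h1 := (finite_pairs (isPWO_mul f.2 g.2) h.2 k).image Prod.fst
  have h2 : ∀ x : G, {a : G | MNS.c K G f a * MNS.c K G g (a⁻¹ * x) ≠ 0}.Finite := fun x =>
    MNS.finite_support f g x
  refine (h1.biUnion fun x _ => (h2 x).image fun a => (x, a)).subset ?_
  intro p hp
  have hp1 := left_ne_zero_of_mul hp
  have hp2 := right_ne_zero_of_mul hp
  simp only [Set.mem_iUnion]
  refine ⟨p.1, ?_, p.2, hp1, rfl⟩
  refine ⟨(p.1, p.1⁻¹ * k), ⟨⟨p.2, left_ne_zero_of_mul hp1, p.2⁻¹ * p.1,
    right_ne_zero_of_mul hp1, mul_inv_cancel_left _ _⟩, hp2, mul_inv_cancel_left _ _⟩, rfl⟩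

protected theorem MNS.mul_assoc (f g h : MNS K G) : f * g * h = f * (g * h) := by
  apply MNS.c_injective K G
  funext k
  have e1 : MNS.c K G (f * g * h) k = ∑ᶠ x, ∑ᶠ a,
      MNS.c K G f a * MNS.c K G g (a⁻¹ * x) * MNS.c K G h (x⁻¹ * k) := by
    rw [MNS.c_mul_aux]
    refine finsum_congr fun x => ?_
    rw [MNS.c_mul_aux, finsum_mul]
  have e2 : MNS.c K G (f * (g * h)) k = ∑ᶠ a, ∑ᶠ x,
      MNS.c K G f a * MNS.c K G g (a⁻¹ * x) * MNS.c K G h (x⁻¹ * k) := by
    rw [MNS.c_mul_aux]
    refine finsum_congr fun a => ?_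
    rw [MNS.c_mul_aux, mul_finsum,
      ← finsum_comp_equiv (Equiv.mulLeft a⁻¹)]
    refine finsum_congr fun x => ?_
    simp only [Equiv.coe_mulLeft, mul_inv_rev, inv_inv, mul_assoc, mul_inv_cancel_left]
  have hfin := MNS.finite_triples f g h k
  rw [e1, e2]
  have e3 := finsum_curry (fun p : G × G =>
    MNS.c K G f p.2 * MNS.c K G g (p.2⁻¹ * p.1) * MNS.c K G h (p.1⁻¹ * k)) hfin
  have e4 := finsum_curry (fun p : G × G =>
    MNS.c K G f p.1 * MNS.c K G g (p.1⁻¹ * p.2) * MNS.c K G h (p.2⁻¹ * k)) (by
      refine (hfin.image Prod.swap).subset ?_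
      intro p hp
      exact ⟨(p.2, p.1), hp, rfl⟩)
  rw [← e3, ← e4, ← finsum_comp_equiv (Equiv.prodComm G G)]
  rfl

protected theorem MNS.one_mul (f : MNS K G) : 1 * f = f := by
  apply MNS.c_injective K G
  funext k
  rw [MNS.c_mul_aux, finsum_eq_single _ 1]
  · simp [MNS.c_one]
  · intro x hx
    simp [MNS.c_one, hx]

protected theorem MNS.mul_one (f : MNS K G) : f * 1 = f := by
  apply MNS.c_injective K G
  funext k
  rw [MNS.c_mul_aux, finsum_eq_single _ k]
  · simp [MNS.c_one]
  · intro x hx
    have hx2 : ¬ x⁻¹ * k = 1 := by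
      intro h
      exact hx (inv_mul_eq_one.1 h)
    simp [MNS.c_one, hx2]

protected theorem MNS.left_distrib (f g h : MNS K G) : f * (g + h) = f * g + f * h := by
  apply MNS.c_injective K G
  funext k
  rw [map_add, Pi.add_apply, MNS.c_mul_aux, MNS.c_mul_aux, MNS.c_mul_aux,
    ← finsum_add_distrib (MNS.finite_support f g k) (MNS.finite_support f h k)]
  refine finsum_congr fun x => ?_
  rw [map_add, Pi.add_apply, mul_add]

protected theorem MNS.right_distrib (f g h : MNS K G) : (f + g) * h = f * h + g * h := by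
  apply MNS.c_injective K G
  funext k
  rw [map_add, Pi.add_apply, MNS.c_mul_aux, MNS.c_mul_aux, MNS.c_mul_aux,
    ← finsum_add_distrib (MNS.finite_support f h k) (MNS.finite_support g h k)]
  refine finsum_congr fun x => ?_
  rw [map_add, Pi.add_apply, add_mul]

protected theorem MNS.smul_mul (r : K) (f g : MNS K G) : (r • f) * g = r • (f * g) := by
  apply MNS.c_injective K G
  funext k
  rw [map_smul, Pi.smul_apply, MNS.c_mul_aux, MNS.c_mul_aux, smul_eq_mul, mul_finsum]
  refine finsum_congr fun x => ?_
  rw [map_smul, Pi.smul_apply, smul_eq_mul, mul_assoc]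

protected theorem MNS.mul_smul (r : K) (f g : MNS K G) : f * (r • g) = r • (f * g) := by
  apply MNS.c_injective K G
  funext k
  rw [map_smul, Pi.smul_apply, MNS.c_mul_aux, MNS.c_mul_aux, smul_eq_mul, mul_finsum]
  refine finsum_congr fun x => ?_
  rw [map_smul, Pi.smul_apply, smul_eq_mul, mul_left_comm]

noncomputable instance : Ring (MNS K G) :=
  { (inferInstance : AddCommGroup (MNS K G)) with
    mul := (· * ·)
    one := 1
    mul_assoc := MNS.mul_assoc
    one_mul := MNS.one_mul
    mul_one := MNS.mul_one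
    left_distrib := MNS.left_distrib
    right_distrib := MNS.right_distrib
    zero_mul := fun f => by
      have h := MNS.right_distrib (0 : MNS K G) 0 f
      rw [add_zero] at h
      exact left_eq_add.1 h
    mul_zero := fun f => by
      have h := MNS.left_distrib f (0 : MNS K G) 0
      rw [add_zero] at h
      exact left_eq_add.1 h }

noncomputable instance : Algebra K (MNS K G) :=
  Algebra.ofModule MNS.smul_mul fun r f g => MNS.mul_smul r f g

theorem MNS.c_mul (f g : MNS K G) (k : G) :
    MNS.c K G (f * g) k = ∑ᶠ h, MNS.c K G f h * MNS.c K G g (h⁻¹ * k) := rfl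

theorem MNS.single_mul (g : G) (r : K) (f : MNS K G) (k : G) :
    MNS.c K G (MNS.single g r * f) k = r * MNS.c K G f (g⁻¹ * k) := by
  rw [MNS.c_mul_aux, finsum_eq_single _ g]
  · simp [MNS.c_single]
  · intro x hx
    simp [MNS.c_single, hx]

theorem MNS.mul_single (g : G) (r : K) (f : MNS K G) (k : G) :
    MNS.c K G (f * MNS.single g r) k = MNS.c K G f (k * g⁻¹) * r := by
  rw [MNS.c_mul_aux, finsum_eq_single _ (k * g⁻¹)]
  · simp [MNS.c_single]
  · intro x hx
    have hx2 : ¬ x⁻¹ * k = g := by
      rintro rfl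
      exact hx (by group)
    simp [MNS.c_single, hx2]

end PrimRank
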