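import Mathlib

/-!
Free groups are bi-orderable (Magnus).

PROOF. Let `V = List α → ℤ` and let `N a` be the endomorphism of `V` which puts the letter `a` in front
of the words that do not begin with `a` (and kills the others). Then `N a * N a = 0`, and `N b * N a * s ≠ 0`
if `a ≠ b` and `N a * s ≠ 0`. In the polynomial ring `S[T]` over `S = End V` the elements `1 + N a * T` are
units, so there is a homomorphism `μ` from the free group to the units of `S[T]`; the constant
coefficient of `μ g` is `1`. For a nonempty reduced word the leading coefficient is not zero, so `μ`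
is injective. The order is the lexicographic one: `g < h` iff the lowest nonzero coefficient of
`μ h - μ g` is positive for a (lexicographic) linear order of the additive group `S`.
-/

namespace PrimRank

open Polynomial

/-- A positive cone of an additive group. -/
structure O1Cone (B : Type*) [AddCommGroup B] (P : B → Prop) : Prop where
  add : ∀ x y, P x → P y → P (x + y)
  zero : ¬ P 0
  tri : ∀ x, x ≠ 0 → P x ∨ P (-x)

theorem o1_int : O1Cone ℤ (fun x => 0 < x) where
  add := fun _ _ hx hy => add_pos hx hy
  zero := lt_irrefl 0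
  tri := fun x hx => by
    rcases lt_trichotomy x 0 with h | h | h
    · exact Or.inr (by simpa using h)
    · exact absurd h hx
    · exact Or.inl h

theorem o1_lex {I B : Type*} [AddCommGroup B] (r : I → I → Prop) [IsWellOrder I r]
    {P : B → Prop} (hP : O1Cone B P) :
    O1Cone (I → B) (fun f => ∃ i, (∀ j, r j i → f j = 0) ∧ P (f i)) where
  add := by
    rintro f g ⟨i, hi, pi⟩ ⟨j, hj, pj⟩
    rcases trichotomous_of r i j with h | h | h
    · refine ⟨i, fun k hk => ?_, ?_⟩
      · rw [Pi.add_apply, hi k hk, hj k (_root_.trans hk h), add_zero]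
      · rw [Pi.add_apply, hj i h, add_zero]
        exact pi
    · subst h
      refine ⟨i, fun k hk => ?_, ?_⟩
      · rw [Pi.add_apply, hi k hk, hj k hk, add_zero]
      · rw [Pi.add_apply]
        exact hP.add _ _ pi pj
    · refine ⟨j, fun k hk => ?_, ?_⟩
      · rw [Pi.add_apply, hj k hk, hi k (_root_.trans hk h), add_zero]
      · rw [Pi.add_apply, hi j h, zero_add]
        exact pj
  zero := by
    rintro ⟨i, -, h⟩
    exact hP.zero h
  tri := by
    intro f hf
    have hne : {i | f i ≠ 0}.Nonempty := by
      by_contra h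
      apply hf
      funext i
      by_contra h'
      exact h ⟨i, h'⟩
    have hwf : WellFounded r := IsWellFounded.wf
    have hmin : ∀ j, r j (hwf.min _ hne) → f j = 0 := by
      intro j hj
      by_contra h'
      exact hwf.not_lt_min _ h' hj
    have hmem : f (hwf.min _ hne) ≠ 0 := hwf.min_mem _ hne
    rcases hP.tri _ hmem with h | h
    · exact Or.inl ⟨_, hmin, h⟩
    · refine Or.inr ⟨_, fun j hj => ?_, h⟩
      rw [Pi.neg_apply, hmin j hj, neg_zero]

theorem o1_comap {A B : Type*} [AddCommGroup A] [AddCommGroup B] (φ : A →+ B)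
    (hφ : Function.Injective φ) {P : B → Prop} (hP : O1Cone B P) :
    O1Cone A (fun a => P (φ a)) where
  add := fun x y hx hy => by
    rw [map_add]
    exact hP.add _ _ hx hy
  zero := by
    rw [map_zero]
    exact hP.zero
  tri := fun x hx => by
    have h : φ x ≠ 0 := fun h => hx (hφ (by rw [h, map_zero]))
    rw [map_neg]
    exact hP.tri _ h

/-- What is needed of the coefficient ring. -/
structure O1Data (α S : Type) [Ring S] (N : α → S) (P : S → Prop) : Prop where
  sq : ∀ a, N a * N a = 0
  ne : ∀ a b, b ≠ a → ∀ s, N b * s ≠ 0 → N a * (N b * s) ≠ 0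
  nz : ∀ a, N a ≠ 0
  tf : ∀ z : ℤ, z ≠ 0 → ∀ s : S, s ≠ 0 → z • s ≠ 0
  cone : O1Cone S P

/-- The sign of a letter. -/
def o1sg (ε : Bool) : ℤ := cond ε 1 (-1)

theorem o1sg_ne (ε : Bool) : o1sg ε ≠ 0 := by
  cases ε <;> decide

section word

variable {α S : Type} [Ring S] (N : α → S)

/-- The nilpotent part of the image of a letter. -/
noncomputable def o1A (a : α) : S[X] := C (N a) * X

/-- The image of a word. -/
noncomputable def o1W : List (α × Bool) → S[X]
  | [] => 1
  | x :: L => (1 + o1sg x.2 • o1A N x.1) * o1W L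

theorem o1_coeff_succ (z : ℤ) (a : α) (p : S[X]) (j : ℕ) :
    ((1 + z • o1A N a) * p).coeff (j + 1) = p.coeff (j + 1) + z • (N a * p.coeff j) := by
  rw [add_mul, one_mul, coeff_add, smul_mul_assoc, coeff_smul]
  unfold o1A
  rw [mul_assoc, coeff_C_mul, coeff_X_mul]

theorem o1_coeff_zero (z : ℤ) (a : α) (p : S[X]) :
    ((1 + z • o1A N a) * p).coeff 0 = p.coeff 0 := by
  rw [add_mul, one_mul, coeff_add, smul_mul_assoc, coeff_smul]
  unfold o1A
  rw [mul_assoc, coeff_C_mul, coeff_X_mul_zero, mul_zero, smul_zero, add_zero]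

variable {N} {P : S → Prop} (D : O1Data α S N P)

include D

theorem o1A_sq (a : α) : o1A N a * o1A N a = 0 := by
  unfold o1A
  rw [mul_assoc, ← mul_assoc X, X_mul, mul_assoc (C (N a)) X X, ← mul_assoc (C (N a)),
    ← C_mul, D.sq, C_0, zero_mul]

theorem o1N_coeff (z : ℤ) (a : α) (p : S[X]) (j : ℕ) :
    N a * ((1 + z • o1A N a) * p).coeff j = N a * p.coeff j := by
  cases j with
  | zero => rw [o1_coeff_zero]
  | succ j =>
    rw [o1_coeff_succ, mul_add, mul_smul_comm, ← mul_assoc, D.sq, zero_mul, smul_zero, add_zero]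

theorem o1_inv (L : List (α × Bool)) : ∀ (a : α) (ε : Bool), FreeGroup.IsReduced ((a, ε) :: L) →
    ∃ k e : ℕ, (∀ j, k + 1 < j → (o1W N ((a, ε) :: L)).coeff j = 0) ∧
      (o1W N ((a, ε) :: L)).coeff (k + 1) =
        (((e : ℤ) + 1) * o1sg ε) • (N a * (o1W N ((a, ε) :: L)).coeff k) ∧
      N a * (o1W N ((a, ε) :: L)).coeff k ≠ 0 := by
  induction L with
  | nil =>
    intro a ε _
    refine ⟨0, 0, ?_, ?_, ?_⟩
    · intro j hj
      obtain ⟨i, rfl⟩ : ∃ i, j = i + 1 := ⟨j - 1, by omega⟩
      show ((1 + o1sg ε • o1A N a) * (1 : S[X])).coeff (i + 1) = 0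
      rw [o1_coeff_succ, coeff_one, coeff_one, if_neg (by omega), if_neg (by omega), mul_zero,
        smul_zero, add_zero]
    · show ((1 + o1sg ε • o1A N a) * (1 : S[X])).coeff (0 + 1) =
        ((((0 : ℕ) : ℤ) + 1) * o1sg ε) • (N a * ((1 + o1sg ε • o1A N a) * (1 : S[X])).coeff 0)
      rw [o1N_coeff D, o1_coeff_succ, coeff_one, if_neg (by omega), zero_add, Nat.cast_zero,
        zero_add, one_mul]
    · show N a * ((1 + o1sg ε • o1A N a) * (1 : S[X])).coeff 0 ≠ 0
      rw [o1N_coeff D, coeff_one, if_pos rfl, mul_one]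
      exact D.nz a
  | cons x L ih =>
    intro a ε hred
    obtain ⟨b, δ⟩ := x
    have hr := FreeGroup.isReduced_cons_cons.1 hred
    obtain ⟨k, e, h1, h2, h3⟩ := ih b δ hr.2
    generalize hp : o1W N ((b, δ) :: L) = p at h1 h2 h3
    have hW : o1W N ((a, ε) :: (b, δ) :: L) = (1 + o1sg ε • o1A N a) * p := by
      rw [← hp]
      rfl
    rw [hW]
    by_cases hab : a = b
    · subst hab
      have hε : ε = δ := hr.1 rfl
      subst hε
      refine ⟨k, e + 1, ?_, ?_, ?_⟩
      · intro j hj
        obtain ⟨i, rfl⟩ : ∃ i, j = i + 1 := ⟨j - 1, by omega⟩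
        rw [o1_coeff_succ, h1 _ hj, zero_add]
        by_cases hi : i = k + 1
        · rw [hi, h2, mul_smul_comm, ← mul_assoc, D.sq, zero_mul, smul_zero, smul_zero]
        · rw [h1 i (by omega), mul_zero, smul_zero]
      · rw [o1N_coeff D, o1_coeff_succ, h2, ← add_smul]
        congr 1
        push_cast
        ring
      · rw [o1N_coeff D]
        exact h3
    · refine ⟨k + 1, 0, ?_, ?_, ?_⟩
      · intro j hj
        obtain ⟨i, rfl⟩ : ∃ i, j = i + 1 := ⟨j - 1, by omega⟩
        rw [o1_coeff_succ, h1 _ (by omega), h1 i (by omega), mul_zero, smul_zero, zero_add]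
      · rw [o1N_coeff D, o1_coeff_succ, h1 _ (by omega), zero_add, Nat.cast_zero, zero_add, one_mul]
      · rw [o1N_coeff D, h2, mul_smul_comm]
        refine D.tf _ ?_ _ (D.ne a b (fun h => hab h.symm) _ h3)
        exact mul_ne_zero (by omega) (o1sg_ne δ)

omit D in
/-- The image of a generator. -/
noncomputable def o1U (D : O1Data α S N P) (a : α) : (S[X])ˣ where
  val := 1 + o1A N a
  inv := 1 - o1A N a
  val_inv := by
    rw [mul_sub, mul_one, add_mul, one_mul, o1A_sq D, add_zero, add_sub_cancel_right]
  inv_val := by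
    rw [mul_add, mul_one, sub_mul, one_mul, o1A_sq D, sub_zero, sub_add_cancel]

omit D in
/-- The Magnus homomorphism. -/
noncomputable def o1M (D : O1Data α S N P) : FreeGroup α →* (S[X])ˣ := FreeGroup.lift (o1U D)

omit D in
theorem o1W_eq (D : O1Data α S N P) (L : List (α × Bool)) :
    ((o1M D (FreeGroup.mk L) : (S[X])ˣ) : S[X]) = o1W N L := by
  unfold o1M
  rw [FreeGroup.lift_mk]
  induction L with
  | nil => rfl
  | cons x L ih =>
    rw [List.map_cons, List.prod_cons, Units.val_mul, ih]
    obtain ⟨a, ε⟩ := x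
    cases ε with
    | true =>
      show (1 + o1A N a) * o1W N L = (1 + (1 : ℤ) • o1A N a) * o1W N L
      rw [one_smul]
    | false =>
      show (1 - o1A N a) * o1W N L = (1 + (-1 : ℤ) • o1A N a) * o1W N L
      rw [neg_smul, one_smul, sub_eq_add_neg]

omit D in
theorem o1M_inj (D : O1Data α S N P) (g : FreeGroup α) (h : o1M D g = 1) : g = 1 := by
  classical
  by_contra hg
  have h1 : o1W N g.toWord = 1 := by
    rw [← o1W_eq D, FreeGroup.mk_toWord, h]
    rfl
  have hne : g.toWord ≠ [] := fun h' => hg (FreeGroup.toWord_eq_nil_iff.1 h')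
  have hred : FreeGroup.IsReduced g.toWord := FreeGroup.isReduced_toWord
  obtain ⟨x, L, hL⟩ := List.exists_cons_of_ne_nil hne
  obtain ⟨a, ε⟩ := x
  rw [hL] at h1 hred
  obtain ⟨k, e, -, h2, h3⟩ := o1_inv D L a ε hred
  have h4 : (o1W N ((a, ε) :: L)).coeff (k + 1) ≠ 0 := by
    rw [h2]
    exact D.tf _ (mul_ne_zero (by omega) (o1sg_ne ε)) _ h3
  apply h4
  rw [h1, coeff_one, if_neg (by omega)]

omit D in
theorem o1M_coeff (D : O1Data α S N P) (g : FreeGroup α) :
    ((o1M D g : (S[X])ˣ) : S[X]).coeff 0 = 1 := by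
  classical
  rw [← FreeGroup.mk_toWord (x := g), o1W_eq]
  generalize g.toWord = L
  induction L with
  | nil => exact coeff_one_zero
  | cons x L ih =>
    show ((1 + o1sg x.2 • o1A N x.1) * o1W N L).coeff 0 = 1
    rw [o1_coeff_zero, ih]

omit D in
/-- Positive polynomials. -/
def o1Q (P : S → Prop) (p : S[X]) : Prop := ∃ n : ℕ, (∀ m, m < n → p.coeff m = 0) ∧ P (p.coeff n)

omit D in
theorem o1Q_cone (D : O1Data α S N P) : O1Cone (S[X]) (o1Q P) := by
  have h := o1_comap (A := S[X]) (B := ℕ → S)
    (AddMonoidHom.mk' (fun p n => p.coeff n) (fun p q => by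
      funext n
      exact coeff_add p q n))
    (fun s t hst => by
      ext1 n
      exact congrFun hst n) (o1_lex (I := ℕ) (· < ·) D.cone)
  exact h

omit D in
theorem o1Q_left (u p : S[X]) (hu : u.coeff 0 = 1) (hp : o1Q P p) : o1Q P (u * p) := by
  obtain ⟨n, h1, h2⟩ := hp
  refine ⟨n, fun m hm => ?_, ?_⟩
  · rw [coeff_mul]
    refine Finset.sum_eq_zero fun x hx => ?_
    have hx' := Finset.HasAntidiagonal.mem_antidiagonal.1 hx
    rw [h1 x.2 (by omega), mul_zero]
  · rw [coeff_mul, Finset.sum_eq_single (0, n), hu, one_mul]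
    · exact h2
    · intro x hx hne
      have hx' := Finset.HasAntidiagonal.mem_antidiagonal.1 hx
      have h3 : x.2 < n := by
        by_contra hcon
        apply hne
        apply Prod.ext
        · show x.1 = 0
          omega
        · show x.2 = n
          omega
      rw [h1 x.2 h3, mul_zero]
    · intro hx
      exact absurd (Finset.HasAntidiagonal.mem_antidiagonal.2 (zero_add n)) hx

omit D in
theorem o1Q_right (u p : S[X]) (hu : u.coeff 0 = 1) (hp : o1Q P p) : o1Q P (p * u) := by
  obtain ⟨n, h1, h2⟩ := hp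
  refine ⟨n, fun m hm => ?_, ?_⟩
  · rw [coeff_mul]
    refine Finset.sum_eq_zero fun x hx => ?_
    have hx' := Finset.HasAntidiagonal.mem_antidiagonal.1 hx
    rw [h1 x.1 (by omega), zero_mul]
  · rw [coeff_mul, Finset.sum_eq_single (n, 0), hu, mul_one]
    · exact h2
    · intro x hx hne
      have hx' := Finset.HasAntidiagonal.mem_antidiagonal.1 hx
      have h3 : x.1 < n := by
        by_contra hcon
        apply hne
        apply Prod.ext
        · show x.1 = n
          omega
        · show x.2 = 0
          omega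
      rw [h1 x.1 h3, zero_mul]
    · intro hx
      exact absurd (Finset.HasAntidiagonal.mem_antidiagonal.2 (add_zero n)) hx

omit D in
/-- The order relation. -/
def o1lt (D : O1Data α S N P) (g h : FreeGroup α) : Prop :=
  o1Q P (((o1M D h : (S[X])ˣ) : S[X]) - ((o1M D g : (S[X])ˣ) : S[X]))

omit D in
theorem o1lt_irrefl (D : O1Data α S N P) (g : FreeGroup α) : ¬ o1lt D g g := by
  unfold o1lt
  rw [sub_self]
  exact (o1Q_cone D).zero

omit D in
theorem o1lt_trans (D : O1Data α S N P) {g h k : FreeGroup α} (h1 : o1lt D g h)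
    (h2 : o1lt D h k) : o1lt D g k := by
  unfold o1lt at *
  have h3 := (o1Q_cone D).add _ _ h2 h1
  rwa [sub_add_sub_cancel] at h3

omit D in
theorem o1lt_tri (D : O1Data α S N P) (g h : FreeGroup α) : o1lt D g h ∨ g = h ∨ o1lt D h g := by
  by_cases hgh : g = h
  · exact Or.inr (Or.inl hgh)
  · have hne : ((o1M D h : (S[X])ˣ) : S[X]) - ((o1M D g : (S[X])ˣ) : S[X]) ≠ 0 := by
      intro h0
      have h1 : o1M D h = o1M D g := Units.ext (sub_eq_zero.1 h0)
      apply hgh
      have h2 : o1M D (g⁻¹ * h) = 1 := by
        rw [map_mul, map_inv, h1, inv_mul_cancel]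
      have h3 := o1M_inj D _ h2
      exact (inv_mul_eq_one.1 h3)
    rcases (o1Q_cone D).tri _ hne with h1 | h1
    · exact Or.inl h1
    · right
      right
      rw [neg_sub] at h1
      exact h1

omit D in
theorem o1lt_left (D : O1Data α S N P) (k : FreeGroup α) {g h : FreeGroup α}
    (hgh : o1lt D g h) : o1lt D (k * g) (k * h) := by
  unfold o1lt at *
  rw [map_mul, map_mul, Units.val_mul, Units.val_mul, ← mul_sub]
  exact o1Q_left _ _ (o1M_coeff D k) hgh

omit D in
theorem o1lt_right (D : O1Data α S N P) (k : FreeGroup α) {g h : FreeGroup α}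
    (hgh : o1lt D g h) : o1lt D (g * k) (h * k) := by
  unfold o1lt at *
  rw [map_mul, map_mul, Units.val_mul, Units.val_mul, ← sub_mul]
  exact o1Q_right _ _ (o1M_coeff D k) hgh

end word

section model

variable {α : Type}

/-- The additive group on which the letters act. -/
abbrev O1V (α : Type) : Type := List α → ℤ

open Classical in
/-- Put the letter `a` in front. -/
noncomputable def o1f (a : α) (f : O1V α) : O1V α := fun l => match l with
  | [] => 0
  | b :: l' => if b = a ∧ l'.head? ≠ some a then f l' else 0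

open Classical in
theorem o1f_cons (a b : α) (f : O1V α) (l : List α) :
    o1f a f (b :: l) = if b = a ∧ l.head? ≠ some a then f l else 0 := rfl

/-- The endomorphism of a letter. -/
noncomputable def o1N (a : α) : Module.End ℤ (O1V α) where
  toFun := o1f a
  map_add' := by
    intro f g
    funext l
    cases l with
    | nil => rfl
    | cons b l' =>
      rw [Pi.add_apply, o1f_cons, o1f_cons, o1f_cons]
      split_ifs
      · rfl
      · rfl
  map_smul' := by
    intro z f
    funext l
    cases l with
    | nil =>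
      show (0 : ℤ) = z * 0
      rw [mul_zero]
    | cons b l' =>
      rw [Pi.smul_apply, o1f_cons, o1f_cons]
      split_ifs
      · rfl
      · rw [smul_zero]

theorem o1N_apply (a : α) (f : O1V α) : o1N a f = o1f a f := rfl

/-- Positive elements of the endomorphism ring. -/
def o1P (s : Module.End ℤ (O1V α)) : Prop :=
  ∃ i : O1V α × List α, (∀ j : O1V α × List α, WellOrderingRel j i → s j.1 j.2 = 0) ∧
    0 < s i.1 i.2

theorem o1P_cone : O1Cone (Module.End ℤ (O1V α)) o1P := by
  have h := o1_comap (A := Module.End ℤ (O1V α)) (B := O1V α × List α → ℤ)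
    (AddMonoidHom.mk' (fun s p => s p.1 p.2) (fun _ _ => rfl))
    (fun s t hst => by
      refine LinearMap.ext fun v => ?_
      funext l
      exact congrFun hst (v, l)) (o1_lex (I := O1V α × List α) WellOrderingRel o1_int)
  exact h

theorem o1_data : O1Data α (Module.End ℤ (O1V α)) o1N o1P where
  sq := by
    intro a
    refine LinearMap.ext fun f => ?_
    funext l
    show o1f a (o1f a f) l = 0
    cases l with
    | nil => rfl
    | cons b l =>
      rw [o1f_cons]
      split_ifs with h
      · cases l with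
        | nil => rfl
        | cons c l =>
          rw [o1f_cons, if_neg]
          rintro ⟨h1, -⟩
          apply h.2
          rw [List.head?_cons, h1]
      · rfl
  ne := by
    intro a b hab s h
    have h1 : ∃ v l, o1f b (s v) l ≠ 0 := by
      by_contra hcon
      push Not at hcon
      apply h
      refine LinearMap.ext fun v => ?_
      funext l
      exact hcon v l
    obtain ⟨v, l, hl⟩ := h1
    intro h0
    apply hl
    cases l with
    | nil => rfl
    | cons c l =>
      have hc : c = b := by
        by_contra hcb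
        apply hl
        rw [o1f_cons, if_neg]
        rintro ⟨h2, -⟩
        exact hcb h2
      have h2 : (o1N a * (o1N b * s)) v (a :: c :: l) = 0 := by
        rw [h0]
        rfl
      have h3 : (o1N a * (o1N b * s)) v (a :: c :: l) = o1f b (s v) (c :: l) := by
        show o1f a (o1f b (s v)) (a :: c :: l) = _
        rw [o1f_cons, if_pos]
        refine ⟨rfl, ?_⟩
        rw [List.head?_cons, hc]
        intro h4
        exact hab (Option.some.inj h4)
      rw [← h3, h2]
  nz := by
    intro a h
    have h1 : o1f a (fun _ => 1) [a] = 0 := by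
      rw [← o1N_apply, h]
      rfl
    rw [o1f_cons, if_pos ⟨rfl, by simp⟩] at h1
    exact one_ne_zero h1
  tf := by
    intro z hz s hs h
    apply hs
    refine LinearMap.ext fun v => ?_
    funext l
    have h1 : (z • s) v l = 0 := by
      rw [h]
      rfl
    rw [LinearMap.smul_apply, Pi.smul_apply, smul_eq_mul] at h1
    rcases mul_eq_zero.1 h1 with h3 | h3
    · exact absurd h3 hz
    · exact h3
  cone := o1P_cone

end model

/-- Free groups are bi-orderable. -/
theorem exists_biorder (α : Type) :
    ∃ _ : LinearOrder (FreeGroup α), MulLeftStrictMono (FreeGroup α) ∧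
      MulRightStrictMono (FreeGroup α) := by
  classical
  have hsto : IsStrictTotalOrder (FreeGroup α) (o1lt o1_data) :=
    { irrefl := o1lt_irrefl o1_data
      trans := fun _ _ _ => o1lt_trans o1_data
      trichotomous := fun g h hg hh => by
        rcases o1lt_tri o1_data g h with h1 | h1 | h1
        · exact absurd h1 hg
        · exact h1
        · exact absurd h1 hh }
  refine ⟨linearOrderOfSTO (o1lt o1_data), ⟨fun k g h hgh => ?_⟩, ⟨fun k g h hgh => ?_⟩⟩
  · exact o1lt_left o1_data k hgh
  · exact o1lt_right o1_data k hgh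

end PrimRank
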