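import Pool.Agent.Lib.MP_b8b21d_al.HN.T0
import Pool.Agent.Lib.MP_b8b21d_al.B3
import Pool.Agent.Lib.MP_b8b21d_al.C5

/-!
Basic properties of `PP`.

PROOFS.
`rank_le_of_span`: `left_ideal_free` gives a basis `b` indexed by `ι`. Let `ε : GA → K` be the augmentation
(`MonoidAlgebra.lift K K (FreeGroup α) 1`). For `f ∈ I` let `v f = (ε (b.repr f i))_i : ι →₀ K`. `v` is additive,
`v (y • f) = ε y • v f`, so the image of `v` is spanned over `K` by the `v (c i)`; and `v (b i) = single i 1`, so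
`v` is onto. Hence `ι` is finite with at most `m` elements.
`PP_norm`: let `I = span (range b₀)`, proper by the hypothesis on `b₀`; take a basis `b` of `I` with `m' ≤ m`
members; `b₀ i = ∑ x i k * b k`, put `a k = ∑ i, a₀ i * x i k`; if `∑ a k * c k = 1` then
`∑ a₀ i * (∑ x i k * c k) = 1`.
`PP_mono`: pad with zeros. `PP_conj`: `g⁻¹ w g - 1 = ∑ (g⁻¹ a i) (b i g)`; if `∑ c i b i g = 1` then
`∑ (g c i) b i = 1` (multiply by `g` on the left and `g⁻¹` on the right).
`PP_inv`: `of w⁻¹ - 1 = anti (of w - 1) = ∑ anti (b i) * anti (a i)`. `PP_mulEquiv`: apply the algebra isomorphism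
`gmap K e`. `PP_of_kPrimRankL`: `kPrimRankL K w ≤ m` is an infimum of a set of natural numbers in `ℕ∞`, so it is
attained: there are `m' ≤ m`, `I`, a basis `b`, and no functional with value `1` on `w - 1`; let `a i` be the
coordinates of `w - 1`; `∑ a i * c i = 1` would give the functional `φ (b i) = c i` with `φ (w - 1) = 1`;
`∑ c i * b i ∈ I ≠ ⊤`. `not_isPrimitiveElt_of_PP`: from `PP_norm` and `LB_of_isPrimitiveElt` (with the scalar `1`):
`1 = φ (w - 1) = ∑ a i * φ (b i)`.
-/

namespace PrimRank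

variable {K : Type*} [Field K] {α : Type}

/-- the augmentation -/
private noncomputable def hnq1_eps : GA K α →ₐ[K] K :=
  MonoidAlgebra.lift K K (FreeGroup α) 1

/-- the augmented coordinates -/
private noncomputable def hnq1_v {ι : Type} {I : Submodule (GA K α) (GA K α)}
    (b : Module.Basis ι (GA K α) I) (f : I) : ι →₀ K :=
  (b.repr f).mapRange (hnq1_eps (K := K) (α := α)) (map_zero _)

private theorem hnq1_v_add {ι : Type} {I : Submodule (GA K α) (GA K α)}
    (b : Module.Basis ι (GA K α) I) (f g : I) : hnq1_v b (f + g) = hnq1_v b f + hnq1_v b g := by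
  ext i
  simp [hnq1_v]

private theorem hnq1_v_smul {ι : Type} {I : Submodule (GA K α) (GA K α)}
    (b : Module.Basis ι (GA K α) I) (y : GA K α) (f : I) :
    hnq1_v b (y • f) = hnq1_eps y • hnq1_v b f := by
  ext i
  simp [hnq1_v]

private theorem hnq1_v_zero {ι : Type} {I : Submodule (GA K α) (GA K α)}
    (b : Module.Basis ι (GA K α) I) : hnq1_v b (0 : I) = 0 := by
  ext i
  simp [hnq1_v]

private theorem hnq1_v_basis {ι : Type} {I : Submodule (GA K α) (GA K α)}
    (b : Module.Basis ι (GA K α) I) (i : ι) : hnq1_v b (b i) = Finsupp.single i 1 := by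
  unfold hnq1_v
  rw [Module.Basis.repr_self, Finsupp.mapRange_single, map_one]

theorem rank_le_of_span (I : Submodule (GA K α) (GA K α)) {m : ℕ} (c : Fin m → GA K α)
    (hc : I = Submodule.span (GA K α) (Set.range c)) :
    ∃ m' ≤ m, Nonempty (Module.Basis (Fin m') (GA K α) I) := by
  classical
  obtain ⟨ι, ⟨b⟩⟩ := left_ideal_free I
  have hcI : ∀ i, c i ∈ I := fun i => by
    rw [hc]
    exact Submodule.subset_span ⟨i, rfl⟩
  set u : Fin m → (ι →₀ K) := fun i => hnq1_v b ⟨c i, hcI i⟩ with hu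
  have hv : ∀ f : I, hnq1_v b f ∈ Submodule.span K (Set.range u) := by
    rintro ⟨f, hf⟩
    have hf' : f ∈ Submodule.span (GA K α) (Set.range c) := by
      rw [← hc]
      exact hf
    obtain ⟨y, hy⟩ := (Submodule.mem_span_range_iff_exists_fun (GA K α)).1 hf'
    have h1 : (⟨f, hf⟩ : I) = ∑ i, y i • (⟨c i, hcI i⟩ : I) := by
      apply Subtype.ext
      refine hy.symm.trans ?_
      simp
    rw [h1]
    have h2 : ∀ s : Finset (Fin m), hnq1_v b (∑ i ∈ s, y i • (⟨c i, hcI i⟩ : I)) ∈
        Submodule.span K (Set.range u) := by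
      intro s
      induction s using Finset.cons_induction with
      | empty =>
        rw [Finset.sum_empty, hnq1_v_zero]
        exact Submodule.zero_mem _
      | cons a s ha ih =>
        rw [Finset.sum_cons, hnq1_v_add, hnq1_v_smul]
        exact Submodule.add_mem _ (Submodule.smul_mem _ _ (Submodule.subset_span ⟨a, rfl⟩)) ih
    exact h2 _
  have htop : Submodule.span K (Set.range u) = ⊤ := by
    rw [eq_top_iff, ← (Finsupp.basisSingleOne (R := K) (ι := ι)).span_eq, Submodule.span_le]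
    rintro _ ⟨i, rfl⟩
    have h1 := hv (b i)
    rw [hnq1_v_basis] at h1
    rw [Finsupp.coe_basisSingleOne]
    exact h1
  have hfin : Module.Finite K (ι →₀ K) := by
    refine ⟨⟨Finset.univ.image u, ?_⟩⟩
    rw [Finset.coe_image, Finset.coe_univ, Set.image_univ]
    exact htop
  have hι : Finite ι := Module.Finite.finite_basis (Finsupp.basisSingleOne (R := K) (ι := ι))
  have hcard : Nat.card ι ≤ m := by
    rw [← Module.finrank_eq_nat_card_basis (Finsupp.basisSingleOne (R := K) (ι := ι)),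
      ← finrank_top K (ι →₀ K), ← htop]
    have h1 := finrank_range_le_card (R := K) u
    rw [Fintype.card_fin] at h1
    exact h1
  exact ⟨Nat.card ι, hcard, ⟨b.reindex (Finite.equivFin ι)⟩⟩

theorem PP_norm {w : FreeGroup α} {m : ℕ} (h : PP K w m) :
    ∃ m' ≤ m, ∃ I : Submodule (GA K α) (GA K α), I ≠ ⊤ ∧
      ∃ (b : Module.Basis (Fin m') (GA K α) I) (a : Fin m' → GA K α),
        MonoidAlgebra.of K (FreeGroup α) w - 1 = ∑ i, a i * (b i : GA K α) ∧
        ∀ c : Fin m' → GA K α, ∑ i, a i * c i ≠ 1 := by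
  obtain ⟨a₀, b₀, h1, h2, h3⟩ := h
  set I : Submodule (GA K α) (GA K α) := Submodule.span (GA K α) (Set.range b₀) with hI
  have hItop : I ≠ ⊤ := by
    intro htop
    have h4 : (1 : GA K α) ∈ I := by
      rw [htop]
      exact Submodule.mem_top
    obtain ⟨c, hc⟩ := (Submodule.mem_span_range_iff_exists_fun (GA K α)).1 h4
    exact h2 c hc
  obtain ⟨m', hm', ⟨b⟩⟩ := rank_le_of_span I b₀ hI
  have hb₀ : ∀ i, b₀ i ∈ I := fun i => Submodule.subset_span ⟨i, rfl⟩
  set x : Fin m → Fin m' → GA K α := fun i k => b.repr ⟨b₀ i, hb₀ i⟩ k with hx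
  have hbx : ∀ i, b₀ i = ∑ k, x i k * (b k : GA K α) := by
    intro i
    have h4 := congrArg Subtype.val (b.sum_repr ⟨b₀ i, hb₀ i⟩)
    simp only [AddSubmonoidClass.coe_finsetSum, Submodule.coe_smul, smul_eq_mul] at h4
    exact h4.symm
  refine ⟨m', hm', I, hItop, b, fun k => ∑ i, a₀ i * x i k, ?_, fun c hc => ?_⟩
  · rw [h1]
    simp only [Finset.sum_mul]
    rw [Finset.sum_comm]
    refine Finset.sum_congr rfl fun i _ => ?_
    rw [hbx i, Finset.mul_sum]
    exact Finset.sum_congr rfl fun k _ => (mul_assoc _ _ _).symm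
  · refine h3 (fun i => ∑ k, x i k * c k) ?_
    rw [← hc]
    simp only [Finset.sum_mul, Finset.mul_sum]
    rw [Finset.sum_comm]
    exact Finset.sum_congr rfl fun k _ => Finset.sum_congr rfl fun i _ => (mul_assoc _ _ _).symm

theorem PP_mono {w : FreeGroup α} {m m' : ℕ} (hm : m ≤ m') (h : PP K w m) : PP K w m' := by
  obtain ⟨k, rfl⟩ := Nat.exists_eq_add_of_le hm
  obtain ⟨a, b, h1, h2, h3⟩ := h
  refine ⟨Fin.append a (fun _ => 0), Fin.append b (fun _ => 0), ?_, fun c hc => ?_, fun c hc => ?_⟩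
  · rw [h1, Fin.sum_univ_add]
    simp
  · rw [Fin.sum_univ_add] at hc
    simp only [Fin.append_left, Fin.append_right, mul_zero, Finset.sum_const_zero, add_zero] at hc
    exact h2 _ hc
  · rw [Fin.sum_univ_add] at hc
    simp only [Fin.append_left, Fin.append_right, zero_mul, Finset.sum_const_zero, add_zero] at hc
    exact h3 _ hc

theorem PP_conj {w : FreeGroup α} {m : ℕ} (h : PP K w m) (g : FreeGroup α) :
    PP K (g⁻¹ * w * g) m := by
  obtain ⟨a, b, h1, h2, h3⟩ := h
  set o := MonoidAlgebra.of K (FreeGroup α) with ho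
  have e1 : o g * o g⁻¹ = 1 := by rw [← map_mul, mul_inv_cancel, map_one]
  have e2 : o g⁻¹ * o g = 1 := by rw [← map_mul, inv_mul_cancel, map_one]
  refine ⟨fun i => o g⁻¹ * a i, fun i => b i * o g, ?_, fun c hc => ?_, fun c hc => ?_⟩
  · have h4 : ∑ i, o g⁻¹ * a i * (b i * o g) = o g⁻¹ * (∑ i, a i * b i) * o g := by
      rw [Finset.mul_sum, Finset.sum_mul]
      exact Finset.sum_congr rfl fun i _ => by simp only [mul_assoc]
    rw [h4, ← h1, map_mul, map_mul, mul_sub, sub_mul, mul_one, e2]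
  · refine h2 (fun i => o g * c i) ?_
    have h4 : (∑ i, c i * b i) * o g = 1 := by
      rw [← hc, Finset.sum_mul]
      exact Finset.sum_congr rfl fun i _ => mul_assoc _ _ _
    have h5 : ∑ i, c i * b i = o g⁻¹ := by
      calc ∑ i, c i * b i = (∑ i, c i * b i) * (o g * o g⁻¹) := by rw [e1, mul_one]
        _ = o g⁻¹ := by rw [← mul_assoc, h4, one_mul]
    calc ∑ i, o g * c i * b i = o g * ∑ i, c i * b i := by
          rw [Finset.mul_sum]
          exact Finset.sum_congr rfl fun i _ => mul_assoc _ _ _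
      _ = 1 := by rw [h5, e1]
  · refine h3 (fun i => c i * o g⁻¹) ?_
    have h4 : o g⁻¹ * (∑ i, a i * c i) = 1 := by
      rw [← hc, Finset.mul_sum]
      exact Finset.sum_congr rfl fun i _ => (mul_assoc _ _ _).symm
    have h5 : ∑ i, a i * c i = o g := by
      calc ∑ i, a i * c i = (o g * o g⁻¹) * ∑ i, a i * c i := by rw [e1, one_mul]
        _ = o g := by rw [mul_assoc, h4, mul_one]
    calc ∑ i, a i * (c i * o g⁻¹) = (∑ i, a i * c i) * o g⁻¹ := by
          rw [Finset.sum_mul]
          exact Finset.sum_congr rfl fun i _ => (mul_assoc _ _ _).symm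
      _ = 1 := by rw [h5, e1]

theorem PP_inv {w : FreeGroup α} {m : ℕ} (h : PP K w m) : PP K w⁻¹ m := by
  obtain ⟨a, b, h1, h2, h3⟩ := h
  refine ⟨fun i => anti (b i), fun i => anti (a i), ?_, fun c hc => ?_, fun c hc => ?_⟩
  · have h4 := congrArg anti h1
    rw [map_sub, anti_of, anti_one, map_sum] at h4
    rw [h4]
    exact Finset.sum_congr rfl fun i _ => anti_mul _ _
  · refine h3 (fun i => anti (c i)) ?_
    have h4 := congrArg anti hc
    rw [map_sum, anti_one] at h4
    rw [← h4]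
    refine Finset.sum_congr rfl fun i _ => ?_
    rw [anti_mul, anti_anti]
  · refine h2 (fun i => anti (c i)) ?_
    have h4 := congrArg anti hc
    rw [map_sum, anti_one] at h4
    rw [← h4]
    refine Finset.sum_congr rfl fun i _ => ?_
    rw [anti_mul, anti_anti]

theorem PP_mulEquiv {β : Type} (e : FreeGroup α ≃* FreeGroup β) {w : FreeGroup α} {m : ℕ}
    (h : PP K w m) : PP K (e w) m := by
  obtain ⟨a, b, h1, h2, h3⟩ := h
  set E : GA K α ≃ₐ[K] GA K β := MonoidAlgebra.domCongr K K e with hE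
  have hEo : ∀ g, E (MonoidAlgebra.of K (FreeGroup α) g) = MonoidAlgebra.of K (FreeGroup β) (e g) := by
    intro g
    simp [hE, MonoidAlgebra.of_apply]
  refine ⟨fun i => E (a i), fun i => E (b i), ?_, fun c hc => ?_, fun c hc => ?_⟩
  · have h4 := congrArg E h1
    rw [map_sub, map_one, hEo, map_sum] at h4
    rw [h4]
    exact Finset.sum_congr rfl fun i _ => map_mul E _ _
  · refine h2 (fun i => E.symm (c i)) ?_
    have h4 := congrArg E.symm hc
    rw [map_sum, map_one] at h4
    rw [← h4]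
    refine Finset.sum_congr rfl fun i _ => ?_
    rw [map_mul, AlgEquiv.symm_apply_apply]
  · refine h3 (fun i => E.symm (c i)) ?_
    have h4 := congrArg E.symm hc
    rw [map_sum, map_one] at h4
    rw [← h4]
    refine Finset.sum_congr rfl fun i _ => ?_
    rw [map_mul, AlgEquiv.symm_apply_apply]

theorem PP_of_kPrimRankL {w : FreeGroup α} {m : ℕ} (h : kPrimRankL K w ≤ m) : PP K w m := by
  unfold kPrimRankL at h
  set S := {n : ℕ∞ | ∃ (I : Submodule (GA K α) (GA K α))
    (hw : MonoidAlgebra.of K (FreeGroup α) w - 1 ∈ I) (m : ℕ),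
    n = m ∧ I ≠ ⊤ ∧ Nonempty (Module.Basis (Fin m) (GA K α) I) ∧
    ¬ ∃ φ : I →ₗ[GA K α] GA K α, φ ⟨MonoidAlgebra.of K (FreeGroup α) w - 1, hw⟩ = 1} with hS
  have hne : S.Nonempty := by
    by_contra hemp
    rw [Set.not_nonempty_iff_eq_empty] at hemp
    rw [hemp, sInf_empty] at h
    exact absurd h (by simp)
  have hmem := csInf_mem hne
  obtain ⟨I, hw, m', hm', hI, ⟨b⟩, hφ⟩ := hmem
  rw [hm'] at h
  refine PP_mono (Nat.cast_le.1 h) ⟨fun i => b.repr ⟨_, hw⟩ i, fun i => (b i : GA K α), ?_,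
    fun c hc => ?_, fun c hc => ?_⟩
  · have h4 := congrArg Subtype.val (b.sum_repr ⟨_, hw⟩)
    simp only [AddSubmonoidClass.coe_finsetSum, Submodule.coe_smul, smul_eq_mul] at h4
    exact h4.symm
  · apply hI
    rw [Submodule.eq_top_iff']
    intro x
    have h4 : (1 : GA K α) ∈ I := by
      rw [← hc]
      exact Submodule.sum_mem _ fun i _ => I.smul_mem (c i) (b i).2
    have h5 := I.smul_mem x h4
    rwa [smul_eq_mul, mul_one] at h5
  · apply hφ
    refine ⟨b.constr ℕ c, ?_⟩
    rw [Module.Basis.constr_apply_fintype]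
    exact hc

theorem not_isPrimitiveElt_of_PP {w : FreeGroup α} {m : ℕ} (h : PP K w m) :
    ¬ IsPrimitiveElt w := by
  intro hp
  obtain ⟨m', hm', I, hI, b, a, h1, h2⟩ := PP_norm h
  have hw : MonoidAlgebra.of K (FreeGroup α) w - (1 : K) • (1 : GA K α) ∈ I := by
    rw [one_smul, h1]
    exact Submodule.sum_mem _ fun i _ => I.smul_mem (a i) (b i).2
  obtain ⟨φ, hφ⟩ := LB_of_isPrimitiveElt (K := K) hp (m' + 1) 1 one_ne_zero I hI m' (by omega) ⟨b⟩ hw
  refine h2 (fun i => φ (b i)) ?_
  rw [← hφ]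
  have h3 : (⟨_, hw⟩ : I) = ∑ i, a i • b i := by
    apply Subtype.ext
    simp only [AddSubmonoidClass.coe_finsetSum, Submodule.coe_smul, smul_eq_mul]
    rw [one_smul, h1]
  rw [h3, map_sum]
  exact Finset.sum_congr rfl fun i _ => (by rw [map_smul, smul_eq_mul])

end PrimRank
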