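import Pool.Agent.Lib.MP_b8b21d_al.HN.Q1
import Pool.Agent.Lib.MP_b8b21d_al.C2

/-!
Restriction to a free factor.

PROOF. Let `ι = gmap K (FreeGroup.map Sum.inl) : GA K α → GA K (α ⊕ β)`. By `PP_norm` there are `m' ≤ m`, `I ≠ ⊤` of
`GA K (α ⊕ β)` with basis `b`, and `a` with `ι (w) - 1 = ∑ a i * b i`, the `a i` generating a proper right ideal.
Let `J₁ = {f : ι f ∈ I}` and `J₂ = {f : gmap K (map Sum.inr) f ∈ I}` (left ideals). By `rank_add_le` (C2.lean) `J₁` has
a basis `b¹` with `k₁ ≤ m'` members. `of w - 1 ∈ J₁`, so `of w - 1 = ∑ a¹ k * b¹ k`. `J₁ ≠ ⊤`, so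
`∑ c k * b¹ k ≠ 1`. Suppose `∑ a¹ k * c k = 1`. For each `k` the map `φ₁ = ι ∘ (b¹.coord k)` on `J₁` extends to a
`GA K (α ⊕ β)`-linear `Φ k : I → GA K (α ⊕ β)`: this is `ext2` of C1.lean (with second map `0`; see how C2.lean
uses it for `C2_phi1`). So `ι (a¹ k) = Φ k (ι (of w - 1)) = ∑ a i * Φ k (b i)` and
`1 = ∑_k ι (a¹ k) * ι (c k) = ∑_i a i * (∑_k Φ k (b i) * ι (c k))`: contradiction. Finally `PP_mono`.
-/

namespace PrimRank

/-- The contraction of a left ideal along a homomorphism. -/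
private noncomputable def Q5_contr {K : Type*} [Field K] {α γ : Type}
    (j : FreeGroup α →* FreeGroup γ) (I : Submodule (GA K γ) (GA K γ)) :
    Submodule (GA K α) (GA K α) where
  carrier := {f | gmap K j f ∈ I}
  zero_mem' := by
    show gmap K j 0 ∈ I
    rw [map_zero]
    exact I.zero_mem
  add_mem' := by
    intro f g hf hg
    show gmap K j (f + g) ∈ I
    rw [map_add]
    exact I.add_mem hf hg
  smul_mem' := by
    intro c f hf
    show gmap K j (c • f) ∈ I
    rw [smul_eq_mul, map_mul, ← smul_eq_mul]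
    exact I.smul_mem _ hf

private theorem Q5_map_of {K : Type*} [Field K] {α γ : Type} (j : FreeGroup α →* FreeGroup γ)
    (g : FreeGroup α) :
    gmap K j (MonoidAlgebra.of K _ g) = MonoidAlgebra.of K _ (j g) := by
  simp [gmap, MonoidAlgebra.of_apply]

/-- The image of a functional under the algebra map. -/
private noncomputable def Q5_phi {K : Type*} [Field K] {α γ : Type}
    (j : FreeGroup α →* FreeGroup γ) {J : Submodule (GA K α) (GA K α)}
    (φ : J →ₗ[GA K α] GA K α) :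
    J →ₛₗ[(gmap K j : GA K α →+* GA K γ)] GA K γ where
  toFun f := gmap K j (φ f)
  map_add' f g := by rw [map_add, map_add]
  map_smul' c f := by
    rw [map_smul, smul_eq_mul, map_mul]
    rfl

theorem PP_restrict {K : Type*} [Field K] {α β : Type} {w : FreeGroup α} {m : ℕ}
    (h : PP K (FreeGroup.map (Sum.inl : α → α ⊕ β) w) m) : PP K w m := by
  obtain ⟨m', hm', I, hI, b, a, hw, ha⟩ := PP_norm h
  obtain ⟨k₁, k₂, hk, ⟨b₁⟩, -⟩ := rank_add_le I hI
    (Q5_contr (FreeGroup.map (Sum.inl : α → α ⊕ β)) I)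
    (Q5_contr (FreeGroup.map (Sum.inr : β → α ⊕ β)) I) (fun _ => Iff.rfl) (fun _ => Iff.rfl) m' b
  have hg : gmap K (FreeGroup.map (Sum.inl : α → α ⊕ β))
      (MonoidAlgebra.of K (FreeGroup α) w - 1) = ∑ i, a i * (b i : GA K (α ⊕ β)) := by
    rw [map_sub, map_one, Q5_map_of, hw]
  have hmem : gmap K (FreeGroup.map (Sum.inl : α → α ⊕ β))
      (MonoidAlgebra.of K (FreeGroup α) w - 1) ∈ I := by
    rw [hg]
    exact I.sum_mem fun i _ => I.smul_mem (a i) (b i).2
  have hw₁ : MonoidAlgebra.of K (FreeGroup α) w - 1 ∈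
      Q5_contr (FreeGroup.map (Sum.inl : α → α ⊕ β)) I := hmem
  refine PP_mono (m := k₁) (by omega) ⟨fun k => b₁.repr ⟨_, hw₁⟩ k, fun k => b₁ k, ?_, ?_, ?_⟩
  · have h1 := congrArg Subtype.val (b₁.sum_repr ⟨_, hw₁⟩)
    rw [← Submodule.subtype_apply, map_sum] at h1
    simp only [map_smul, Submodule.subtype_apply, smul_eq_mul] at h1
    exact h1.symm
  · intro c hc
    have h1 : (1 : GA K α) ∈ Q5_contr (FreeGroup.map (Sum.inl : α → α ⊕ β)) I := by
      rw [← hc]
      exact Submodule.sum_mem _ fun i _ => Submodule.smul_mem _ (c i) (b₁ i).2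
    have h2 : gmap K (FreeGroup.map (Sum.inl : α → α ⊕ β)) (1 : GA K α) ∈ I := h1
    rw [map_one] at h2
    exact hI ((Ideal.eq_top_iff_one I).2 h2)
  · intro c hc
    obtain ⟨Φ, hΦ, -⟩ := ext2 I hI
      (Q5_contr (FreeGroup.map (Sum.inl : α → α ⊕ β)) I)
      (Q5_contr (FreeGroup.map (Sum.inr : β → α ⊕ β)) I) (fun _ => Iff.rfl) (fun _ => Iff.rfl)
      (Q5_phi (FreeGroup.map (Sum.inl : α → α ⊕ β)) (b₁.constr ℕ c)) 0
    have h1 := hΦ _ hw₁
    have h2 : (b₁.constr ℕ c) ⟨_, hw₁⟩ = 1 := by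
      rw [Module.Basis.constr_apply_fintype (S := ℕ)]
      simp only [Module.Basis.equivFun_apply, smul_eq_mul]
      exact hc
    have h3 : Q5_phi (FreeGroup.map (Sum.inl : α → α ⊕ β)) (b₁.constr ℕ c) ⟨_, hw₁⟩ = 1 := by
      show gmap K (FreeGroup.map (Sum.inl : α → α ⊕ β)) ((b₁.constr ℕ c) ⟨_, hw₁⟩) = 1
      rw [h2, map_one]
    rw [h3] at h1
    refine ha (fun i => Φ (b i)) ?_
    rw [← h1]
    have h4 : (⟨gmap K (FreeGroup.map (Sum.inl : α → α ⊕ β))
        (MonoidAlgebra.of K (FreeGroup α) w - 1), hmem⟩ : I) = ∑ i, a i • b i := by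
      apply Subtype.ext
      rw [← Submodule.subtype_apply, ← Submodule.subtype_apply, map_sum]
      simp only [map_smul, Submodule.subtype_apply, smul_eq_mul]
      exact hg
    have h5 : Φ ⟨gmap K (FreeGroup.map (Sum.inl : α → α ⊕ β))
        (MonoidAlgebra.of K (FreeGroup α) w - 1), hmem⟩ = ∑ i, a i * Φ (b i) := by
      rw [h4, map_sum]
      simp only [map_smul, smul_eq_mul]
    exact h5.symm

end PrimRank
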