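import Mathlib

/-!
The Schreier basis of the kernel of a homomorphism to a cyclic group.

PROOF. Let `N = ker μ`, write `s : ZMod n → FreeGroup α`, `s i = t ^ i.val` (`0 ≤ i.val < n`), so `μ (s i) = i`. Let
`Y = {p : ZMod n × α // ¬ (p.2 = t ∧ p.1.val + 1 < n)}` (the edges `(i, x) : i → i + μ x` of the Schreier graph
which are not in the tree of the edges `(i, t)`, `i.val + 1 < n`). For all `(i, x)` let
`γ (i, x) = s i * of x * (s (i + μ x))⁻¹ ∈ N`; it is `1` for tree edges. Let `E : FreeGroup Y →* N` be the lift of `γ`.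
INVERSE. Consider the semidirect-like action: for `g : FreeGroup α` and `i : ZMod n` define `W i g : FreeGroup Y`
(the path word) by `W i (g h) = W i g * W (i + μ g) h`, `W i (of x) = (i, x)` if this is in `Y` and `1` otherwise.
Existence: the group `(ZMod n → FreeGroup Y) ⋊ (permutations of ZMod n)` or more simply
`FreeGroup.lift` to the group of permutations of `ZMod n × FreeGroup Y`:
`x ↦ ((i, u) ↦ (i - μ x, (letter (i - μ x, x)) * u))` or any equivalent bookkeeping device. Then for `g ∈ N` put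
`F g = W 0 g`: a homomorphism on `N`. `F ∘ E = id` on generators: `W 0 (s i) = 1`, since
`s i = t t ... t` uses only tree edges, hence also `W i (s i)⁻¹ = 1`, and `W 0 (γ (i, x)) = W i (of x)`.
`E ∘ F = id`: more generally `E (W i g) = s i * g * (s (i + μ g))⁻¹` for all `g` (true for generators, and both
sides satisfy the same rule). So `E` is an isomorphism `e`, `e.symm = F`.
LENGTH. `W 0 (mk L)` for a list `L` of letters is a product of at most `L.length` letters or inverses of letters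
(each letter of `L` contributes at most one). For `L = (t, true) :: L'` the first letter contributes
`W 0 (of t) = 1` because `(0, t)` is a tree edge (`0 + 1 < n`). So the norm is at most `L'.length`
(`FreeGroup.norm_mul_le`, `FreeGroup.norm_of`-like lemmas).
-/

namespace PrimRank

/-- The edges of the Schreier graph outside the tree. -/
private abbrev S1Y (α : Type) (n : ℕ) (t : α) : Type :=
  {p : ZMod n × α // ¬ (p.2 = t ∧ p.1.val + 1 < n)}

/-- The label of an edge. -/
private def s1Letter {α : Type} [DecidableEq α] (n : ℕ) (t : α) (i : ZMod n) (x : α) :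
    FreeGroup (S1Y α n t) :=
  if h : ¬ (x = t ∧ i.val + 1 < n) then FreeGroup.of ⟨(i, x), h⟩ else 1

private def s1Perm {α : Type} [DecidableEq α] (n : ℕ) (t : α) (ν : α → ZMod n) (x : α) :
    Equiv.Perm (ZMod n × FreeGroup (S1Y α n t)) where
  toFun p := (p.1 - ν x, s1Letter n t (p.1 - ν x) x * p.2)
  invFun p := (p.1 + ν x, (s1Letter n t p.1 x)⁻¹ * p.2)
  left_inv p := by simp
  right_inv p := by simp

private def s1Theta {α : Type} [DecidableEq α] (n : ℕ) (t : α) (ν : α → ZMod n) :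
    FreeGroup α →* Equiv.Perm (ZMod n × FreeGroup (S1Y α n t)) :=
  FreeGroup.lift (s1Perm n t ν)

section S1

variable {α : Type} [DecidableEq α] (n : ℕ) (t : α) (μ : FreeGroup α →* Multiplicative (ZMod n))

private def s1Nu (g : FreeGroup α) : ZMod n := Multiplicative.toAdd (μ g)

private theorem s1Nu_mul (g h : FreeGroup α) : s1Nu n μ (g * h) = s1Nu n μ g + s1Nu n μ h := by
  simp [s1Nu]

private theorem s1Nu_one : s1Nu n μ 1 = 0 := by
  simp [s1Nu]

private theorem s1Nu_inv (g : FreeGroup α) : s1Nu n μ g⁻¹ = - s1Nu n μ g := by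
  simp [s1Nu]

private def s1T : FreeGroup α →* Equiv.Perm (ZMod n × FreeGroup (S1Y α n t)) :=
  s1Theta n t (fun x => s1Nu n μ (FreeGroup.of x))

private theorem s1T_of (x : α) (p : ZMod n × FreeGroup (S1Y α n t)) :
    s1T n t μ (FreeGroup.of x) p = (p.1 - s1Nu n μ (FreeGroup.of x),
      s1Letter n t (p.1 - s1Nu n μ (FreeGroup.of x)) x * p.2) := by
  unfold s1T s1Theta
  rw [FreeGroup.lift_apply_of]
  rfl

private theorem s1T_inv_of (x : α) (p : ZMod n × FreeGroup (S1Y α n t)) :
    s1T n t μ (FreeGroup.of x)⁻¹ p = (p.1 + s1Nu n μ (FreeGroup.of x),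
      (s1Letter n t p.1 x)⁻¹ * p.2) := by
  unfold s1T s1Theta
  rw [map_inv, FreeGroup.lift_apply_of]
  rfl

private theorem s1T_apply (g : FreeGroup α) (i : ZMod n) (u : FreeGroup (S1Y α n t)) :
    s1T n t μ g (i, u) = (i - s1Nu n μ g, (s1T n t μ g (i, 1)).2 * u) := by
  induction g using FreeGroup.induction_on generalizing i u with
  | C1 => simp [s1Nu_one]
  | of x => simp [s1T_of]
  | inv_of x _ => rw [s1T_inv_of, s1T_inv_of, s1Nu_inv, sub_neg_eq_add, mul_one]
  | mul g h ihg ihh =>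
    rw [map_mul, Equiv.Perm.mul_apply, Equiv.Perm.mul_apply, ihh i u, ihg, ihh i 1,
      ihg _ ((s1T n t μ h (i, 1)).2 * 1), s1Nu_mul, mul_one]
    simp only [Prod.mk.injEq, mul_assoc, and_true]
    ring

private def s1W (i : ZMod n) (g : FreeGroup α) : FreeGroup (S1Y α n t) :=
  (s1T n t μ g (i + s1Nu n μ g, 1)).2

private theorem s1W_mul (i : ZMod n) (g h : FreeGroup α) :
    s1W n t μ i (g * h) = s1W n t μ i g * s1W n t μ (i + s1Nu n μ g) h := by
  unfold s1W
  rw [map_mul, Equiv.Perm.mul_apply, s1Nu_mul, s1T_apply n t μ h, s1T_apply n t μ g, ← add_assoc,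
    add_sub_cancel_right, mul_one]

private theorem s1W_one (i : ZMod n) : s1W n t μ i 1 = 1 := by
  simp [s1W]

private theorem s1W_of (i : ZMod n) (x : α) :
    s1W n t μ i (FreeGroup.of x) = s1Letter n t i x := by
  simp [s1W, s1T_of]

private theorem s1W_inv (i : ZMod n) (g : FreeGroup α) :
    s1W n t μ i g⁻¹ = (s1W n t μ (i - s1Nu n μ g) g)⁻¹ := by
  have h1 := s1W_mul n t μ i g⁻¹ g
  rw [inv_mul_cancel, s1W_one, s1Nu_inv, ← sub_eq_add_neg] at h1
  exact eq_inv_of_mul_eq_one_left h1.symm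

private def s1S (i : ZMod n) : FreeGroup α := FreeGroup.of t ^ i.val

private theorem s1Nu_S (hn : 2 ≤ n) (ht : μ (FreeGroup.of t) = Multiplicative.ofAdd 1)
    (i : ZMod n) : s1Nu n μ (s1S n t i) = i := by
  have : NeZero n := ⟨by omega⟩
  unfold s1Nu s1S
  rw [map_pow, ht, ← ofAdd_nsmul, toAdd_ofAdd, nsmul_eq_mul, mul_one, ZMod.natCast_zmod_val]

private theorem s1Nu_t (ht : μ (FreeGroup.of t) = Multiplicative.ofAdd 1) :
    s1Nu n μ (FreeGroup.of t) = 1 := by
  unfold s1Nu
  rw [ht, toAdd_ofAdd]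

private theorem s1S_zero : s1S n t (0 : ZMod n) = 1 := by
  simp [s1S]

private theorem s1_val_succ (hn : 2 ≤ n) (i : ZMod n) (hi : i.val + 1 < n) :
    (i + 1).val = i.val + 1 := by
  have : Fact (1 < n) := ⟨by omega⟩
  have : NeZero n := ⟨by omega⟩
  rw [ZMod.val_add, ZMod.val_one n, Nat.mod_eq_of_lt hi]

private theorem s1_gamma_mem (hn : 2 ≤ n) (ht : μ (FreeGroup.of t) = Multiplicative.ofAdd 1)
    (i : ZMod n) (g : FreeGroup α) :
    s1S n t i * g * (s1S n t (i + s1Nu n μ g))⁻¹ ∈ μ.ker := by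
  rw [MonoidHom.mem_ker]
  have h1 : s1Nu n μ (s1S n t i * g * (s1S n t (i + s1Nu n μ g))⁻¹) = 0 := by
    rw [s1Nu_mul, s1Nu_mul, s1Nu_inv, s1Nu_S n t μ hn ht, s1Nu_S n t μ hn ht]
    ring
  unfold s1Nu at h1
  exact h1

private theorem s1_nu_ker {g : FreeGroup α} (hg : g ∈ μ.ker) : s1Nu n μ g = 0 := by
  unfold s1Nu
  rw [MonoidHom.mem_ker.1 hg]
  rfl

private def s1E (hn : 2 ≤ n) (ht : μ (FreeGroup.of t) = Multiplicative.ofAdd 1) :
    FreeGroup (S1Y α n t) →* μ.ker :=
  FreeGroup.lift fun y => ⟨_, s1_gamma_mem n t μ hn ht y.1.1 (FreeGroup.of y.1.2)⟩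

private theorem s1E_W (hn : 2 ≤ n) (ht : μ (FreeGroup.of t) = Multiplicative.ofAdd 1)
    (g : FreeGroup α) (i : ZMod n) :
    (s1E n t μ hn ht (s1W n t μ i g) : FreeGroup α) =
      s1S n t i * g * (s1S n t (i + s1Nu n μ g))⁻¹ := by
  have hof : ∀ (x : α) (i : ZMod n), (s1E n t μ hn ht (s1W n t μ i (FreeGroup.of x)) :
      FreeGroup α) = s1S n t i * FreeGroup.of x * (s1S n t (i + s1Nu n μ (FreeGroup.of x)))⁻¹ := by
    intro x i
    rw [s1W_of]
    by_cases h : (x = t ∧ i.val + 1 < n)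
    · have h1 : s1Letter n t i x = 1 := by
        unfold s1Letter
        rw [dif_neg (not_not.2 h)]
      rw [h1, map_one, h.1, s1Nu_t n t μ ht]
      unfold s1S
      rw [s1_val_succ n hn i h.2, pow_succ]
      simp
    · have h1 : s1Letter n t i x = FreeGroup.of ⟨(i, x), h⟩ := by
        unfold s1Letter
        rw [dif_pos h]
      rw [h1]
      unfold s1E
      rw [FreeGroup.lift_apply_of]
  induction g using FreeGroup.induction_on generalizing i with
  | C1 => rw [s1W_one, map_one, s1Nu_one, add_zero, mul_one, mul_inv_cancel]; rfl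
  | of x => exact hof x i
  | inv_of x _ =>
    rw [s1W_inv, map_inv, Subgroup.coe_inv, hof, s1Nu_inv, sub_add_cancel, ← sub_eq_add_neg]
    group
  | mul g h ihg ihh =>
    rw [s1W_mul, map_mul, Subgroup.coe_mul, ihg, ihh, s1Nu_mul, add_assoc]
    group

private theorem s1W_S (hn : 2 ≤ n) (ht : μ (FreeGroup.of t) = Multiplicative.ofAdd 1)
    (i : ZMod n) : s1W n t μ 0 (s1S n t i) = 1 := by
  have : NeZero n := ⟨by omega⟩
  have key : ∀ k : ℕ, k < n → s1W n t μ 0 (FreeGroup.of t ^ k) = 1 := by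
    intro k
    induction k with
    | zero => intro _; rw [pow_zero, s1W_one]
    | succ k ih =>
      intro hk
      rw [pow_succ, s1W_mul, ih (by omega), one_mul, s1W_of, zero_add]
      have h1 : s1Nu n μ (FreeGroup.of t ^ k) = (k : ZMod n) := by
        unfold s1Nu
        rw [map_pow, ht, ← ofAdd_nsmul, toAdd_ofAdd, nsmul_eq_mul, mul_one]
      rw [h1]
      unfold s1Letter
      rw [dif_neg]
      rw [not_not]
      refine ⟨rfl, ?_⟩
      rw [ZMod.val_natCast_of_lt (by omega)]
      exact hk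
  exact key _ (ZMod.val_lt i)

private def s1F (g : μ.ker) : FreeGroup (S1Y α n t) := s1W n t μ 0 (g : FreeGroup α)

private theorem s1F_mul (g h : μ.ker) : s1F n t μ (g * h) = s1F n t μ g * s1F n t μ h := by
  unfold s1F
  rw [Subgroup.coe_mul, s1W_mul, s1_nu_ker n μ g.2, add_zero]

private def s1FHom : μ.ker →* FreeGroup (S1Y α n t) where
  toFun := s1F n t μ
  map_one' := by
    unfold s1F
    exact s1W_one n t μ 0
  map_mul' := s1F_mul n t μ

private theorem s1_EF (hn : 2 ≤ n) (ht : μ (FreeGroup.of t) = Multiplicative.ofAdd 1)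
    (g : μ.ker) : s1E n t μ hn ht (s1F n t μ g) = g := by
  apply Subtype.ext
  unfold s1F
  rw [s1E_W, s1_nu_ker n μ g.2, add_zero, s1S_zero, one_mul, inv_one, mul_one]

private theorem s1_FE (hn : 2 ≤ n) (ht : μ (FreeGroup.of t) = Multiplicative.ofAdd 1)
    (u : FreeGroup (S1Y α n t)) : s1F n t μ (s1E n t μ hn ht u) = u := by
  have h1 : (s1FHom n t μ).comp (s1E n t μ hn ht) = MonoidHom.id _ := by
    apply FreeGroup.ext_hom
    intro y
    show s1F n t μ (s1E n t μ hn ht (FreeGroup.of y)) = FreeGroup.of y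
    unfold s1E
    rw [FreeGroup.lift_apply_of]
    unfold s1F
    rw [s1W_mul, s1W_mul, s1W_S n t μ hn ht, s1Nu_mul, s1Nu_S n t μ hn ht, zero_add, one_mul,
      s1W_of, zero_add, s1W_inv, s1Nu_S n t μ hn ht, sub_self, s1W_S n t μ hn ht, inv_one, mul_one]
    unfold s1Letter
    rw [dif_pos y.2]
  exact DFunLike.congr_fun h1 u

private theorem s1_norm_letter (i : ZMod n) (x : α) : (s1Letter n t i x).norm ≤ 1 := by
  unfold s1Letter
  split_ifs
  · simp
  · simp

private theorem s1_norm_W (L : List (α × Bool)) :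
    ∀ i : ZMod n, (s1W n t μ i (FreeGroup.mk L)).norm ≤ L.length := by
  induction L with
  | nil =>
    intro i
    have h1 : (FreeGroup.mk [] : FreeGroup α) = 1 := rfl
    rw [h1, s1W_one]
    simp
  | cons a L ih =>
    intro i
    obtain ⟨x, b⟩ := a
    have h1 : (FreeGroup.mk ((x, b) :: L) : FreeGroup α) = FreeGroup.mk [(x, b)] * FreeGroup.mk L := by
      rw [FreeGroup.mul_mk]; rfl
    rw [h1, s1W_mul, List.length_cons]
    refine (FreeGroup.norm_mul_le _ _).trans ?_
    have h2 := ih (i + s1Nu n μ (FreeGroup.mk [(x, b)]))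
    have h3 : (s1W n t μ i (FreeGroup.mk [(x, b)])).norm ≤ 1 := by
      cases b with
      | true =>
        have h4 : (FreeGroup.mk [(x, true)] : FreeGroup α) = FreeGroup.of x := rfl
        rw [h4, s1W_of]
        exact s1_norm_letter n t i x
      | false =>
        have h4 : (FreeGroup.mk [(x, false)] : FreeGroup α) = (FreeGroup.of x)⁻¹ := rfl
        rw [h4, s1W_inv, FreeGroup.norm_inv_eq, s1W_of]
        exact s1_norm_letter n t _ x
    omega

end S1

theorem exists_ker_basis {α : Type} [DecidableEq α] (n : ℕ) (hn : 2 ≤ n)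
    (μ : FreeGroup α →* Multiplicative (ZMod n)) (t : α)
    (ht : μ (FreeGroup.of t) = Multiplicative.ofAdd 1) :
    ∃ (Y : Type) (_ : DecidableEq Y) (e : FreeGroup Y ≃* μ.ker),
      ∀ (L : List (α × Bool)) (hL : FreeGroup.mk ((t, true) :: L) ∈ μ.ker),
        (e.symm ⟨FreeGroup.mk ((t, true) :: L), hL⟩).norm ≤ L.length := by
  refine ⟨S1Y α n t, inferInstance,
    { toFun := s1E n t μ hn ht
      invFun := s1F n t μ
      left_inv := s1_FE n t μ hn ht
      right_inv := s1_EF n t μ hn ht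
      map_mul' := map_mul _ }, ?_⟩
  intro L hL
  show (s1W n t μ 0 (FreeGroup.mk ((t, true) :: L))).norm ≤ L.length
  have : NeZero n := ⟨by omega⟩
  have h1 : (FreeGroup.mk ((t, true) :: L) : FreeGroup α) = FreeGroup.of t * FreeGroup.mk L := by
    have : (FreeGroup.of t : FreeGroup α) = FreeGroup.mk [(t, true)] := rfl
    rw [this, FreeGroup.mul_mk]; rfl
  have h2 : s1Letter n t (0 : ZMod n) t = 1 := by
    unfold s1Letter
    rw [dif_neg]
    rw [not_not]
    refine ⟨rfl, ?_⟩
    rw [ZMod.val_zero]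
    omega
  rw [h1, s1W_mul, s1W_of, h2, one_mul]
  exact s1_norm_W n t μ L _

end PrimRank
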