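import Pool.Agent.Lib.MP_b8b21d_al.HN.Q1

/-!
Graded ideals and the kernel of the grading.

PROOF of `PP_of_graded`. Let `I = span (range c)`, `f₀ : FreeGroup Y →* FreeGroup α` the composition of `e` with the
inclusion, `j = gmap K f₀` (injective algebra map). Let `J = {f : GA K Y | j f ∈ I}`, a left ideal of `GA K Y`; by
`left_ideal_free` it has a basis `b` indexed by some `κ`. CLAIM: the `j (b k)` are a basis of `I` over `GA K α`.
Generation: for `f ∈ I`, `f` is the finite sum of its components `comp μ q f ∈ I`; if `comp μ q f ≠ 0` choose `g` with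
`μ g = q`; `g⁻¹ * comp μ q f ∈ I` has support in `ker μ`, so it is `j f'` with `f' ∈ J`, a combination of the `b k`.
Independence: let `∑ x k * j (b k) = 0`, `x k : GA K α`. For each `g` in a transversal of `FreeGroup α / ker μ`
(left cosets `g * ker μ` = fibres of `μ`), the component of degree `μ g` is `∑ (comp μ (μ g) (x k)) * j (b k) = 0`
(as `j (b k)` has degree `1`), `comp μ (μ g) (x k) = g * j (x' k)`, so `j (∑ x' k * b k) = 0` and all `x' k = 0`.
COUNT: as in `rank_le_of_span`, `I` is spanned by the `m` elements `c i`, so `κ` has at most `m` elements (apply the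
argument of `rank_le_of_span` to this basis of `I`, or compare with the basis it gives by invariance of rank).
Now `w' = e.symm ⟨w, _⟩`, `j (of w' - 1) = of w - 1 ∈ I`, so `of w' - 1 = ∑_k a k * b k` with `a k : GA K Y`. Write
`c i = ∑_k x i k * j (b k)`; comparing coefficients (basis of `I`) in `∑_k j (a k) * j (b k) = ∑_i d i * c i`:
`j (a k) = ∑_i d i * x i k`. If `∑ a k * y k = 1` then `∑_i d i * (∑_k x i k * j (y k)) = 1`: contradiction with `hd`.
If `∑ y k * b k = 1` then `1 ∈ I`: contradiction with `hc`. Finally `PP_mono`.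
`comp_mem_of_del`: for `f ∈ I` and `v : K` let `f_v` be the part of `f` supported on `{g : wgt l g = v}`. With the
Lagrange polynomial `p` which is `1` at `v` and `0` at the other (finitely many) values of `wgt l` on the support:
`f_v = p(del l) f ∈ I` (`I` is a `K`-subspace). By `hμ` the map `μ` is constant on `{g : wgt l g = v}`
(`wgt l (g⁻¹ h) = 0`), so `comp μ q f` is the sum of the `f_v` over the `v` with `μ`-value `q`.
-/

namespace PrimRank

open Classical in
/-- The component of degree `q`. -/
noncomputable def comp {K : Type*} [Field K] {α : Type} {L : Type} [Group L]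
    (μ : FreeGroup α →* L) (q : L) (f : GA K α) : GA K α :=
  MonoidAlgebra.ofCoeff (f.coeff.filter fun g => μ g = q)

section s2

variable {K : Type*} [Field K] {α : Type}

private noncomputable def s2_eps : GA K α →ₐ[K] K :=
  MonoidAlgebra.lift K K (FreeGroup α) 1

private noncomputable def s2_v {ι : Type} {I : Submodule (GA K α) (GA K α)}
    (b : Module.Basis ι (GA K α) I) (f : I) : ι →₀ K :=
  (b.repr f).mapRange (s2_eps (K := K) (α := α)) (map_zero _)

private theorem s2_v_add {ι : Type} {I : Submodule (GA K α) (GA K α)}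
    (b : Module.Basis ι (GA K α) I) (f g : I) : s2_v b (f + g) = s2_v b f + s2_v b g := by
  ext i
  simp [s2_v]

private theorem s2_v_smul {ι : Type} {I : Submodule (GA K α) (GA K α)}
    (b : Module.Basis ι (GA K α) I) (y : GA K α) (f : I) :
    s2_v b (y • f) = s2_eps y • s2_v b f := by
  ext i
  simp [s2_v]

private theorem s2_v_zero {ι : Type} {I : Submodule (GA K α) (GA K α)}
    (b : Module.Basis ι (GA K α) I) : s2_v b (0 : I) = 0 := by
  ext i
  simp [s2_v]

private theorem s2_v_basis {ι : Type} {I : Submodule (GA K α) (GA K α)}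
    (b : Module.Basis ι (GA K α) I) (i : ι) : s2_v b (b i) = Finsupp.single i 1 := by
  unfold s2_v
  rw [Module.Basis.repr_self, Finsupp.mapRange_single, map_one]

private theorem s2_card {ι : Type} (I : Submodule (GA K α) (GA K α)) {m : ℕ} (c : Fin m → GA K α)
    (hc : I = Submodule.span (GA K α) (Set.range c)) (b : Module.Basis ι (GA K α) I) :
    Finite ι ∧ Nat.card ι ≤ m := by
  classical
  have hcI : ∀ i, c i ∈ I := fun i => by
    rw [hc]
    exact Submodule.subset_span ⟨i, rfl⟩
  set u : Fin m → (ι →₀ K) := fun i => s2_v b ⟨c i, hcI i⟩ with hu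
  have hv : ∀ f : I, s2_v b f ∈ Submodule.span K (Set.range u) := by
    rintro ⟨f, hf⟩
    have hf' : f ∈ Submodule.span (GA K α) (Set.range c) := by
      rw [← hc]
      exact hf
    obtain ⟨y, hy⟩ := (Submodule.mem_span_range_iff_exists_fun (GA K α)).1 hf'
    have h1 : (⟨f, hf⟩ : I) = ∑ i, y i • (⟨c i, hcI i⟩ : I) := by
      apply Subtype.ext
      refine hy.symm.trans ?_
      simp
    rw [h1]
    have h2 : ∀ s : Finset (Fin m), s2_v b (∑ i ∈ s, y i • (⟨c i, hcI i⟩ : I)) ∈
        Submodule.span K (Set.range u) := by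
      intro s
      induction s using Finset.cons_induction with
      | empty =>
        rw [Finset.sum_empty, s2_v_zero]
        exact Submodule.zero_mem _
      | cons a s ha ih =>
        rw [Finset.sum_cons, s2_v_add, s2_v_smul]
        exact Submodule.add_mem _ (Submodule.smul_mem _ _ (Submodule.subset_span ⟨a, rfl⟩)) ih
    exact h2 _
  have htop : Submodule.span K (Set.range u) = ⊤ := by
    rw [eq_top_iff, ← (Finsupp.basisSingleOne (R := K) (ι := ι)).span_eq, Submodule.span_le]
    rintro _ ⟨i, rfl⟩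
    have h1 := hv (b i)
    rw [s2_v_basis] at h1
    rw [Finsupp.coe_basisSingleOne]
    exact h1
  have hfin : Module.Finite K (ι →₀ K) := by
    refine ⟨⟨Finset.univ.image u, ?_⟩⟩
    rw [Finset.coe_image, Finset.coe_univ, Set.image_univ]
    exact htop
  have hι : Finite ι := Module.Finite.finite_basis (Finsupp.basisSingleOne (R := K) (ι := ι))
  refine ⟨hι, ?_⟩
  rw [← Module.finrank_eq_nat_card_basis (Finsupp.basisSingleOne (R := K) (ι := ι)),
    ← finrank_top K (ι →₀ K), ← htop]
  have h1 := finrank_range_le_card (R := K) u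
  rw [Fintype.card_fin] at h1
  exact h1

variable {Y : Type} (f : FreeGroup Y →* FreeGroup α) (hf : Function.Injective f)

private theorem s2_gmap (z : GA K Y) : gmap K f z = MonoidAlgebra.mapDomain f z := rfl

private theorem s2_R_mul (x : GA K α) (z : GA K Y) :
    MonoidAlgebra.comapDomain f hf (x * MonoidAlgebra.mapDomain f z) =
      MonoidAlgebra.comapDomain f hf x * z := by
  induction z using MonoidAlgebra.induction_linear with
  | zero => rw [MonoidAlgebra.mapDomain_zero, mul_zero, MonoidAlgebra.comapDomain_zero, mul_zero]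
  | add z z' h h' =>
    rw [MonoidAlgebra.mapDomain_add, mul_add, MonoidAlgebra.comapDomain_add, h, h', mul_add]
  | single y b =>
    rw [MonoidAlgebra.mapDomain_single]
    apply MonoidAlgebra.coeff_injective
    ext h
    rw [MonoidAlgebra.coeff_comapDomain, Finsupp.comapDomain_apply,
      MonoidAlgebra.coeff_mul_single_apply, MonoidAlgebra.coeff_mul_single_apply,
      MonoidAlgebra.coeff_comapDomain, Finsupp.comapDomain_apply, map_mul f, map_inv f]

private theorem s2_R_sum {ι : Type*} (s : Finset ι) (F : ι → GA K α) :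
    MonoidAlgebra.comapDomain f hf (∑ i ∈ s, F i) =
      ∑ i ∈ s, MonoidAlgebra.comapDomain f hf (F i) :=
  map_sum (MonoidAlgebra.comapDomainAddMonoidHom (R := K) (f := f) hf) F s

private theorem s2_li (hf : Function.Injective f) {κ : Type} (b : κ → GA K Y)
    (hb : LinearIndependent (GA K Y) b) :
    LinearIndependent (GA K α) (fun k => gmap K f (b k)) := by
  classical
  rw [linearIndependent_iff'] at hb ⊢
  intro s l hl k hk
  apply MonoidAlgebra.coeff_injective
  ext g
  have h1 := hb s (fun k => MonoidAlgebra.comapDomain f hf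
    (MonoidAlgebra.single g⁻¹ (1 : K) * l k)) ?_ k hk
  · have h2 := congrArg (fun z : GA K Y => z.coeff 1) h1
    simp only [MonoidAlgebra.coeff_comapDomain, Finsupp.comapDomain_apply, map_one,
      MonoidAlgebra.coeff_single_mul_apply, inv_inv, mul_one, one_mul,
      MonoidAlgebra.coeff_zero, Finsupp.coe_zero, Pi.zero_apply] at h2
    rw [h2]
    rfl
  · have h3 : MonoidAlgebra.comapDomain f hf (MonoidAlgebra.single g⁻¹ (1 : K) *
        ∑ i ∈ s, l i • gmap K f (b i)) = 0 := by
      rw [hl, mul_zero, MonoidAlgebra.comapDomain_zero]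
    rw [Finset.mul_sum, s2_R_sum] at h3
    rw [← h3]
    refine Finset.sum_congr rfl fun i _ => ?_
    rw [smul_eq_mul, smul_eq_mul, s2_gmap, ← mul_assoc, s2_R_mul]

end s2

section s2b

variable {K : Type*} [Field K] {α : Type} {L : Type} [Group L] (μ : FreeGroup α →* L)

private theorem s2_comp_coeff (q : L) (f : GA K α) (g : FreeGroup α) [Decidable (μ g = q)] :
    (comp μ q f).coeff g = if μ g = q then f.coeff g else 0 := by
  unfold comp
  rw [MonoidAlgebra.coeff_ofCoeff, Finsupp.filter_apply]
  split_ifs <;> rfl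

private theorem s2_sum_comp [DecidableEq L] (f : GA K α) :
    ∑ q ∈ f.coeff.support.image μ, comp μ q f = f := by
  apply MonoidAlgebra.coeff_injective
  ext g
  rw [MonoidAlgebra.coeff_sum, Finsupp.finsetSum_apply]
  by_cases hg : f.coeff g = 0
  · rw [hg]
    refine Finset.sum_eq_zero fun q _ => ?_
    rw [s2_comp_coeff]
    split_ifs
    · exact hg
    · rfl
  · rw [Finset.sum_eq_single (μ g)]
    · rw [s2_comp_coeff, if_pos rfl]
    · intro q _ hq
      rw [s2_comp_coeff, if_neg (fun h => hq h.symm)]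
    · intro h
      exact absurd (Finset.mem_image_of_mem μ (Finsupp.mem_support_iff.2 hg)) h

variable {Y : Type} (f : FreeGroup Y →* FreeGroup α) (hf : Function.Injective f)
  (hr : ∀ g, μ g = 1 → ∃ y, f y = g)

private theorem s2_basis {κ : Type} (I : Submodule (GA K α) (GA K α))
    (J : Submodule (GA K Y) (GA K Y)) (hJ : ∀ z, z ∈ J ↔ gmap K f z ∈ I)
    (hf : Function.Injective f) (hr : ∀ g, μ g = 1 → ∃ y, f y = g)
    (hgr : ∀ z ∈ I, ∀ q : L, comp μ q z ∈ I) (b : Module.Basis κ (GA K Y) J) :
    ∃ B : Module.Basis κ (GA K α) I, ∀ k, (B k : GA K α) = gmap K f (b k : GA K Y) := by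
  classical
  have hb : LinearIndependent (GA K Y) (fun k => (b k : GA K Y)) :=
    b.linearIndependent.map' J.subtype (Submodule.ker_subtype J)
  have h1 := s2_li f hf (fun k => (b k : GA K Y)) hb
  have hmem : ∀ k, gmap K f (b k : GA K Y) ∈ I := fun k => (hJ _).1 (b k).2
  have h2 : LinearIndependent (GA K α) (fun k => (⟨gmap K f (b k : GA K Y), hmem k⟩ : I)) :=
    LinearIndependent.of_comp I.subtype h1
  have h3 : ∀ z ∈ I, z ∈ Submodule.span (GA K α) (Set.range fun k => gmap K f (b k : GA K Y)) := by
    intro z hz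
    rw [← s2_sum_comp μ z]
    refine Submodule.sum_mem _ fun q hq => ?_
    obtain ⟨g, hg, rfl⟩ := Finset.mem_image.1 hq
    set x : GA K α := MonoidAlgebra.single g⁻¹ (1 : K) * comp μ (μ g) z with hx
    have hxI : x ∈ I := I.smul_mem (MonoidAlgebra.single g⁻¹ (1 : K)) (hgr z hz (μ g))
    have hsupp : (x.coeff.support : Set (FreeGroup α)) ⊆ Set.range f := by
      intro h hh
      rw [Finset.mem_coe, Finsupp.mem_support_iff] at hh
      rw [hx, MonoidAlgebra.coeff_single_mul_apply, inv_inv, one_mul, s2_comp_coeff] at hh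
      have h4 : μ (g * h) = μ g := by
        by_contra hne
        exact hh (if_neg hne)
      rw [map_mul, mul_eq_left] at h4
      exact hr h h4
    have hjx : gmap K f (MonoidAlgebra.comapDomain f hf x) = x := by
      rw [s2_gmap]
      exact MonoidAlgebra.mapDomain_comapDomain hsupp hf
    have hJx : MonoidAlgebra.comapDomain f hf x ∈ J := by
      rw [hJ, hjx]
      exact hxI
    have h5 := b.linearCombination_repr ⟨_, hJx⟩
    rw [Finsupp.linearCombination_apply, Finsupp.sum] at h5
    have h6 := congrArg Subtype.val h5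
    simp only [AddSubmonoidClass.coe_finsetSum, Submodule.coe_smul, smul_eq_mul] at h6
    have h7 : x = ∑ k ∈ (b.repr ⟨_, hJx⟩).support, gmap K f (b.repr ⟨_, hJx⟩ k) *
        gmap K f (b k : GA K Y) := by
      have h10 := congrArg (gmap K f) h6
      rw [hjx, map_sum] at h10
      refine h10.symm.trans (Finset.sum_congr rfl fun k _ => ?_)
      rw [map_mul]
    have h8 : x ∈ Submodule.span (GA K α) (Set.range fun k => gmap K f (b k : GA K Y)) := by
      rw [h7]
      refine Submodule.sum_mem _ fun k _ => ?_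
      exact Submodule.smul_mem _ _ (Submodule.subset_span ⟨k, rfl⟩)
    have h9 : comp μ (μ g) z = MonoidAlgebra.single g (1 : K) • x := by
      rw [hx, smul_eq_mul, ← mul_assoc, MonoidAlgebra.single_mul_single, mul_inv_cancel, one_mul,
        ← MonoidAlgebra.one_def, one_mul]
    rw [h9]
    exact Submodule.smul_mem _ _ h8
  have h4 : ⊤ ≤ Submodule.span (GA K α)
      (Set.range fun k => (⟨gmap K f (b k : GA K Y), hmem k⟩ : I)) := by
    rintro ⟨z, hz⟩ -
    have h5 := h3 z hz
    have h6 : (Set.range fun k => gmap K f (b k : GA K Y)) =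
        I.subtype '' (Set.range fun k => (⟨gmap K f (b k : GA K Y), hmem k⟩ : I)) := by
      rw [← Set.range_comp]
      rfl
    rw [h6, Submodule.span_image, Submodule.mem_map] at h5
    obtain ⟨z', h7, h8⟩ := h5
    have h9 : z' = ⟨z, hz⟩ := Subtype.ext h8
    rw [← h9]
    exact h7
  exact ⟨Module.Basis.mk h2 h4, fun k => by rw [Module.Basis.mk_apply]⟩

end s2b

theorem PP_of_graded {K : Type*} [Field K] {α : Type} {L : Type} [Group L]
    (μ : FreeGroup α →* L) {Y : Type} (e : FreeGroup Y ≃* μ.ker) {m : ℕ}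
    (c d : Fin m → GA K α) (w : FreeGroup α) (hw : w ∈ μ.ker)
    (hwd : MonoidAlgebra.of K (FreeGroup α) w - 1 = ∑ i, d i * c i)
    (hc : ∀ y : Fin m → GA K α, ∑ i, y i * c i ≠ 1)
    (hd : ∀ y : Fin m → GA K α, ∑ i, d i * y i ≠ 1)
    (hgr : ∀ f ∈ Submodule.span (GA K α) (Set.range c), ∀ q : L,
      comp μ q f ∈ Submodule.span (GA K α) (Set.range c)) :
    PP K (e.symm ⟨w, hw⟩) m := by
  classical
  set f : FreeGroup Y →* FreeGroup α := μ.ker.subtype.comp (e : FreeGroup Y →* μ.ker) with hfdef
  have hf : Function.Injective f := μ.ker.subtype_injective.comp e.injective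
  have hfe : ∀ (g : FreeGroup α) (hg : g ∈ μ.ker), f (e.symm ⟨g, hg⟩) = g := by
    intro g hg
    show ((e (e.symm ⟨g, hg⟩) : μ.ker) : FreeGroup α) = g
    rw [MulEquiv.apply_symm_apply]
  have hr : ∀ g, μ g = 1 → ∃ y, f y = g := fun g hg => ⟨_, hfe g hg⟩
  set I : Submodule (GA K α) (GA K α) := Submodule.span (GA K α) (Set.range c) with hI
  let J : Submodule (GA K Y) (GA K Y) :=
    { carrier := {z | gmap K f z ∈ I}
      add_mem' := fun {a b} ha hb => by
        show gmap K f (a + b) ∈ I
        rw [map_add]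
        exact I.add_mem ha hb
      zero_mem' := by
        show gmap K f 0 ∈ I
        rw [map_zero]
        exact I.zero_mem
      smul_mem' := fun a z hz => by
        show gmap K f (a * z) ∈ I
        rw [map_mul]
        exact I.smul_mem _ hz }
  have hJ : ∀ z, z ∈ J ↔ gmap K f z ∈ I := fun z => Iff.rfl
  obtain ⟨κ, ⟨b₁⟩⟩ := left_ideal_free J
  obtain ⟨B₁, -⟩ := s2_basis μ f I J hJ hf hr hgr b₁
  obtain ⟨hfin, hcard⟩ := s2_card I c hI B₁
  let b : Module.Basis (Fin (Nat.card κ)) (GA K Y) J := b₁.reindex (Finite.equivFin κ)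
  obtain ⟨B, hB⟩ := s2_basis μ f I J hJ hf hr hgr b
  have hwf : gmap K f (MonoidAlgebra.of K _ (e.symm ⟨w, hw⟩) - 1) =
      MonoidAlgebra.of K (FreeGroup α) w - 1 := by
    rw [map_sub, map_one, MonoidAlgebra.of_apply, s2_gmap, MonoidAlgebra.mapDomain_single,
      hfe w hw, MonoidAlgebra.of_apply]
  have hwI : MonoidAlgebra.of K (FreeGroup α) w - 1 ∈ I := by
    rw [hwd]
    exact Submodule.sum_mem _ fun i _ => Submodule.smul_mem _ _ (Submodule.subset_span ⟨i, rfl⟩)
  have hwJ : MonoidAlgebra.of K _ (e.symm ⟨w, hw⟩) - 1 ∈ J := by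
    rw [hJ, hwf]
    exact hwI
  set a : Fin (Nat.card κ) → GA K Y := fun k => b.repr ⟨_, hwJ⟩ k with ha
  have haw : MonoidAlgebra.of K _ (e.symm ⟨w, hw⟩) - 1 = ∑ k, a k * (b k : GA K Y) := by
    have h1 := congrArg Subtype.val (b.sum_repr ⟨_, hwJ⟩)
    simp only [AddSubmonoidClass.coe_finsetSum, Submodule.coe_smul, smul_eq_mul] at h1
    exact h1.symm
  refine PP_mono hcard ⟨a, fun k => (b k : GA K Y), haw, fun y hy => ?_, fun y hy => ?_⟩
  · have h1 : (1 : GA K Y) ∈ J := by
      rw [← hy]
      exact Submodule.sum_mem _ fun k _ => Submodule.smul_mem _ _ (b k).2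
    rw [hJ, map_one] at h1
    obtain ⟨z, hz⟩ := (Submodule.mem_span_range_iff_exists_fun (GA K α)).1 h1
    exact hc z hz
  · have hcI : ∀ i, c i ∈ I := fun i => Submodule.subset_span ⟨i, rfl⟩
    have h2 : (∑ k, gmap K f (a k) • B k) = ∑ i, d i • (⟨c i, hcI i⟩ : I) := by
      apply Subtype.ext
      simp only [AddSubmonoidClass.coe_finsetSum, Submodule.coe_smul, smul_eq_mul]
      rw [← hwd, ← hwf, haw, map_sum]
      refine Finset.sum_congr rfl fun k _ => ?_
      rw [map_mul, hB]
    have h3 : ∀ k, gmap K f (a k) = ∑ i, d i * B.repr ⟨c i, hcI i⟩ k := by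
      intro k
      have h4 := congrArg (fun z => B.repr z k) h2
      simp only [Module.Basis.repr_sum_self] at h4
      rw [h4, map_sum, Finsupp.finsetSum_apply]
      refine Finset.sum_congr rfl fun i _ => ?_
      rw [map_smul, Finsupp.smul_apply, smul_eq_mul]
    refine hd (fun i => ∑ k, B.repr ⟨c i, hcI i⟩ k * gmap K f (y k)) ?_
    have h5 := congrArg (gmap K f) hy
    rw [map_one, map_sum] at h5
    rw [← h5]
    simp only [Finset.mul_sum]
    rw [Finset.sum_comm]
    refine Finset.sum_congr rfl fun k _ => ?_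
    rw [map_mul, h3, Finset.sum_mul]
    exact Finset.sum_congr rfl fun i _ => (mul_assoc _ _ _).symm

end PrimRank
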