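import Pool.Agent.Lib.MP_b8b21d_al.HN.S2

/-!
Ideals stable under `del l` are graded. The proof is in the header of S2.lean (`comp_mem_of_del`).

`exists_coarse`: let `M` be the additive subgroup of `K` generated by the `l x`, `x : α` (finitely generated); `wgt l`
takes values in `M`. (1) If `K` has characteristic `p > 0`: `K` is a vector space over `ZMod p`; choose a
`ZMod p`-linear functional `f` on `K` with `f (l t) = 1` and `n = p`. (2) Characteristic `0`: `M` is a finitely generated
torsion-free abelian group, so it is free (`Module.Free ℤ M`, `Module.finite`), choose a basis; some coordinate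
`κ (l t) ≠ 0`; choose a prime `n > |κ (l t)|`, and `f = (κ mod n) * (κ (l t) mod n)⁻¹`. In both cases
`μ g = ofAdd (f (wgt l g))`.
-/

namespace PrimRank

open Polynomial

theorem s5_del_coeff {K : Type*} [Field K] {α : Type} (l : α → K) (f : GA K α)
    (h : FreeGroup α) : (del l f).coeff h = wgt l h * f.coeff h := by
  have key : ∀ F : FreeGroup α →₀ K,
      (Finsupp.lsum K (fun g : FreeGroup α =>
        (wgt l g • Finsupp.lsingle g : K →ₗ[K] (FreeGroup α →₀ K))) F) h =
        wgt l h * F h := by
    intro F
    induction F using Finsupp.induction_linear with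
    | zero => simp
    | add F G hF hG => rw [map_add, Finsupp.add_apply, hF, hG, Finsupp.add_apply, mul_add]
    | single g c =>
      rw [Finsupp.lsum_single]
      simp only [LinearMap.smul_apply, Finsupp.lsingle_apply, Finsupp.smul_apply, smul_eq_mul]
      by_cases hg : g = h
      · rw [hg]
      · rw [Finsupp.single_eq_of_ne (Ne.symm hg)]; simp
  exact key f.coeff

theorem s5_aeval_coeff {K : Type*} [Field K] {α : Type} (l : α → K) (f : GA K α)
    (p : K[X]) (h : FreeGroup α) :
    (aeval (del l) p f).coeff h = p.eval (wgt l h) * f.coeff h := by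
  have hpow : ∀ n : ℕ, ((del l ^ n) f).coeff h = wgt l h ^ n * f.coeff h := by
    intro n
    induction n with
    | zero => simp
    | succ n ih =>
      rw [pow_succ', Module.End.mul_apply, s5_del_coeff, ih, pow_succ]
      ring
  induction p using Polynomial.induction_on' with
  | add p q hp hq =>
    rw [map_add, LinearMap.add_apply, MonoidAlgebra.coeff_add, Finsupp.add_apply, hp, hq,
      Polynomial.eval_add, add_mul]
  | monomial n a =>
    rw [Polynomial.aeval_monomial, Polynomial.eval_monomial, ← Algebra.smul_def,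
      LinearMap.smul_apply, MonoidAlgebra.coeff_smul_apply, hpow, smul_eq_mul, mul_assoc]

theorem s5_aeval_mem {K : Type*} [Field K] {α : Type} (l : α → K)
    (I : Submodule (GA K α) (GA K α)) (hI : ∀ f ∈ I, del l f ∈ I) (f : GA K α) (hf : f ∈ I)
    (p : K[X]) : aeval (del l) p f ∈ I := by
  have hsm : ∀ (a : K) (x : GA K α), x ∈ I → a • x ∈ I := by
    intro a x hx
    have : a • x = (a • (1 : GA K α)) • x := by rw [smul_eq_mul, smul_mul_assoc, one_mul]
    rw [this]
    exact I.smul_mem _ hx
  have hpow : ∀ n : ℕ, (del l ^ n) f ∈ I := by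
    intro n
    induction n with
    | zero => simpa using hf
    | succ n ih =>
      rw [pow_succ', Module.End.mul_apply]
      exact hI _ ih
  induction p using Polynomial.induction_on' with
  | add p q hp hq =>
    rw [map_add, LinearMap.add_apply]
    exact I.add_mem hp hq
  | monomial n a =>
    rw [Polynomial.aeval_monomial, ← Algebra.smul_def, LinearMap.smul_apply]
    exact hsm _ _ (hpow n)

/-- the weight as a homomorphism -/
noncomputable def s5W {K : Type*} [Field K] {α : Type} (l : α → K) :
    FreeGroup α →* Multiplicative K :=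
  FreeGroup.lift (fun x => Multiplicative.ofAdd (l x))

theorem s5W_wgt {K : Type*} [Field K] {α : Type} (l : α → K) (g : FreeGroup α) :
    wgt l g = Multiplicative.toAdd (s5W l g) := rfl

theorem s5_wgt_mul {K : Type*} [Field K] {α : Type} (l : α → K) (g h : FreeGroup α) :
    wgt l (g * h) = wgt l g + wgt l h := by
  rw [s5W_wgt, s5W_wgt, s5W_wgt, map_mul, toAdd_mul]

theorem s5_wgt_inv {K : Type*} [Field K] {α : Type} (l : α → K) (g : FreeGroup α) :
    wgt l g⁻¹ = - wgt l g := by
  rw [s5W_wgt, s5W_wgt, map_inv, toAdd_inv]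

theorem comp_mem_of_del {K : Type*} [Field K] {α : Type} (l : α → K)
    (I : Submodule (GA K α) (GA K α)) (hI : ∀ f ∈ I, del l f ∈ I) {L : Type} [Group L]
    (μ : FreeGroup α →* L) (hμ : ∀ g, wgt l g = 0 → μ g = 1) (f : GA K α) (hf : f ∈ I) (q : L) :
    comp μ q f ∈ I := by
  classical
  set W : Finset K := f.coeff.support.image (wgt l) with hW
  set r : K → K := fun v => if ∃ h, wgt l h = v ∧ μ h = q then 1 else 0 with hr
  set p : K[X] := Lagrange.interpolate W id r with hp
  have h1 : comp μ q f = aeval (del l) p f := by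
    refine MonoidAlgebra.ext (Finsupp.ext ?_)
    intro g
    rw [s5_aeval_coeff]
    unfold comp
    rw [MonoidAlgebra.coeff_ofCoeff, Finsupp.filter_apply]
    by_cases hg : f.coeff g = 0
    · rw [hg, mul_zero]; simp
    · have hmem : wgt l g ∈ W := Finset.mem_image_of_mem _ (Finsupp.mem_support_iff.2 hg)
      have h2 : p.eval (wgt l g) = r (wgt l g) :=
        Lagrange.eval_interpolate_at_node r (v := id) (Set.injOn_id _) hmem
      have h3 : (∃ h, wgt l h = wgt l g ∧ μ h = q) ↔ μ g = q := by
        constructor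
        · rintro ⟨h, h4, h5⟩
          have h6 : μ (g⁻¹ * h) = 1 := by
            apply hμ
            rw [s5_wgt_mul, s5_wgt_inv, h4]
            ring
          rw [map_mul, map_inv, inv_mul_eq_one] at h6
          rw [h6, h5]
        · intro h; exact ⟨g, rfl, h⟩
      rw [h2, hr]
      simp only [h3]
      split_ifs <;> simp
  rw [h1]
  exact s5_aeval_mem l I hI f hf p

theorem exists_coarse {K : Type*} [Field K] {α : Type} [Finite α] (l : α → K) (t : α)
    (ht : l t ≠ 0) :
    ∃ n : ℕ, 2 ≤ n ∧ ∃ μ : FreeGroup α →* Multiplicative (ZMod n),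
      μ (FreeGroup.of t) = Multiplicative.ofAdd 1 ∧ ∀ g, wgt l g = 0 → μ g = 1 := by
  classical
  have hgen : ∀ (M : Type _) [AddCommGroup M] (i : M →+ K) (y : α → M) (n : ℕ) (f : M →+ ZMod n),
      Function.Injective i → (∀ x, i (y x) = l x) → f (y t) = 1 →
      ∃ μ : FreeGroup α →* Multiplicative (ZMod n),
        μ (FreeGroup.of t) = Multiplicative.ofAdd 1 ∧ ∀ g, wgt l g = 0 → μ g = 1 := by
    intro M _ i y n f hi hy hf
    set W' : FreeGroup α →* Multiplicative M :=
      FreeGroup.lift (fun x => Multiplicative.ofAdd (y x)) with hW'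
    have h1 : (AddMonoidHom.toMultiplicative i).comp W' = s5W l := by
      apply FreeGroup.ext_hom
      intro x
      rw [MonoidHom.comp_apply, hW', FreeGroup.lift_apply_of]
      unfold s5W
      rw [FreeGroup.lift_apply_of, ← hy x]
      rfl
    refine ⟨(AddMonoidHom.toMultiplicative f).comp W', ?_, ?_⟩
    · rw [MonoidHom.comp_apply, hW', FreeGroup.lift_apply_of, ← hf]
      rfl
    · intro g hg
      have h2 : i (Multiplicative.toAdd (W' g)) = 0 := by
        rw [← hg, s5W_wgt, ← h1]
        rfl
      have h3 : Multiplicative.toAdd (W' g) = 0 := hi (by rw [h2, map_zero])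
      have h4 : W' g = 1 := h3
      rw [MonoidHom.comp_apply, h4, map_one]
  obtain ⟨p, hp⟩ := CharP.exists K
  rcases CharP.char_is_prime_or_zero K p with hpp | rfl
  · -- positive characteristic
    have : Fact p.Prime := ⟨hpp⟩
    let _ : Algebra (ZMod p) K := ZMod.algebra K p
    obtain ⟨φ, hφ⟩ : ∃ φ : Module.Dual (ZMod p) K, φ (l t) ≠ 0 := by
      by_contra hcon
      push Not at hcon
      exact ht ((Module.forall_dual_apply_eq_zero_iff (ZMod p) (l t)).1 hcon)
    refine ⟨p, hpp.two_le, hgen K (AddMonoidHom.id K) l p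
      (((φ (l t))⁻¹ • φ).toAddMonoidHom) (fun a b h => h) (fun x => rfl) ?_⟩
    change (φ (l t))⁻¹ • φ (l t) = 1
    rw [smul_eq_mul]
    exact inv_mul_cancel₀ hφ
  · have : CharZero K := CharP.charP_to_charZero K
    set M : Submodule ℤ K := Submodule.span ℤ (Set.range l) with hM
    have hfin : Module.Finite ℤ M := Module.Finite.span_of_finite ℤ (Set.finite_range l)
    have hfree : Module.Free ℤ M := inferInstance
    set y : α → M := fun x => ⟨l x, Submodule.subset_span ⟨x, rfl⟩⟩ with hy
    have hyt : y t ≠ 0 := by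
      intro h
      exact ht (congrArg Subtype.val h)
    obtain ⟨φ, hφ⟩ : ∃ φ : Module.Dual ℤ M, φ (y t) ≠ 0 := by
      by_contra hcon
      push Not at hcon
      exact hyt ((Module.forall_dual_apply_eq_zero_iff ℤ (y t)).1 hcon)
    obtain ⟨n, hn, hnp⟩ := Nat.exists_infinite_primes ((φ (y t)).natAbs + 1)
    have : Fact n.Prime := ⟨hnp⟩
    have hne : ((φ (y t) : ℤ) : ZMod n) ≠ 0 := by
      intro h
      have h1 := (ZMod.intCast_zmod_eq_zero_iff_dvd _ n).1 h
      have h2 := Int.natAbs_dvd_natAbs.2 h1
      rw [Int.natAbs_natCast] at h2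
      have h3 := Nat.le_of_dvd (Int.natAbs_pos.2 hφ) h2
      omega
    set f : M →+ ZMod n := (AddMonoidHom.mulRight (((φ (y t) : ℤ) : ZMod n)⁻¹)).comp
      ((Int.castAddHom (ZMod n)).comp φ.toAddMonoidHom) with hf
    refine ⟨n, hnp.two_le, hgen M M.subtype.toAddMonoidHom y n f ?_ (fun x => rfl) ?_⟩
    · exact Subtype.val_injective
    · change ((φ (y t) : ℤ) : ZMod n) * ((φ (y t) : ℤ) : ZMod n)⁻¹ = 1
      exact mul_inv_cancel₀ hne

end PrimRank
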