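import Pool.Agent.Lib.MP_b8b21d_al.E5

/-!
Words.

PROOFS. `exists_rotate`: write `w.toWord = L₁ ++ (t, b) :: L₂`. If `b = true` let `g = mk L₁`, so
`g⁻¹ w g = mk ((t, true) :: (L₂ ++ L₁))`. If `b = false` let `g = mk (L₁ ++ [(t, false)])`, so
`g⁻¹ w g = mk (L₂ ++ L₁ ++ [(t, false)])` and its inverse `g⁻¹ w⁻¹ g = mk ((t, true) :: inverse word of (L₂ ++ L₁))`
(`FreeGroup.invRev`).
`exists_support`: let `S` be the finite set of letters of `w.toWord`, `Fin n ≃ S`, `β = {x // x ∉ S}`,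
`e` from the bijection `Fin n ⊕ β ≃ α` (`FreeGroup.freeGroupCongr`), `w₀ = mk` of the word with the letters read
in `Fin n`; it is reduced because the bijection is injective, so `w₀.toWord` is this word.
`primRank_map_le`: image of the subgroup `H` under the injective `f` (`H.map f`, `Subgroup.equivMapOfInjective`);
see `e5_le` in E5.lean. `primRank_inv`: the same subgroups; `x` is primitive iff `x⁻¹` is primitive (invert one
basis element: compose the basis with the automorphism of the free group inverting a generator).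
-/

namespace PrimRank

theorem exists_rotate {α : Type} [DecidableEq α] (w : FreeGroup α) (t : α)
    (ht : ∃ b, (t, b) ∈ w.toWord) :
    ∃ (g : FreeGroup α) (L : List (α × Bool)), L.length + 1 = w.norm ∧
      (g⁻¹ * w * g = FreeGroup.mk ((t, true) :: L) ∨
        g⁻¹ * w⁻¹ * g = FreeGroup.mk ((t, true) :: L)) := by
  obtain ⟨b, hb⟩ := ht
  obtain ⟨L₁, L₂, hL⟩ := List.append_of_mem hb
  have hw : w = FreeGroup.mk L₁ * FreeGroup.mk ((t, b) :: L₂) := by
    rw [FreeGroup.mul_mk, ← hL, FreeGroup.mk_toWord]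
  have hn : w.norm = L₁.length + (L₂.length + 1) := by
    rw [FreeGroup.norm, hL, List.length_append, List.length_cons]
  cases b with
  | true =>
    refine ⟨FreeGroup.mk L₁, L₂ ++ L₁, ?_, Or.inl ?_⟩
    · rw [hn, List.length_append]; omega
    · have h2 : FreeGroup.mk ((t, true) :: (L₂ ++ L₁)) =
          FreeGroup.mk ((t, true) :: L₂) * FreeGroup.mk L₁ := by
        rw [FreeGroup.mul_mk]; rfl
      rw [h2, hw]
      group
  | false =>
    refine ⟨FreeGroup.mk L₁ * FreeGroup.mk [(t, false)], FreeGroup.invRev (L₂ ++ L₁), ?_,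
      Or.inr ?_⟩
    · rw [hn, FreeGroup.invRev_length, List.length_append]; omega
    · have h2 : FreeGroup.mk ((t, false) :: L₂) =
          FreeGroup.mk [(t, false)] * FreeGroup.mk L₂ := by
        rw [FreeGroup.mul_mk]; rfl
      have h3 : FreeGroup.mk ((t, true) :: FreeGroup.invRev (L₂ ++ L₁)) =
          (FreeGroup.mk [(t, false)])⁻¹ * (FreeGroup.mk L₂ * FreeGroup.mk L₁)⁻¹ := by
        rw [FreeGroup.mul_mk, FreeGroup.inv_mk, FreeGroup.inv_mk, FreeGroup.mul_mk]
        rfl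
      rw [h3, hw, h2]
      group

private theorem s6_lift {α ι : Type} (f : ι → α) :
    ∀ L : List (α × Bool), (∀ p ∈ L, ∃ i, f i = p.1) →
      ∃ L₀ : List (ι × Bool), L₀.map (fun p => (f p.1, p.2)) = L
  | [], _ => ⟨[], rfl⟩
  | p :: L, h => by
    obtain ⟨i, hi⟩ := h p List.mem_cons_self
    obtain ⟨L₀, hL₀⟩ := s6_lift f L fun q hq => h q (List.mem_cons_of_mem _ hq)
    refine ⟨(i, p.2) :: L₀, ?_⟩
    rw [List.map_cons, hL₀, hi]

private theorem s6_toWord {α ι : Type} [DecidableEq α] [DecidableEq ι] (f : ι → α)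
    (w : FreeGroup α) (L₀ : List (ι × Bool))
    (h : L₀.map (fun p => (f p.1, p.2)) = w.toWord) : (FreeGroup.mk L₀).toWord = L₀ := by
  rw [FreeGroup.toWord_mk]
  have h1 : FreeGroup.IsReduced (L₀.map (fun p => (f p.1, p.2))) := by
    rw [h]; exact FreeGroup.isReduced_toWord
  have h2 : FreeGroup.IsReduced L₀ := by
    unfold FreeGroup.IsReduced at h1 ⊢
    rw [List.isChain_map] at h1
    refine h1.imp fun a b hab h' => hab ?_
    exact congrArg f h'
  exact h2.reduce_eq

theorem exists_support {α : Type} [DecidableEq α] (w : FreeGroup α) :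
    ∃ (n : ℕ) (β : Type) (e : FreeGroup (Fin n ⊕ β) ≃* FreeGroup α) (w₀ : FreeGroup (Fin n)),
      w = e (FreeGroup.map Sum.inl w₀) ∧ w₀.norm = w.norm ∧
      ∀ t : Fin n, ∃ b, (t, b) ∈ w₀.toWord := by
  set S : Finset α := (w.toWord.map Prod.fst).toFinset with hS
  let e₀ : Fin S.card ≃ {x // x ∈ S} := S.equivFin.symm
  let σ : Fin S.card ⊕ {x // x ∉ S} ≃ α :=
    (Equiv.sumCongr e₀ (Equiv.refl _)).trans (Equiv.sumCompl (fun x => x ∈ S))
  have hσ : ∀ i, σ (Sum.inl i) = (e₀ i : α) := fun i => rfl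
  have hinj : Function.Injective fun i : Fin S.card => (e₀ i : α) :=
    Subtype.val_injective.comp e₀.injective
  obtain ⟨L₀, hL₀⟩ := s6_lift (fun i : Fin S.card => (e₀ i : α)) w.toWord (fun p hp => by
    have h1 : p.1 ∈ S := by
      rw [hS, List.mem_toFinset]
      exact List.mem_map_of_mem hp
    exact ⟨e₀.symm ⟨p.1, h1⟩, by simp⟩)
  have hw : (FreeGroup.mk L₀).toWord = L₀ := s6_toWord (fun i : Fin S.card => (e₀ i : α)) w L₀ hL₀
  refine ⟨S.card, {x // x ∉ S}, FreeGroup.freeGroupCongr σ, FreeGroup.mk L₀, ?_, ?_, ?_⟩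
  · have h1 : (FreeGroup.freeGroupCongr σ) (FreeGroup.map Sum.inl (FreeGroup.mk L₀)) =
        FreeGroup.mk (L₀.map (fun p => ((e₀ p.1 : α), p.2))) := by
      show FreeGroup.map σ (FreeGroup.map Sum.inl (FreeGroup.mk L₀)) = _
      rw [FreeGroup.map.mk, FreeGroup.map.mk, List.map_map]
      rfl
    rw [h1, hL₀, FreeGroup.mk_toWord]
  · rw [FreeGroup.norm, FreeGroup.norm, hw, ← hL₀, List.length_map]
  · intro t
    have h1 : (e₀ t : α) ∈ w.toWord.map Prod.fst := List.mem_toFinset.1 (e₀ t).2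
    rw [List.mem_map] at h1
    obtain ⟨p, hp, hpt⟩ := h1
    rw [← hL₀, List.mem_map] at hp
    obtain ⟨q, hq, hqp⟩ := hp
    refine ⟨q.2, ?_⟩
    rw [hw]
    have h2 : q.1 = t := by
      apply hinj
      show (e₀ q.1 : α) = (e₀ t : α)
      rw [← hpt, ← hqp]
    rw [← h2]
    exact hq

private theorem s6_map {G G' : Type} [Group G] [Group G'] (f : G ≃* G') {g : G}
    (h : IsPrimitiveElt g) : IsPrimitiveElt (f g) := by
  obtain ⟨ι, b, i, hi⟩ := h
  refine ⟨ι, b.map f, i, ?_⟩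
  rw [FreeGroupBasis.map_apply, hi]

theorem primRank_map_le {α β : Type} (f : FreeGroup β →* FreeGroup α)
    (hf : Function.Injective f) (w : FreeGroup β) : primRank (f w) ≤ primRank w := by
  refine sInf_le_sInf ?_
  rintro n ⟨H, hw, m, hn, ⟨b⟩, hp⟩
  refine ⟨H.map f, ⟨w, hw, rfl⟩, m, hn, ⟨b.map (H.equivMapOfInjective f hf)⟩, fun h2 => hp ?_⟩
  have h3 := s6_map (H.equivMapOfInjective f hf).symm h2
  have h4 : (H.equivMapOfInjective f hf).symm ⟨f w, ⟨w, hw, rfl⟩⟩ = ⟨w, hw⟩ := by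
    rw [MulEquiv.symm_apply_eq]
    exact Subtype.ext (Subgroup.coe_equivMapOfInjective_apply H f hf ⟨w, hw⟩).symm
  rwa [h4] at h3

private noncomputable def s6_flip {ι : Type} (i : ι) : FreeGroup ι →* FreeGroup ι :=
  open Classical in
  FreeGroup.lift fun j => if j = i then (FreeGroup.of j)⁻¹ else FreeGroup.of j

private theorem s6_flip_self {ι : Type} (i : ι) :
    s6_flip i (FreeGroup.of i) = (FreeGroup.of i)⁻¹ := by
  simp [s6_flip]

private theorem s6_flip_flip {ι : Type} (i : ι) :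
    (s6_flip i).comp (s6_flip i) = MonoidHom.id _ := by
  classical
  refine FreeGroup.ext_hom _ _ fun j => ?_
  by_cases h : j = i
  · subst h
    simp [s6_flip_self]
  · have h1 : s6_flip i (FreeGroup.of j) = FreeGroup.of j := by
      simp [s6_flip, h]
    simp [h1]

private theorem s6_inv {G : Type} [Group G] {g : G} (h : IsPrimitiveElt g⁻¹) :
    IsPrimitiveElt g := by
  obtain ⟨ι, b, i, hi⟩ := h
  refine ⟨ι, FreeGroupBasis.ofRepr (b.repr.trans (MonoidHom.toMulEquiv (s6_flip i) (s6_flip i)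
    (s6_flip_flip i) (s6_flip_flip i))), i, ?_⟩
  show b.repr.symm (s6_flip i (FreeGroup.of i)) = g
  rw [s6_flip_self, map_inv]
  have h1 : b.repr.symm (FreeGroup.of i) = b i := rfl
  rw [h1, hi, inv_inv]

private theorem s6_inv_le {α : Type} (w : FreeGroup α) : primRank w⁻¹ ≤ primRank w := by
  refine sInf_le_sInf ?_
  rintro n ⟨H, hw, m, hn, hb, hp⟩
  exact ⟨H, H.inv_mem hw, m, hn, hb, fun h2 => hp (s6_inv h2)⟩

theorem primRank_inv {α : Type} (w : FreeGroup α) : primRank w⁻¹ = primRank w := by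
  refine le_antisymm (s6_inv_le w) ?_
  have h := s6_inv_le w⁻¹
  rwa [inv_inv] at h

end PrimRank
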