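import Pool.Agent.Lib.MP_b8b21d_al.HN.TDefs

/-!
Elementary facts on `anti`, `wgt`, `del` and `tau`.

PROOFS. All by linearity from group elements (`MonoidAlgebra.induction_on`, or two linear maps which agree on
all `of g` are equal).
-/

namespace PrimRank
open scoped TensorProduct

private theorem t0_ind {K : Type*} [Field K] {G : Type} [Group G] {P : MonoidAlgebra K G → Prop}
    (a : MonoidAlgebra K G) (h1 : ∀ g, P (MonoidAlgebra.of K G g))
    (h2 : ∀ a b, P a → P b → P (a + b)) (h3 : ∀ (r : K) a, P a → P (r • a)) : P a :=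
  MonoidAlgebra.induction_on a h1 (fun a b => h2 a b) (fun r a => h3 r a)

private theorem t0_coeff_of {K : Type*} [Field K] {G : Type} [Group G] (g : G) :
    MonoidAlgebra.coeffLinearEquiv K (MonoidAlgebra.of K G g) = Finsupp.single g (1 : K) := rfl

private theorem t0_symm {K : Type*} [Field K] {G : Type} [Group G] (g : G) :
    (MonoidAlgebra.coeffLinearEquiv K).symm (Finsupp.single g (1 : K)) =
      MonoidAlgebra.of K G g := rfl

theorem anti_of {K : Type*} [Field K] {G : Type} [Group G] (g : G) :
    anti (MonoidAlgebra.of K G g) = MonoidAlgebra.of K G g⁻¹ := by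
  simp only [anti, LinearMap.comp_apply, LinearEquiv.coe_coe]
  rw [t0_coeff_of, Finsupp.lmapDomain_apply, Finsupp.mapDomain_single, t0_symm]

theorem anti_mul {K : Type*} [Field K] {G : Type} [Group G] (a b : MonoidAlgebra K G) :
    anti (a * b) = anti b * anti a := by
  induction a using t0_ind with
  | h1 g =>
    induction b using t0_ind with
    | h1 g' => rw [← map_mul, anti_of, anti_of, anti_of, ← map_mul, mul_inv_rev]
    | h2 a a' h h' => rw [mul_add, map_add, h, h', map_add, add_mul]
    | h3 r a h => rw [mul_smul_comm, map_smul, h, map_smul, smul_mul_assoc]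
  | h2 a a' h h' => rw [add_mul, map_add, h, h', map_add, mul_add]
  | h3 r a h => rw [smul_mul_assoc, map_smul, h, map_smul, mul_smul_comm]

theorem anti_one {K : Type*} [Field K] {G : Type} [Group G] :
    anti (1 : MonoidAlgebra K G) = 1 := by
  have h := anti_of (K := K) (1 : G)
  rw [inv_one, map_one] at h
  exact h

theorem anti_anti {K : Type*} [Field K] {G : Type} [Group G] (a : MonoidAlgebra K G) :
    anti (anti a) = a := by
  induction a using t0_ind with
  | h1 g => rw [anti_of, anti_of, inv_inv]
  | h2 a a' h h' => rw [map_add, map_add, h, h']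
  | h3 r a h => rw [map_smul, map_smul, h]

variable {K : Type*} [Field K] {α : Type}

theorem wgt_of (l : α → K) (x : α) : wgt l (FreeGroup.of x) = l x := by
  simp [wgt]

theorem wgt_one (l : α → K) : wgt l (1 : FreeGroup α) = 0 := by
  simp [wgt]

theorem wgt_mul (l : α → K) (g h : FreeGroup α) : wgt l (g * h) = wgt l g + wgt l h := by
  simp [wgt]

theorem wgt_inv (l : α → K) (g : FreeGroup α) : wgt l g⁻¹ = - wgt l g := by
  simp [wgt]

theorem wgt_add (l l' : α → K) (g : FreeGroup α) : wgt (l + l') g = wgt l g + wgt l' g := by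
  induction g using FreeGroup.induction_on with
  | C1 => simp [wgt_one]
  | of x => simp [wgt_of]
  | inv_of x h => rw [wgt_inv, wgt_inv, wgt_inv, h]; ring
  | mul x y hx hy => rw [wgt_mul, wgt_mul, wgt_mul, hx, hy]; ring

theorem wgt_smul (r : K) (l : α → K) (g : FreeGroup α) : wgt (r • l) g = r * wgt l g := by
  induction g using FreeGroup.induction_on with
  | C1 => simp [wgt_one]
  | of x => simp [wgt_of]
  | inv_of x h => rw [wgt_inv, wgt_inv, h]; ring
  | mul x y hx hy => rw [wgt_mul, wgt_mul, hx, hy]; ring

theorem del_of (l : α → K) (g : FreeGroup α) :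
    del l (MonoidAlgebra.of K (FreeGroup α) g) = wgt l g • MonoidAlgebra.of K (FreeGroup α) g := by
  simp only [del, LinearMap.comp_apply, LinearEquiv.coe_coe]
  rw [t0_coeff_of, Finsupp.lsum_single, LinearMap.smul_apply, Finsupp.lsingle_apply, map_smul,
    t0_symm]

theorem del_mul (l : α → K) (a b : GA K α) : del l (a * b) = del l a * b + a * del l b := by
  induction a using t0_ind with
  | h1 g =>
    induction b using t0_ind with
    | h1 g' =>
      rw [← map_mul, del_of, del_of, del_of, wgt_mul, map_mul, add_smul, smul_mul_assoc,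
        mul_smul_comm]
    | h2 a a' h h' =>
      rw [mul_add, map_add, h, h', map_add, mul_add, mul_add]
      abel
    | h3 r a h =>
      rw [mul_smul_comm, map_smul, h, map_smul, mul_smul_comm, mul_smul_comm, smul_add]
  | h2 a a' h h' =>
    rw [add_mul, map_add, h, h', map_add, add_mul, add_mul]
    abel
  | h3 r a h =>
    rw [smul_mul_assoc, map_smul, h, map_smul, smul_mul_assoc, smul_mul_assoc, smul_add]

theorem del_one (l : α → K) : del l (1 : GA K α) = 0 := by
  have h := del_of (K := K) l (1 : FreeGroup α)
  rw [wgt_one, zero_smul, map_one] at h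
  exact h

theorem del_anti (l : α → K) (a : GA K α) : del l (anti a) = - anti (del l a) := by
  induction a using t0_ind with
  | h1 g => rw [anti_of, del_of, del_of, map_smul, anti_of, wgt_inv, neg_smul]
  | h2 a a' h h' =>
    rw [map_add, map_add, h, h', map_add, map_add]
    abel
  | h3 r a h => rw [map_smul, map_smul, h, map_smul, map_smul, smul_neg]

theorem del_add (l l' : α → K) (a : GA K α) : del (l + l') a = del l a + del l' a := by
  induction a using t0_ind with
  | h1 g => rw [del_of, del_of, del_of, wgt_add, add_smul]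
  | h2 a a' h h' =>
    rw [map_add, map_add, map_add, h, h']
    abel
  | h3 r a h => rw [map_smul, map_smul, map_smul, h, smul_add]

theorem del_smul (r : K) (l : α → K) (a : GA K α) : del (r • l) a = r • del l a := by
  induction a using t0_ind with
  | h1 g => rw [del_of, del_of, wgt_smul, mul_smul]
  | h2 a a' h h' => rw [map_add, map_add, h, h', smul_add]
  | h3 s a h => rw [map_smul, map_smul, h, smul_comm]

theorem tau_of (I₁ I₂ : Submodule (GA K α) (GA K α)) (g : FreeGroup α) :
    tau I₁ I₂ (MonoidAlgebra.of K (FreeGroup α) g) =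
      (Submodule.Quotient.mk (MonoidAlgebra.of K (FreeGroup α) g⁻¹) : GA K α ⧸ I₁) ⊗ₜ[K]
      (Submodule.Quotient.mk (MonoidAlgebra.of K (FreeGroup α) g⁻¹) : GA K α ⧸ I₂) := by
  simp only [tau, LinearMap.comp_apply, LinearEquiv.coe_coe]
  rw [t0_coeff_of, Finsupp.linearCombination_single, one_smul]

/-- Right multiplication by `h` corresponds to the action of `h⁻¹`. -/
theorem tau_mul_of (I₁ I₂ : Submodule (GA K α) (GA K α)) (a : GA K α) (h : FreeGroup α) :
    tau I₁ I₂ (a * MonoidAlgebra.of K (FreeGroup α) h) =
      TensorProduct.map (actQ I₁ h⁻¹) (actQ I₂ h⁻¹) (tau I₁ I₂ a) := by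
  induction a using t0_ind with
  | h1 g =>
    rw [← map_mul, tau_of, tau_of, TensorProduct.map_tmul, mul_inv_rev, map_mul]
    rfl
  | h2 a a' h h' => rw [add_mul, map_add, h, h', map_add, map_add]
  | h3 r a h => rw [smul_mul_assoc, map_smul, h, map_smul, map_smul]

end PrimRank
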