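import Pool.Agent.Lib.MP_b8b21d_al.HN.T0
import Pool.Agent.Lib.MP_b8b21d_al.D3

/-!
The product rule for `foxC` and its contraction with `tau`.

PROOFS. Let `C u = foxC I (d x) x ψ u`. For group elements `g, h`: `d x (g h) = d x g + g * d x h`, so
`C u (g h) = ∑_p (d x g)_p u(p) • p ψ(x⁻¹ p⁻¹ g h v) + ∑_q (d x h)_q u(g q) • g q ψ(x⁻¹ q⁻¹ h v)`, `v` the class
of `1` (collision of supports is no problem: the sum `Finsupp.sum` is additive in the finsupp).
Hence for `b ∈ I` (so `b v = 0` and `∑_h b_h ψ(x⁻¹ p⁻¹ g h v) = 0`):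
`foxC_mul_one` (u = 1): `C 1 (a * b) = a * C 1 b`; and for `u = wgt l`, as `u(g q) = u(g) + u(q)`:
`foxC_mul_wgt`: `C (wgt l) (a * b) = del l a * C 1 b + a * C (wgt l) b`.
`foxC_contract`: `C u w = ∑_p (d x w)_p u(p) • p ψ(x⁻¹ p⁻¹ w v)` and `w v = v` because `of w - 1 ∈ I₂`, so
`anti (C u w) • v₁ = ∑_p (d x w)_p u(p) • anti(ψ(x⁻¹ p⁻¹ v)) p⁻¹ v₁`; this is the image of
`tau (∑_p (d x w)_p u(p) p)` under the linear map `n₁ ⊗ n₂ ↦ anti (ψ (x⁻¹ n₂)) • n₁`, hence the statement below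
with `u = 1` (`tau (d x w) = 0`) and `u = wgt l` (`tau (del l (d x w)) = 0`).
-/

namespace PrimRank

open scoped TensorProduct

variable {K : Type*} [Field K] {α : Type} [DecidableEq α]

/-- `a ↦ p * ψ (class of x⁻¹ p⁻¹ a)` -/
private noncomputable def t1T (I : Submodule (GA K α) (GA K α)) (x : α)
    (ψ : (GA K α ⧸ I) →ₗ[K] GA K α) (p : FreeGroup α) : GA K α →ₗ[K] GA K α :=
  (LinearMap.mulLeft K (MonoidAlgebra.of K (FreeGroup α) p)) ∘ₗ ψ ∘ₗ
    (I.mkQ.restrictScalars K) ∘ₗ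
      LinearMap.mulLeft K (MonoidAlgebra.of K (FreeGroup α) ((FreeGroup.of x)⁻¹ * p⁻¹))

omit [DecidableEq α] in
private theorem t1T_apply (I : Submodule (GA K α) (GA K α)) (x : α)
    (ψ : (GA K α ⧸ I) →ₗ[K] GA K α) (p : FreeGroup α) (a : GA K α) :
    t1T I x ψ p a = MonoidAlgebra.of K (FreeGroup α) p * ψ (Submodule.Quotient.mk
      (MonoidAlgebra.of K (FreeGroup α) ((FreeGroup.of x)⁻¹ * p⁻¹) * a)) := rfl

/-- the bilinear form behind `foxC` -/
private noncomputable def t1B (I : Submodule (GA K α) (GA K α)) (x : α)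
    (ψ : (GA K α ⧸ I) →ₗ[K] GA K α) (u : FreeGroup α → K) :
    GA K α →ₗ[K] GA K α →ₗ[K] GA K α :=
  (Finsupp.linearCombination K fun p : FreeGroup α => u p • t1T I x ψ p) ∘ₗ
    (MonoidAlgebra.coeffLinearEquiv K).toLinearMap

omit [DecidableEq α] in
private theorem t1B_of (I : Submodule (GA K α) (GA K α)) (x : α)
    (ψ : (GA K α ⧸ I) →ₗ[K] GA K α) (u : FreeGroup α → K) (p : FreeGroup α) (a : GA K α) :
    t1B I x ψ u (MonoidAlgebra.of K (FreeGroup α) p) a = u p • t1T I x ψ p a := by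
  have h1 : (MonoidAlgebra.coeffLinearEquiv K) (MonoidAlgebra.of K (FreeGroup α) p) =
      Finsupp.single p (1 : K) := rfl
  unfold t1B
  rw [LinearMap.comp_apply, LinearEquiv.coe_coe, h1, Finsupp.linearCombination_single, one_smul,
    LinearMap.smul_apply]

omit [DecidableEq α] in
/-- extensionality from group elements -/
private theorem t1_ext {M : Type*} [AddCommMonoid M] [Module K M] (f g : GA K α →ₗ[K] M)
    (h : ∀ p, f (MonoidAlgebra.of K (FreeGroup α) p) = g (MonoidAlgebra.of K (FreeGroup α) p)) :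
    f = g := by
  apply LinearMap.ext
  intro a
  induction a using MonoidAlgebra.induction_on with
  | of p => exact h p
  | add a b ha hb => rw [map_add, map_add, ha, hb]
  | smul r a ha => rw [map_smul, map_smul, ha]

omit [DecidableEq α] in
private theorem t1_foxC_of (I : Submodule (GA K α) (GA K α)) (dx : FreeGroup α → GA K α) (x : α)
    (ψ : (GA K α ⧸ I) →ₗ[K] GA K α) (u : FreeGroup α → K) (g : FreeGroup α) :
    foxC I dx x ψ u (MonoidAlgebra.of K (FreeGroup α) g) =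
      t1B I x ψ u (dx g) (MonoidAlgebra.of K (FreeGroup α) g) := by
  have h1 : (MonoidAlgebra.coeffLinearEquiv K) (MonoidAlgebra.of K (FreeGroup α) g) =
      Finsupp.single g (1 : K) := rfl
  unfold foxC t1B
  rw [LinearMap.comp_apply, LinearEquiv.coe_coe, h1, Finsupp.linearCombination_single, one_smul,
    LinearMap.comp_apply, LinearEquiv.coe_coe, Finsupp.linearCombination_apply]
  have h2 : (MonoidAlgebra.coeffLinearEquiv K) (dx g) = (dx g).coeff := rfl
  rw [h2, Finsupp.sum, Finsupp.sum, LinearMap.sum_apply]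
  refine Finset.sum_congr rfl fun p _ => ?_
  rw [LinearMap.smul_apply, LinearMap.smul_apply, smul_smul, t1T_apply, map_mul
    (MonoidAlgebra.of K (FreeGroup α)) _ g]

omit [DecidableEq α] in
/-- the bilinear form vanishes on the ideal -/
private theorem t1B_mem (I : Submodule (GA K α) (GA K α)) (x : α)
    (ψ : (GA K α ⧸ I) →ₗ[K] GA K α) (u : FreeGroup α → K) (D b : GA K α) (hb : b ∈ I) :
    t1B I x ψ u D b = 0 := by
  have h : (t1B I x ψ u).flip b = 0 := by
    apply t1_ext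
    intro p
    have hm : MonoidAlgebra.of K (FreeGroup α) ((FreeGroup.of x)⁻¹ * p⁻¹) * b ∈ I :=
      I.smul_mem _ hb
    rw [LinearMap.flip_apply, t1B_of, LinearMap.zero_apply, t1T_apply,
      (Submodule.Quotient.mk_eq_zero I).2 hm, map_zero, mul_zero, smul_zero]
  have h2 := congrArg (fun f : GA K α →ₗ[K] GA K α => f D) h
  exact h2

omit [DecidableEq α] in
private theorem t1T_shift (I : Submodule (GA K α) (GA K α)) (x : α)
    (ψ : (GA K α ⧸ I) →ₗ[K] GA K α) (g q : FreeGroup α) (a : GA K α) :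
    t1T I x ψ (g * q) (MonoidAlgebra.of K (FreeGroup α) g * a) =
      MonoidAlgebra.of K (FreeGroup α) g * t1T I x ψ q a := by
  rw [t1T_apply, t1T_apply, ← mul_assoc (MonoidAlgebra.of K (FreeGroup α) ((FreeGroup.of x)⁻¹ *
    (g * q)⁻¹)), ← map_mul, map_mul (MonoidAlgebra.of K (FreeGroup α)) g q, mul_assoc]
  have h : (FreeGroup.of x)⁻¹ * (g * q)⁻¹ * g = (FreeGroup.of x)⁻¹ * q⁻¹ := by group
  rw [h]

omit [DecidableEq α] in
private theorem t1B_shift_one (I : Submodule (GA K α) (GA K α)) (x : α)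
    (ψ : (GA K α ⧸ I) →ₗ[K] GA K α) (g : FreeGroup α) (D a : GA K α) :
    t1B I x ψ (fun _ => 1) (MonoidAlgebra.of K (FreeGroup α) g * D)
      (MonoidAlgebra.of K (FreeGroup α) g * a) =
      MonoidAlgebra.of K (FreeGroup α) g * t1B I x ψ (fun _ => 1) D a := by
  have h : ((t1B I x ψ (fun _ => 1)).flip (MonoidAlgebra.of K (FreeGroup α) g * a)) ∘ₗ
      (LinearMap.mulLeft K (MonoidAlgebra.of K (FreeGroup α) g)) =
      (LinearMap.mulLeft K (MonoidAlgebra.of K (FreeGroup α) g)) ∘ₗ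
        ((t1B I x ψ (fun _ => 1)).flip a) := by
    apply t1_ext
    intro q
    rw [LinearMap.comp_apply, LinearMap.comp_apply, LinearMap.mulLeft_apply,
      LinearMap.mulLeft_apply, LinearMap.flip_apply, LinearMap.flip_apply, ← map_mul, t1B_of,
      t1B_of, one_smul, one_smul, t1T_shift]
  have h2 := congrArg (fun f : GA K α →ₗ[K] GA K α => f D) h
  exact h2

omit [DecidableEq α] in
private theorem t1B_shift_wgt (I : Submodule (GA K α) (GA K α)) (x : α)
    (ψ : (GA K α ⧸ I) →ₗ[K] GA K α) (l : α → K) (g : FreeGroup α) (D a : GA K α) :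
    t1B I x ψ (wgt l) (MonoidAlgebra.of K (FreeGroup α) g * D)
      (MonoidAlgebra.of K (FreeGroup α) g * a) =
      wgt l g • (MonoidAlgebra.of K (FreeGroup α) g * t1B I x ψ (fun _ => 1) D a) +
      MonoidAlgebra.of K (FreeGroup α) g * t1B I x ψ (wgt l) D a := by
  have h : ((t1B I x ψ (wgt l)).flip (MonoidAlgebra.of K (FreeGroup α) g * a)) ∘ₗ
      (LinearMap.mulLeft K (MonoidAlgebra.of K (FreeGroup α) g)) =
      wgt l g • ((LinearMap.mulLeft K (MonoidAlgebra.of K (FreeGroup α) g)) ∘ₗ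
        ((t1B I x ψ (fun _ => 1)).flip a)) +
      (LinearMap.mulLeft K (MonoidAlgebra.of K (FreeGroup α) g)) ∘ₗ
        ((t1B I x ψ (wgt l)).flip a) := by
    apply t1_ext
    intro q
    rw [LinearMap.add_apply, LinearMap.smul_apply, LinearMap.comp_apply, LinearMap.comp_apply,
      LinearMap.comp_apply, LinearMap.mulLeft_apply,
      LinearMap.mulLeft_apply, LinearMap.mulLeft_apply, LinearMap.flip_apply,
      LinearMap.flip_apply, LinearMap.flip_apply, ← map_mul, t1B_of,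
      t1B_of, t1B_of, one_smul, t1T_shift, wgt_mul, add_smul, mul_smul_comm]
  have h2 := congrArg (fun f : GA K α →ₗ[K] GA K α => f D) h
  exact h2

private theorem t1_fox_mul (I : Submodule (GA K α) (GA K α)) (d : α → FreeGroup α → GA K α)
    (hd : IsFox d) (x : α) (ψ : (GA K α ⧸ I) →ₗ[K] GA K α) (u : FreeGroup α → K)
    (g h : FreeGroup α) :
    foxC I (d x) x ψ u (MonoidAlgebra.of K (FreeGroup α) g * MonoidAlgebra.of K (FreeGroup α) h) =
      t1B I x ψ u (d x g) (MonoidAlgebra.of K (FreeGroup α) g *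
        MonoidAlgebra.of K (FreeGroup α) h) +
      t1B I x ψ u (MonoidAlgebra.of K (FreeGroup α) g * d x h)
        (MonoidAlgebra.of K (FreeGroup α) g * MonoidAlgebra.of K (FreeGroup α) h) := by
  rw [← map_mul, t1_foxC_of, (hd x).1 g h, map_add, LinearMap.add_apply]

theorem foxC_mul_one (I : Submodule (GA K α) (GA K α)) (d : α → FreeGroup α → GA K α)
    (hd : IsFox d) (x : α) (ψ : (GA K α ⧸ I) →ₗ[K] GA K α) (a b : GA K α) (hb : b ∈ I) :
    foxC I (d x) x ψ (fun _ => 1) (a * b) = a * foxC I (d x) x ψ (fun _ => 1) b := by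
  have key : ∀ g : FreeGroup α, (foxC I (d x) x ψ (fun _ => 1)) ∘ₗ
      (LinearMap.mulLeft K (MonoidAlgebra.of K (FreeGroup α) g)) =
      (t1B I x ψ (fun _ => 1) (d x g)) ∘ₗ
        (LinearMap.mulLeft K (MonoidAlgebra.of K (FreeGroup α) g)) +
      (LinearMap.mulLeft K (MonoidAlgebra.of K (FreeGroup α) g)) ∘ₗ
        (foxC I (d x) x ψ (fun _ => 1)) := by
    intro g
    apply t1_ext
    intro h
    rw [LinearMap.add_apply, LinearMap.comp_apply, LinearMap.comp_apply, LinearMap.comp_apply,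
      LinearMap.mulLeft_apply, LinearMap.mulLeft_apply, t1_fox_mul I d hd, t1B_shift_one,
      t1_foxC_of]
  have h1 : (foxC I (d x) x ψ (fun _ => 1)) ∘ₗ (LinearMap.mulRight K b) =
      LinearMap.mulRight K (foxC I (d x) x ψ (fun _ => 1) b) := by
    apply t1_ext
    intro g
    have h2 := congrArg (fun f : GA K α →ₗ[K] GA K α => f b) (key g)
    rw [LinearMap.comp_apply, LinearMap.mulRight_apply, LinearMap.mulRight_apply]
    change foxC I (d x) x ψ (fun _ => 1) (MonoidAlgebra.of K (FreeGroup α) g * b) =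
      t1B I x ψ (fun _ => 1) (d x g) (MonoidAlgebra.of K (FreeGroup α) g * b) +
      MonoidAlgebra.of K (FreeGroup α) g * foxC I (d x) x ψ (fun _ => 1) b at h2
    have hm : MonoidAlgebra.of K (FreeGroup α) g * b ∈ I := I.smul_mem _ hb
    rw [h2, t1B_mem I x ψ _ _ _ hm, zero_add]
  have h2 := congrArg (fun f : GA K α →ₗ[K] GA K α => f a) h1
  exact h2

theorem foxC_mul_wgt (I : Submodule (GA K α) (GA K α)) (d : α → FreeGroup α → GA K α)
    (hd : IsFox d) (x : α) (ψ : (GA K α ⧸ I) →ₗ[K] GA K α) (l : α → K) (a b : GA K α)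
    (hb : b ∈ I) :
    foxC I (d x) x ψ (wgt l) (a * b) =
      del l a * foxC I (d x) x ψ (fun _ => 1) b + a * foxC I (d x) x ψ (wgt l) b := by
  have key : ∀ g : FreeGroup α, (foxC I (d x) x ψ (wgt l)) ∘ₗ
      (LinearMap.mulLeft K (MonoidAlgebra.of K (FreeGroup α) g)) =
      (t1B I x ψ (wgt l) (d x g)) ∘ₗ
        (LinearMap.mulLeft K (MonoidAlgebra.of K (FreeGroup α) g)) +
      (wgt l g • ((LinearMap.mulLeft K (MonoidAlgebra.of K (FreeGroup α) g)) ∘ₗ
        (foxC I (d x) x ψ (fun _ => 1))) +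
      (LinearMap.mulLeft K (MonoidAlgebra.of K (FreeGroup α) g)) ∘ₗ
        (foxC I (d x) x ψ (wgt l))) := by
    intro g
    apply t1_ext
    intro h
    rw [LinearMap.add_apply, LinearMap.add_apply, LinearMap.smul_apply, LinearMap.comp_apply,
      LinearMap.comp_apply, LinearMap.comp_apply, LinearMap.comp_apply,
      LinearMap.mulLeft_apply, LinearMap.mulLeft_apply, LinearMap.mulLeft_apply,
      t1_fox_mul I d hd, t1B_shift_wgt, t1_foxC_of, t1_foxC_of]
  have h1 : (foxC I (d x) x ψ (wgt l)) ∘ₗ (LinearMap.mulRight K b) =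
      (LinearMap.mulRight K (foxC I (d x) x ψ (fun _ => 1) b)) ∘ₗ (del l) +
      LinearMap.mulRight K (foxC I (d x) x ψ (wgt l) b) := by
    apply t1_ext
    intro g
    have h2 := congrArg (fun f : GA K α →ₗ[K] GA K α => f b) (key g)
    rw [LinearMap.add_apply, LinearMap.comp_apply, LinearMap.comp_apply,
      LinearMap.mulRight_apply, LinearMap.mulRight_apply, LinearMap.mulRight_apply, del_of,
      smul_mul_assoc]
    change foxC I (d x) x ψ (wgt l) (MonoidAlgebra.of K (FreeGroup α) g * b) =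
      t1B I x ψ (wgt l) (d x g) (MonoidAlgebra.of K (FreeGroup α) g * b) +
      (wgt l g • (MonoidAlgebra.of K (FreeGroup α) g * foxC I (d x) x ψ (fun _ => 1) b) +
      MonoidAlgebra.of K (FreeGroup α) g * foxC I (d x) x ψ (wgt l) b) at h2
    have hm : MonoidAlgebra.of K (FreeGroup α) g * b ∈ I := I.smul_mem _ hb
    rw [h2, t1B_mem I x ψ _ _ _ hm, zero_add]
  have h2 := congrArg (fun f : GA K α →ₗ[K] GA K α => f a) h1
  exact h2

/-- the contraction `n₁ ⊗ n₂ ↦ anti (ψ (x⁻¹ n₂)) • n₁` -/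
private noncomputable def t1L (I₁ I₂ : Submodule (GA K α) (GA K α)) (x : α)
    (ψ : (GA K α ⧸ I₂) →ₗ[K] GA K α) :
    (GA K α ⧸ I₁) ⊗[K] (GA K α ⧸ I₂) →ₗ[K] (GA K α ⧸ I₁) :=
  TensorProduct.lift (((Algebra.lsmul K K (GA K α ⧸ I₁)).toLinearMap ∘ₗ anti ∘ₗ ψ ∘ₗ
    (Algebra.lsmul K K (GA K α ⧸ I₂) (MonoidAlgebra.of K (FreeGroup α) (FreeGroup.of x)⁻¹))).flip)

omit [DecidableEq α] in
private theorem t1L_tmul (I₁ I₂ : Submodule (GA K α) (GA K α)) (x : α)
    (ψ : (GA K α ⧸ I₂) →ₗ[K] GA K α) (n₁ : GA K α ⧸ I₁) (n₂ : GA K α ⧸ I₂) :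
    t1L I₁ I₂ x ψ (n₁ ⊗ₜ[K] n₂) =
      anti (ψ ((MonoidAlgebra.of K (FreeGroup α) (FreeGroup.of x)⁻¹) • n₂)) • n₁ := rfl

omit [DecidableEq α] in
private theorem t1_contract (I₁ I₂ : Submodule (GA K α) (GA K α)) (x : α)
    (ψ : (GA K α ⧸ I₂) →ₗ[K] GA K α) (w : FreeGroup α)
    (hw : MonoidAlgebra.of K (FreeGroup α) w - 1 ∈ I₂) (D : GA K α) :
    (Submodule.Quotient.mk (anti (t1B I₂ x ψ (fun _ => 1) D
      (MonoidAlgebra.of K (FreeGroup α) w))) : GA K α ⧸ I₁) = t1L I₁ I₂ x ψ (tau I₁ I₂ D) := by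
  have h : (I₁.mkQ.restrictScalars K) ∘ₗ anti ∘ₗ
      ((t1B I₂ x ψ (fun _ => 1)).flip (MonoidAlgebra.of K (FreeGroup α) w)) =
      (t1L I₁ I₂ x ψ) ∘ₗ (tau I₁ I₂) := by
    apply t1_ext
    intro p
    rw [LinearMap.comp_apply, LinearMap.comp_apply, LinearMap.comp_apply, LinearMap.flip_apply,
      t1B_of, one_smul, t1T_apply, anti_mul, anti_of, tau_of, t1L_tmul]
    have h1 : (Submodule.Quotient.mk (MonoidAlgebra.of K (FreeGroup α)
        ((FreeGroup.of x)⁻¹ * p⁻¹) * MonoidAlgebra.of K (FreeGroup α) w) : GA K α ⧸ I₂) =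
        (MonoidAlgebra.of K (FreeGroup α) (FreeGroup.of x)⁻¹) •
          (Submodule.Quotient.mk (MonoidAlgebra.of K (FreeGroup α) p⁻¹) : GA K α ⧸ I₂) := by
      rw [← Submodule.Quotient.mk_smul, smul_eq_mul, Submodule.Quotient.eq,
        ← map_mul (MonoidAlgebra.of K (FreeGroup α)) (FreeGroup.of x)⁻¹ p⁻¹]
      have h2 := I₂.smul_mem (MonoidAlgebra.of K (FreeGroup α) ((FreeGroup.of x)⁻¹ * p⁻¹)) hw
      rwa [smul_eq_mul, mul_sub, mul_one] at h2
    rw [h1]
    rfl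
  have h2 := congrArg (fun f : GA K α →ₗ[K] (GA K α ⧸ I₁) => f D) h
  exact h2

theorem foxC_contract_one (I₁ I₂ : Submodule (GA K α) (GA K α))
    (d : α → FreeGroup α → GA K α) (x : α) (ψ : (GA K α ⧸ I₂) →ₗ[K] GA K α) (w : FreeGroup α)
    (hw : MonoidAlgebra.of K (FreeGroup α) w - 1 ∈ I₂) (ht : tau I₁ I₂ (d x w) = 0) :
    anti (foxC I₂ (d x) x ψ (fun _ => 1) (MonoidAlgebra.of K (FreeGroup α) w)) ∈ I₁ := by
  rw [← Submodule.Quotient.mk_eq_zero, t1_foxC_of, t1_contract I₁ I₂ x ψ w hw, ht, map_zero]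

omit [DecidableEq α] in
private theorem t1B_wgt (I : Submodule (GA K α) (GA K α)) (x : α)
    (ψ : (GA K α ⧸ I) →ₗ[K] GA K α) (l : α → K) (D a : GA K α) :
    t1B I x ψ (wgt l) D a = t1B I x ψ (fun _ => 1) (del l D) a := by
  have h : (t1B I x ψ (wgt l)).flip a = ((t1B I x ψ (fun _ => 1)).flip a) ∘ₗ (del l) := by
    apply t1_ext
    intro p
    rw [LinearMap.comp_apply, LinearMap.flip_apply, LinearMap.flip_apply, t1B_of, del_of,
      map_smul, LinearMap.smul_apply, t1B_of, one_smul]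
  have h2 := congrArg (fun f : GA K α →ₗ[K] GA K α => f D) h
  exact h2

theorem foxC_contract_wgt (I₁ I₂ : Submodule (GA K α) (GA K α))
    (d : α → FreeGroup α → GA K α) (x : α) (ψ : (GA K α ⧸ I₂) →ₗ[K] GA K α) (w : FreeGroup α)
    (l : α → K) (hw : MonoidAlgebra.of K (FreeGroup α) w - 1 ∈ I₂)
    (ht : tau I₁ I₂ (del l (d x w)) = 0) :
    anti (foxC I₂ (d x) x ψ (wgt l) (MonoidAlgebra.of K (FreeGroup α) w)) ∈ I₁ := by
  rw [← Submodule.Quotient.mk_eq_zero, t1_foxC_of, t1B_wgt, t1_contract I₁ I₂ x ψ w hw, ht,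
    map_zero]

/-- If all contractions vanish then `tau (d x w) = 0`: take `ψ n = f (x n) • 1` for functionals `f` on
`GA / I₂`; `anti (foxC ..) • v₁ = (1 ⊗ f) (tau (d x w))`; the maps `1 ⊗ f` separate points. -/
theorem tau_eq_zero_of_contract (I₁ I₂ : Submodule (GA K α) (GA K α))
    (d : α → FreeGroup α → GA K α) (x : α) (w : FreeGroup α)
    (hw : MonoidAlgebra.of K (FreeGroup α) w - 1 ∈ I₂)
    (h : ∀ ψ : (GA K α ⧸ I₂) →ₗ[K] GA K α,
      anti (foxC I₂ (d x) x ψ (fun _ => 1) (MonoidAlgebra.of K (FreeGroup α) w)) ∈ I₁) :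
    tau I₁ I₂ (d x w) = 0 := by
  classical
  have hL : ∀ ψ : (GA K α ⧸ I₂) →ₗ[K] GA K α, t1L I₁ I₂ x ψ (tau I₁ I₂ (d x w)) = 0 := by
    intro ψ
    have h1 := h ψ
    rwa [← Submodule.Quotient.mk_eq_zero, t1_foxC_of, t1_contract I₁ I₂ x ψ w hw] at h1
  set b := Module.Basis.ofVectorSpace K (GA K α ⧸ I₂) with hb
  apply (TensorProduct.equivFinsuppOfBasisRight (M := GA K α ⧸ I₁) b).injective
  rw [map_zero]
  apply Finsupp.ext
  intro i
  rw [Finsupp.zero_apply]
  let ψ : (GA K α ⧸ I₂) →ₗ[K] GA K α :=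
    (LinearMap.toSpanSingleton K (GA K α) 1) ∘ₗ (b.coord i) ∘ₗ
      (Algebra.lsmul K K (GA K α ⧸ I₂) (MonoidAlgebra.of K (FreeGroup α) (FreeGroup.of x)))
  have hψ : ∀ n₂ : GA K α ⧸ I₂,
      ψ ((MonoidAlgebra.of K (FreeGroup α) (FreeGroup.of x)⁻¹) • n₂) = b.repr n₂ i • 1 := by
    intro n₂
    change (b.coord i ((MonoidAlgebra.of K (FreeGroup α) (FreeGroup.of x)) •
      ((MonoidAlgebra.of K (FreeGroup α) (FreeGroup.of x)⁻¹) • n₂))) • (1 : GA K α) = _
    rw [smul_smul, ← map_mul, mul_inv_cancel, map_one, one_smul]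
    rfl
  have h3 : t1L I₁ I₂ x ψ = (Finsupp.lapply i) ∘ₗ
      (TensorProduct.equivFinsuppOfBasisRight (M := GA K α ⧸ I₁) b).toLinearMap := by
    apply TensorProduct.ext'
    intro n₁ n₂
    rw [t1L_tmul, hψ, LinearMap.comp_apply, LinearEquiv.coe_coe, Finsupp.lapply_apply,
      TensorProduct.equivFinsuppOfBasisRight_apply_tmul_apply, map_smul, anti_one, smul_assoc,
      one_smul]
  have h4 := hL ψ
  rw [h3] at h4
  exact h4

end PrimRank
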