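import Pool.Agent.Lib.MP_b8b21d_al.HN.T0
import Pool.Agent.Lib.MP_b8b21d_al.D3

/-!
Every linear functional on a proper left ideal is given by Fox derivatives.

PROOF. Let `φ : I → GA` be `GA`-linear, `1 ∉ I`. Choose a `K`-linear `Φ : GA → GA` with `Φ = φ` on `I` and `Φ 1 = 0`
(possible as `1 ∉ I`: extend from the subspace `I + K 1`, direct sum; for instance a linear extension `Φ'` of `φ`
and a functional `χ : GA → K` with `χ = 0` on `I`, `χ 1 = 1`, `Φ = Φ' - χ(·) • Φ' 1`).
For `g` let `c g (a) = Φ (g a) - g Φ a`, `K`-linear in `a`, zero for `a ∈ I`; so it defines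
`c g : GA / I → GA`. `c (g h) (n) = c g (h n) + g * c h (n)`. Let `ψ x = c (of x)`. Claim: for all `g`
and all `n`: `c g (n) = ∑_x ∑_p (d x g)_p p * ψ x (x⁻¹ p⁻¹ g n)`. Both sides satisfy the rule
`c (g h) n = c g (h n) + g c h n` (right side: `d x (g h) = d x g + g * d x h`), and they agree for
`g = of y` (`d x (of y) = δ`, `p = 1`, `x⁻¹ y = 1`); so they agree for all `g` (induction
`FreeGroup.induction_on`; for inverses: `0 = c (g⁻¹ g) n = c g⁻¹ (g n) + g⁻¹ c g n`). For `f ∈ I`:
`φ f = Φ f = ∑ f_g Φ g = ∑ f_g (c g (v) + g Φ 1) = ∑ f_g c g (v)`, `v` the class of `1`; this is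
`∑_x foxC I (d x) x (ψ x) 1 f`.
-/

namespace PrimRank

/-- Two functions with the cocycle rule which agree on the generators are equal. -/
private theorem t2a_cocycle_ext {K : Type*} [Field K] {α : Type}
    (u v : FreeGroup α → GA K α → GA K α)
    (hu : ∀ g h a, u (g * h) a = u g (MonoidAlgebra.of K _ h * a) + MonoidAlgebra.of K _ g * u h a)
    (hv : ∀ g h a, v (g * h) a = v g (MonoidAlgebra.of K _ h * a) + MonoidAlgebra.of K _ g * v h a)
    (h : ∀ x a, u (FreeGroup.of x) a = v (FreeGroup.of x) a) (g : FreeGroup α) :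
    ∀ a, u g a = v g a := by
  have one : ∀ (u : FreeGroup α → GA K α → GA K α),
      (∀ g h a, u (g * h) a = u g (MonoidAlgebra.of K _ h * a) + MonoidAlgebra.of K _ g * u h a) →
      ∀ a, u 1 a = 0 := by
    intro u hu a
    have h1 := hu 1 1 a
    rw [mul_one, map_one, one_mul, one_mul] at h1
    exact left_eq_add.1 h1
  have inv : ∀ (u : FreeGroup α → GA K α → GA K α),
      (∀ g h a, u (g * h) a = u g (MonoidAlgebra.of K _ h * a) + MonoidAlgebra.of K _ g * u h a) →
      ∀ g a, u g⁻¹ a = - (MonoidAlgebra.of K _ g⁻¹ * u g (MonoidAlgebra.of K _ g⁻¹ * a)) := by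
    intro u hu g a
    have h1 := hu g⁻¹ g (MonoidAlgebra.of K _ g⁻¹ * a)
    rw [inv_mul_cancel, one u hu, ← mul_assoc, ← map_mul, mul_inv_cancel, map_one, one_mul] at h1
    exact eq_neg_of_add_eq_zero_left h1.symm
  induction g using FreeGroup.induction_on with
  | C1 => intro a; rw [one u hu, one v hv]
  | of x => exact h x
  | inv_of x _ => intro a; rw [inv u hu, inv v hv, h x]
  | mul g k ihg ihk => intro a; rw [hu, hv, ihg, ihk]

/-- The right side of the Fox formula, linear in the coefficient `q`. -/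
private noncomputable def t2aT {K : Type*} [Field K] {α : Type}
    (c : GA K α → GA K α) (x : α) (g : FreeGroup α) (a : GA K α) :
    GA K α →ₗ[K] GA K α :=
  (Finsupp.linearCombination K fun p : FreeGroup α =>
    MonoidAlgebra.of K (FreeGroup α) p * c (MonoidAlgebra.of K (FreeGroup α)
      ((FreeGroup.of x)⁻¹ * p⁻¹ * g) * a)) ∘ₗ
    (MonoidAlgebra.coeffLinearEquiv K).toLinearMap

private theorem t2aT_of {K : Type*} [Field K] {α : Type}
    (c : GA K α → GA K α) (x : α) (g : FreeGroup α) (a : GA K α) (p : FreeGroup α) :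
    t2aT c x g a (MonoidAlgebra.of K (FreeGroup α) p) =
      MonoidAlgebra.of K (FreeGroup α) p * c (MonoidAlgebra.of K (FreeGroup α)
      ((FreeGroup.of x)⁻¹ * p⁻¹ * g) * a) := by
  have h1 : (MonoidAlgebra.of K (FreeGroup α) p).coeff = Finsupp.single p 1 := by
    rw [MonoidAlgebra.of_apply]; rfl
  show Finsupp.linearCombination K _ (MonoidAlgebra.of K (FreeGroup α) p).coeff = _
  rw [h1, Finsupp.linearCombination_single, one_smul]

private theorem t2a_ext {K : Type*} [Field K] {α : Type} (f f' : GA K α →ₗ[K] GA K α)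
    (h : ∀ g, f (MonoidAlgebra.of K (FreeGroup α) g) = f' (MonoidAlgebra.of K (FreeGroup α) g)) :
    f = f' := by
  apply MonoidAlgebra.lhom_ext'
  intro g
  apply LinearMap.ext_ring
  exact h g

private theorem t2aT_shift {K : Type*} [Field K] {α : Type}
    (c : GA K α → GA K α) (x : α) (g h : FreeGroup α) (a : GA K α) (q : GA K α) :
    t2aT c x (g * h) a (MonoidAlgebra.of K _ g * q) =
      MonoidAlgebra.of K _ g * t2aT c x h a q := by
  have key : (t2aT c x (g * h) a) ∘ₗ (LinearMap.mulLeft K (MonoidAlgebra.of K _ g)) =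
      (LinearMap.mulLeft K (MonoidAlgebra.of K _ g)) ∘ₗ (t2aT c x h a) := by
    apply t2a_ext
    intro p
    simp only [LinearMap.comp_apply, LinearMap.mulLeft_apply]
    rw [← map_mul, t2aT_of, t2aT_of, map_mul, mul_assoc]
    congr 3
    group
  exact LinearMap.congr_fun key q

private theorem t2aT_mul {K : Type*} [Field K] {α : Type}
    (c : GA K α → GA K α) (x : α) (g h : FreeGroup α) (a : GA K α) (q : GA K α) :
    t2aT c x (g * h) a q = t2aT c x g (MonoidAlgebra.of K _ h * a) q := by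
  have key : (t2aT c x (g * h) a)  = (t2aT c x g (MonoidAlgebra.of K _ h * a)) := by
    apply t2a_ext
    intro p
    rw [t2aT_of, t2aT_of, ← mul_assoc (MonoidAlgebra.of K _ ((FreeGroup.of x)⁻¹ * p⁻¹ * g)),
      ← map_mul, mul_assoc _ g h]
  rw [key]

theorem exists_psi {K : Type*} [Field K] {α : Type} [Fintype α] [DecidableEq α]
    (I : Submodule (GA K α) (GA K α)) (hI : I ≠ ⊤) (d : α → FreeGroup α → GA K α)
    (hd : IsFox d) (φ : I →ₗ[GA K α] GA K α) :
    ∃ ψ : α → (GA K α ⧸ I) →ₗ[K] GA K α, ∀ f : I,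
      φ f = ∑ x, foxC I (d x) x (ψ x) (fun _ => 1) (f : GA K α) := by
  have h1I : (1 : GA K α) ∉ I := by
    intro h1
    apply hI
    rw [Submodule.eq_top_iff']
    intro x
    have := I.smul_mem x h1
    rwa [smul_eq_mul, mul_one] at this
  obtain ⟨Φ, hΦ, hΦ1⟩ := LinearMap.exists_extend_of_notMem
    (p := I.restrictScalars K) (φ.restrictScalars K) (v := (1 : GA K α)) h1I (0 : GA K α)
  have hΦI : ∀ f : I, Φ (f : GA K α) = φ f := by
    intro f
    exact LinearMap.congr_fun hΦ f
  -- the cocycle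
  let c : FreeGroup α → GA K α →ₗ[K] GA K α := fun g =>
    Φ ∘ₗ (LinearMap.mulLeft K (MonoidAlgebra.of K _ g)) -
      (LinearMap.mulLeft K (MonoidAlgebra.of K _ g)) ∘ₗ Φ
  have hc : ∀ g a, c g a = Φ (MonoidAlgebra.of K _ g * a) - MonoidAlgebra.of K _ g * Φ a :=
    fun g a => rfl
  have hcI : ∀ g, I.restrictScalars K ≤ LinearMap.ker (c g) := by
    intro g a ha
    rw [LinearMap.mem_ker, hc]
    have ha' : a ∈ I := ha
    have h2 : MonoidAlgebra.of K _ g * a ∈ I := by
      have := I.smul_mem (MonoidAlgebra.of K _ g) ha'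
      rwa [smul_eq_mul] at this
    have h3 := hΦI ⟨_, h2⟩
    have h4 := hΦI ⟨_, ha'⟩
    have h5 : (⟨MonoidAlgebra.of K _ g * a, h2⟩ : I) = MonoidAlgebra.of K _ g • (⟨a, ha'⟩ : I) := by
      apply Subtype.ext
      rfl
    rw [h5, map_smul, smul_eq_mul] at h3
    change Φ (MonoidAlgebra.of K _ g * a) = _ at h3
    change Φ a = _ at h4
    rw [h3, h4, sub_self]
  let ψ : α → (GA K α ⧸ I) →ₗ[K] GA K α := fun x =>
    ((I.restrictScalars K).liftQ (c (FreeGroup.of x)) (hcI _)) ∘ₗ
      (Submodule.Quotient.restrictScalarsEquiv K I).symm.toLinearMap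
  have hψ : ∀ x a, ψ x (Submodule.Quotient.mk a) = c (FreeGroup.of x) a := by
    intro x a
    rfl
  refine ⟨ψ, fun f => ?_⟩
  -- the Fox formula for the cocycle
  have hfox : ∀ g a, c g a = ∑ x, t2aT (c (FreeGroup.of x)) x g a (d x g) := by
    intro g
    apply t2a_cocycle_ext (fun g a => c g a)
      (fun g a => ∑ x, t2aT (c (FreeGroup.of x)) x g a (d x g))
    · intro g h a
      simp only [hc, map_mul]
      rw [mul_sub, mul_assoc, mul_assoc]
      abel
    · intro g h a
      rw [Finset.mul_sum, ← Finset.sum_add_distrib]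
      apply Finset.sum_congr rfl
      intro x _
      rw [(hd x).1 g h, map_add, t2aT_shift, t2aT_mul]
    · intro y a
      rw [Finset.sum_eq_single y]
      · rw [(hd y).2 y, if_pos rfl]
        have := t2aT_of (c (FreeGroup.of y)) y (FreeGroup.of y) a 1
        rw [map_one] at this
        rw [this, inv_one, mul_one, inv_mul_cancel, map_one, one_mul, one_mul]
      · intro x _ hxy
        rw [(hd x).2 y, if_neg hxy, map_zero]
      · intro h
        exact absurd (Finset.mem_univ y) h
  have hmain : Φ = ∑ x, foxC I (d x) x (ψ x) (fun _ => 1) := by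
    apply t2a_ext
    intro g
    have h2 := hc g 1
    rw [hΦ1, mul_zero, sub_zero, mul_one] at h2
    rw [← h2, hfox g 1, LinearMap.sum_apply]
    apply Finset.sum_congr rfl
    intro x _
    have h3 : (MonoidAlgebra.of K (FreeGroup α) g).coeff = Finsupp.single g 1 := by
      rw [MonoidAlgebra.of_apply]; rfl
    show (d x g).coeff.sum _ = Finsupp.linearCombination K _ (MonoidAlgebra.of K (FreeGroup α) g).coeff
    rw [h3, Finsupp.linearCombination_single, one_smul]
    apply Finsupp.sum_congr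
    intro p _
    show (d x g).coeff p • (MonoidAlgebra.of K (FreeGroup α) p * c (FreeGroup.of x)
      (MonoidAlgebra.of K (FreeGroup α) ((FreeGroup.of x)⁻¹ * p⁻¹ * g) * 1)) = _
    rw [mul_one, mul_one, hψ]
  rw [← hΦI f, hmain, LinearMap.sum_apply]

end PrimRank
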