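import Pool.Agent.Lib.MP_b8b21d_al.HN.T1
import Pool.Agent.Lib.MP_b8b21d_al.HN.T2a

/-!
The two main facts of the tangent argument.

PROOFS. Throughout `I₁` is a left ideal, so for `c` with `anti c ∈ I₁`: `anti (c * y) = anti y * anti c ∈ I₁`.
Also `of w - 1 ∈ I₂`, and `foxC .. (of w) = foxC .. (of w - 1)` since `foxC .. 1 = 0` (`d x 1 = 0` for a
derivation).
`tau_fox`: by `tau_eq_zero_of_contract`: for every `ψ`,
`foxC 1 (of w - 1) = ∑ foxC 1 (a i * b i) = ∑ a i * foxC 1 (b i)`, so its `anti` is in `I₁`.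
`del_mem`: fix `k`, let `φ = b.coord k` (`GA`-linear, `φ (b i) = δ_{ik}`) and take `ψ` from `exists_psi`.
For each `x`: `foxC (wgt l) (of w) = ∑_i (del l (a i) * foxC 1 (b i) + a i * foxC (wgt l) (b i))`, and the
left side has `anti` in `I₁` by `foxC_contract_wgt`, the terms `a i * ..` too; hence
`anti (∑_i del l (a i) * foxC I₂ (d x) x (ψ x) 1 (b i)) ∈ I₁`. Sum over `x`:
`anti (∑_i del l (a i) * φ (b i)) = anti (del l (a k)) ∈ I₁`.
-/

namespace PrimRank

open scoped TensorProduct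

variable {K : Type*} [Field K] {α : Type} [DecidableEq α]

private theorem t2_foxC_one (I : Submodule (GA K α) (GA K α)) (dx : FreeGroup α → GA K α)
    (hd : IsDer dx) (x : α) (ψ : (GA K α ⧸ I) →ₗ[K] GA K α) (u : FreeGroup α → K) :
    foxC I dx x ψ u (1 : GA K α) = 0 := by
  have h1 : dx 1 = 0 := by
    have h := hd 1 1
    rw [mul_one, map_one, one_mul] at h
    have h2 : dx 1 + 0 = dx 1 + dx 1 := by rw [add_zero]; exact h
    exact (add_left_cancel h2).symm
  have h3 : (MonoidAlgebra.coeffLinearEquiv K) (1 : GA K α) =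
      Finsupp.single (1 : FreeGroup α) (1 : K) := rfl
  unfold foxC
  rw [LinearMap.comp_apply, LinearEquiv.coe_coe, h3, Finsupp.linearCombination_single, one_smul, h1]
  exact Finsupp.sum_zero_index

private theorem t2_foxC_sub (I : Submodule (GA K α) (GA K α)) (dx : FreeGroup α → GA K α)
    (hd : IsDer dx) (x : α) (ψ : (GA K α ⧸ I) →ₗ[K] GA K α) (u : FreeGroup α → K) (a : GA K α) :
    foxC I dx x ψ u (a - 1) = foxC I dx x ψ u a := by
  rw [map_sub, t2_foxC_one I dx hd x ψ u, sub_zero]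

private theorem t2_anti_mul (I₁ : Submodule (GA K α) (GA K α)) {c : GA K α} (hc : anti c ∈ I₁)
    (y : GA K α) : anti (c * y) ∈ I₁ := by
  rw [anti_mul]
  exact I₁.smul_mem (anti y) hc

theorem tau_fox (I₁ I₂ : Submodule (GA K α) (GA K α)) (d : α → FreeGroup α → GA K α)
    (hd : IsFox d) {m : ℕ} (a b : Fin m → GA K α) (w : FreeGroup α)
    (hw : MonoidAlgebra.of K (FreeGroup α) w - 1 = ∑ i, a i * b i)
    (ha : ∀ i, anti (a i) ∈ I₁) (hb : ∀ i, b i ∈ I₂) (x : α) : tau I₁ I₂ (d x w) = 0 := by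
  have hwm : MonoidAlgebra.of K (FreeGroup α) w - 1 ∈ I₂ := by
    rw [hw]
    exact I₂.sum_mem fun i _ => I₂.smul_mem (a i) (hb i)
  refine tau_eq_zero_of_contract I₁ I₂ d x w hwm fun ψ => ?_
  rw [← t2_foxC_sub I₂ (d x) (hd x).1 x ψ, hw, map_sum, map_sum]
  refine I₁.sum_mem fun i _ => ?_
  rw [foxC_mul_one I₂ d hd x ψ _ _ (hb i)]
  exact t2_anti_mul I₁ (ha i) _

theorem del_mem [Fintype α] (I₁ I₂ : Submodule (GA K α) (GA K α)) (hI₂ : I₂ ≠ ⊤)
    (d : α → FreeGroup α → GA K α) (hd : IsFox d) {m : ℕ}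
    (b : Module.Basis (Fin m) (GA K α) I₂) (a : Fin m → GA K α) (w : FreeGroup α)
    (hw : MonoidAlgebra.of K (FreeGroup α) w - 1 = ∑ i, a i * (b i : GA K α))
    (ha : ∀ i, anti (a i) ∈ I₁) (l : α → K) (ht : ∀ x, tau I₁ I₂ (del l (d x w)) = 0) (k : Fin m) :
    anti (del l (a k)) ∈ I₁ := by
  classical
  have hwm : MonoidAlgebra.of K (FreeGroup α) w - 1 ∈ I₂ := by
    rw [hw]
    exact I₂.sum_mem fun i _ => I₂.smul_mem (a i) (b i).2
  obtain ⟨ψ, hψ⟩ := exists_psi I₂ hI₂ d hd (b.coord k)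
  have key : ∀ x, anti (∑ i, del l (a i) * foxC I₂ (d x) x (ψ x) (fun _ => 1) (b i : GA K α)) ∈ I₁ := by
    intro x
    have h1 := foxC_contract_wgt I₁ I₂ d x (ψ x) w l hwm (ht x)
    rw [← t2_foxC_sub I₂ (d x) (hd x).1 x (ψ x), hw, map_sum] at h1
    have h2 : ∑ i, foxC I₂ (d x) x (ψ x) (wgt l) (a i * (b i : GA K α)) =
        ∑ i, del l (a i) * foxC I₂ (d x) x (ψ x) (fun _ => 1) (b i : GA K α) +
        ∑ i, a i * foxC I₂ (d x) x (ψ x) (wgt l) (b i : GA K α) := by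
      rw [← Finset.sum_add_distrib]
      exact Finset.sum_congr rfl fun i _ => foxC_mul_wgt I₂ d hd x (ψ x) l (a i) _ (b i).2
    rw [h2, map_add] at h1
    have h3 : anti (∑ i, a i * foxC I₂ (d x) x (ψ x) (wgt l) (b i : GA K α)) ∈ I₁ := by
      rw [map_sum]
      exact I₁.sum_mem fun i _ => t2_anti_mul I₁ (ha i) _
    exact (I₁.add_mem_iff_left h3).1 h1
  have h4 : ∑ x, ∑ i, del l (a i) * foxC I₂ (d x) x (ψ x) (fun _ => 1) (b i : GA K α) =
      del l (a k) := by
    rw [Finset.sum_comm]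
    have h5 : ∀ i, ∑ x, del l (a i) * foxC I₂ (d x) x (ψ x) (fun _ => 1) (b i : GA K α) =
        del l (a i) * b.coord k (b i) := fun i => by
      rw [hψ (b i), Finset.mul_sum]
    rw [Finset.sum_congr rfl fun i _ => h5 i, Finset.sum_eq_single k]
    · rw [Module.Basis.coord_apply, Module.Basis.repr_self, Finsupp.single_eq_same, mul_one]
    · intro i _ hik
      rw [Module.Basis.coord_apply, Module.Basis.repr_self, Finsupp.single_eq_of_ne (Ne.symm hik),
        mul_zero]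
    · intro h
      exact absurd (Finset.mem_univ k) h
  rw [← h4, map_sum]
  exact I₁.sum_mem fun x _ => key x

end PrimRank
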