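import Pool.Agent.Lib.MP_b8b21d_al.HN.T0
import Pool.Agent.Lib.MP_b8b21d_al.D3

/-!
Fox calculus facts.

PROOFS. `exists_fox`: `exists_der` of D3.lean with `f = MonoidHom.id`. `fox_fundamental`: both sides are
derivations `g ↦ ..` (`der_ext`) which agree on generators. `fox_aug`: `g ↦ (sum of the coefficients of d x g)` is
a homomorphism to `(K, +)`, like `wgt (Pi.single x 1)`; they agree on generators. `exists_path`: `P` is the set of
the elements `FreeGroup.mk L'` with `L'` an initial segment of `w.toWord`; (1) it is finite, contains `1` and `w`;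
(2) the support of `d x w` consists of `p` with `p ∈ P`, `p * of x ∈ P` (write `w = mk (L)`, induction on `L` from the
right: `d x (mk (L ++ [(y, true)])) = d x (mk L) + mk L * δ_{x y}`, and for `(y, false)`:
`d x (y⁻¹) = - y⁻¹ δ_{xy}`, the new term is at `p = mk (L ++ [(y, false)])`, `p * y = mk L`); (3) every element of `P` is
connected to `1` inside `P`: the induction principle below.
-/

namespace PrimRank

variable {K : Type*} [Field K] {α : Type} [DecidableEq α]

theorem exists_fox (K : Type*) [Field K] (α : Type) [DecidableEq α] :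
    ∃ d : α → FreeGroup α → GA K α, IsFox d := by
  choose d hd hx using fun x : α => exists_der (K := K) (MonoidHom.id (FreeGroup α))
    (fun y => if x = y then (1 : GA K α) else 0)
  exact ⟨d, fun x => ⟨hd x, hx x⟩⟩

theorem fox_fundamental [Fintype α] (d : α → FreeGroup α → GA K α) (hd : IsFox d)
    (g : FreeGroup α) :
    ∑ x, d x g * (MonoidAlgebra.of K (FreeGroup α) (FreeGroup.of x) - 1) =
      MonoidAlgebra.of K (FreeGroup α) g - 1 := by
  have h := der_ext (K := K) (MonoidHom.id (FreeGroup α))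
    (d := fun g => ∑ x, d x g * (MonoidAlgebra.of K (FreeGroup α) (FreeGroup.of x) - 1))
    (d' := fun g => MonoidAlgebra.of K (FreeGroup α) g - 1) ?_ ?_ ?_
  · exact congrFun h g
  · intro g h
    rw [MonoidHom.id_apply, Finset.mul_sum, ← Finset.sum_add_distrib]
    refine Finset.sum_congr rfl fun x _ => ?_
    rw [(hd x).1 g h, add_mul, mul_assoc]
  · intro g h
    show MonoidAlgebra.of K (FreeGroup α) (g * h) - 1 = MonoidAlgebra.of K (FreeGroup α) g - 1 +
      MonoidAlgebra.of K (FreeGroup α) g * (MonoidAlgebra.of K (FreeGroup α) h - 1)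
    rw [map_mul, mul_sub, mul_one]
    abel
  · intro y
    show ∑ x, d x (FreeGroup.of y) * (MonoidAlgebra.of K (FreeGroup α) (FreeGroup.of x) - 1) =
      MonoidAlgebra.of K (FreeGroup α) (FreeGroup.of y) - 1
    rw [Finset.sum_eq_single y]
    · rw [(hd y).2 y, if_pos rfl, one_mul]
    · intro x _ hx
      rw [(hd x).2 y, if_neg hx, zero_mul]
    · intro h
      exact absurd (Finset.mem_univ y) h

/-- The augmentation. -/
private noncomputable def t3aug (K : Type*) [Field K] (α : Type) : GA K α →ₐ[K] K :=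
  MonoidAlgebra.lift K K (FreeGroup α) (1 : FreeGroup α →* K)

private theorem t3aug_apply (a : GA K α) : t3aug K α a = a.coeff.sum fun _ r => r := by
  unfold t3aug
  rw [MonoidAlgebra.lift_apply]
  refine Finsupp.sum_congr fun g _ => ?_
  rw [MonoidHom.one_apply, smul_eq_mul, mul_one]

private theorem t3aug_of (g : FreeGroup α) : t3aug K α (MonoidAlgebra.of K (FreeGroup α) g) = 1 := by
  unfold t3aug
  rw [MonoidAlgebra.lift_of, MonoidHom.one_apply]

theorem fox_aug (d : α → FreeGroup α → GA K α) (hd : IsFox d) (x : α) (g : FreeGroup α) :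
    ((d x g).coeff.sum fun _ r => r) = wgt (Pi.single x (1 : K)) g := by
  rw [← t3aug_apply]
  have h : (MonoidHom.mk' (fun g : FreeGroup α => Multiplicative.ofAdd (t3aug K α (d x g)))
      (fun g h => by
        rw [(hd x).1 g h, map_add, map_mul, t3aug_of, one_mul]
        rfl) : FreeGroup α →* Multiplicative K) =
      FreeGroup.lift (fun y => Multiplicative.ofAdd ((Pi.single x (1 : K) : α → K) y)) := by
    refine FreeGroup.ext_hom _ _ fun y => ?_
    rw [FreeGroup.lift_apply_of]
    show Multiplicative.ofAdd (t3aug K α (d x (FreeGroup.of y))) = _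
    rw [(hd x).2 y]
    congr 1
    by_cases hxy : x = y
    · subst hxy
      rw [if_pos rfl, map_one, Pi.single_eq_same]
    · rw [if_neg hxy, map_zero, Pi.single_eq_of_ne (fun h => hxy h.symm)]
  exact congrArg Multiplicative.toAdd (DFunLike.congr_fun h g)

private theorem t3_one (d : α → FreeGroup α → GA K α) (hd : IsFox d) (x : α) : d x 1 = 0 := by
  have h1 := (hd x).1 1 1
  rw [mul_one, map_one, one_mul] at h1
  exact left_eq_add.1 h1

private theorem t3_inv (d : α → FreeGroup α → GA K α) (hd : IsFox d) (x y : α) :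
    d x (FreeGroup.of y)⁻¹ =
      - (MonoidAlgebra.of K (FreeGroup α) (FreeGroup.of y)⁻¹ * (if x = y then 1 else 0)) := by
  have h1 := (hd x).1 (FreeGroup.of y)⁻¹ (FreeGroup.of y)
  rw [inv_mul_cancel, t3_one d hd, (hd x).2 y] at h1
  exact eq_neg_of_add_eq_zero_left h1.symm

private theorem t3_take (L : List (α × Bool)) (n : ℕ) :
    (FreeGroup.mk (L.take (n + 1)) : FreeGroup α) = FreeGroup.mk (L.take n) ∨
    (∃ y, (FreeGroup.mk (L.take (n + 1)) : FreeGroup α) =
      FreeGroup.mk (L.take n) * FreeGroup.of y) ∨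
    ∃ y, (FreeGroup.mk (L.take (n + 1)) : FreeGroup α) =
      FreeGroup.mk (L.take n) * (FreeGroup.of y)⁻¹ := by
  by_cases hn : n < L.length
  · right
    have h1 : L.take (n + 1) = L.take n ++ [L[n]] := List.take_succ_eq_append_getElem hn
    rw [h1, ← FreeGroup.mul_mk]
    obtain ⟨y, b⟩ := L[n]
    cases b with
    | true => exact Or.inl ⟨y, rfl⟩
    | false => exact Or.inr ⟨y, rfl⟩
  · left
    rw [List.take_of_length_le (by omega), List.take_of_length_le (by omega)]

private theorem t3_supp (P : Set (FreeGroup α)) (d : α → FreeGroup α → GA K α) (hd : IsFox d)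
    (a : ℕ → FreeGroup α) (h0 : a 0 = 1) (hP : ∀ n, a n ∈ P)
    (ha : ∀ n, a (n + 1) = a n ∨ (∃ y, a (n + 1) = a n * FreeGroup.of y) ∨
      ∃ y, a (n + 1) = a n * (FreeGroup.of y)⁻¹) (x : α) (n : ℕ) :
    ∀ p ∈ (d x (a n)).coeff.support, p ∈ P ∧ p * FreeGroup.of x ∈ P := by
  induction n with
  | zero =>
    intro p hp
    rw [h0, t3_one d hd, MonoidAlgebra.coeff_zero, Finsupp.support_zero] at hp
    exact absurd hp (Finset.notMem_empty p)
  | succ n ih =>
    intro p hp
    rcases ha n with h | ⟨y, h⟩ | ⟨y, h⟩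
    · rw [h] at hp
      exact ih p hp
    · rw [h, (hd x).1, (hd x).2, Finsupp.mem_support_iff, MonoidAlgebra.coeff_add,
        Finsupp.add_apply] at hp
      by_cases hxy : x = y
      · subst hxy
        rw [if_pos rfl, mul_one, MonoidAlgebra.of_apply, MonoidAlgebra.coeff_single] at hp
        by_cases hpa : a n = p
        · rw [← hpa, ← h]
          exact ⟨hP n, hP (n + 1)⟩
        · rw [Finsupp.single_eq_of_ne (fun h' => hpa h'.symm), add_zero] at hp
          exact ih p (Finsupp.mem_support_iff.2 hp)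
      · rw [if_neg hxy, mul_zero, MonoidAlgebra.coeff_zero, Finsupp.zero_apply, add_zero] at hp
        exact ih p (Finsupp.mem_support_iff.2 hp)
    · rw [h, (hd x).1, t3_inv d hd, Finsupp.mem_support_iff, MonoidAlgebra.coeff_add,
        Finsupp.add_apply] at hp
      by_cases hxy : x = y
      · subst hxy
        rw [if_pos rfl, mul_one, mul_neg, ← map_mul, MonoidAlgebra.coeff_neg, Finsupp.neg_apply,
          MonoidAlgebra.of_apply, MonoidAlgebra.coeff_single] at hp
        by_cases hpa : a n * (FreeGroup.of x)⁻¹ = p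
        · rw [← hpa, inv_mul_cancel_right, ← h]
          exact ⟨hP (n + 1), hP n⟩
        · rw [Finsupp.single_eq_of_ne (fun h' => hpa h'.symm), neg_zero, add_zero] at hp
          exact ih p (Finsupp.mem_support_iff.2 hp)
      · rw [if_neg hxy, mul_zero, neg_zero, mul_zero, MonoidAlgebra.coeff_zero,
          Finsupp.zero_apply, add_zero] at hp
        exact ih p (Finsupp.mem_support_iff.2 hp)

theorem exists_path (d : α → FreeGroup α → GA K α) (hd : IsFox d) (w : FreeGroup α) :
    ∃ P : Set (FreeGroup α), P.Finite ∧ 1 ∈ P ∧ w ∈ P ∧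
      (∀ x, ∀ p ∈ (d x w).coeff.support, p ∈ P ∧ p * FreeGroup.of x ∈ P) ∧
      ∀ Q : FreeGroup α → Prop, Q 1 →
        (∀ p x, p ∈ P → p * FreeGroup.of x ∈ P → (Q p ↔ Q (p * FreeGroup.of x))) →
        ∀ p ∈ P, Q p := by
  have h0 : (FreeGroup.mk (w.toWord.take 0) : FreeGroup α) = 1 := rfl
  have hw : (FreeGroup.mk (w.toWord.take w.toWord.length) : FreeGroup α) = w := by
    rw [List.take_length, FreeGroup.mk_toWord]
  refine ⟨Set.range fun n : ℕ => (FreeGroup.mk (w.toWord.take n) : FreeGroup α), ?_, ⟨0, h0⟩,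
    ⟨w.toWord.length, hw⟩, ?_, ?_⟩
  · refine ((Set.finite_Iic w.toWord.length).image
      fun n : ℕ => (FreeGroup.mk (w.toWord.take n) : FreeGroup α)).subset ?_
    rintro p ⟨n, rfl⟩
    by_cases hn : n ≤ w.toWord.length
    · exact ⟨n, hn, rfl⟩
    · refine ⟨w.toWord.length, Set.mem_Iic.2 (le_refl _), ?_⟩
      show (FreeGroup.mk (w.toWord.take w.toWord.length) : FreeGroup α) =
        FreeGroup.mk (w.toWord.take n)
      rw [List.take_length, List.take_of_length_le (by omega)]
  · intro x p hp
    rw [← hw] at hp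
    exact t3_supp (Set.range fun n : ℕ => (FreeGroup.mk (w.toWord.take n) : FreeGroup α)) d hd
      (fun n => FreeGroup.mk (w.toWord.take n)) h0 (fun n => ⟨n, rfl⟩)
      (fun n => t3_take w.toWord n) x w.toWord.length p hp
  · intro Q hQ1 hQ p hp
    obtain ⟨n, rfl⟩ := hp
    show Q (FreeGroup.mk (w.toWord.take n))
    induction n with
    | zero => exact hQ1
    | succ n ih =>
      rcases t3_take w.toWord n with h | ⟨y, h⟩ | ⟨y, h⟩
      · rw [h]
        exact ih
      · rw [h]
        exact (hQ _ y ⟨n, rfl⟩ ⟨n + 1, h⟩).1 ih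
      · have h' : (FreeGroup.mk (w.toWord.take (n + 1)) : FreeGroup α) * FreeGroup.of y =
            FreeGroup.mk (w.toWord.take n) := by
          rw [h, inv_mul_cancel_right]
        refine (hQ _ y ⟨n + 1, rfl⟩ ⟨n, h'.symm⟩).2 ?_
        rw [h']
        exact ih

end PrimRank
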