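import Pool.Agent.Lib.MP_b8b21d_al.HN.H6
import Pool.Agent.Lib.MP_b8b21d_al.HN.T3a

/-!
The dimension count which produces a weight.

PROOF. Let `X = N₁ ⊗ N₂`, `ξ = tau 1`, `T p = tau (of p)`, `P` from `exists_path`, `W = span {T p : p ∈ P}` (finite
dimensional), `D x = span {T p : p ∈ P, p x ∈ P}`, `D' x = span {T (p x) : p ∈ P, p x ∈ P} ≤ W`. By `tau_mul_of` (and
`actQ` of a product) the action of `x` maps `T (p x)` to `T p`, and that of `x⁻¹` maps `T p` to `T (p x)`; so
`D' x ≅ D x` and the action of `x` maps `D' x` into `W`: `hanna_neumann` (for `D'`) gives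
`∑ dim (D x) ≤ dim W + (m₁ - 1) (m₂ - 1)`.
Let `∂ : Π x, D x → W`, `(e x) ↦ ∑_x (x⁻¹ e x - e x)`. For `p, p x ∈ P`, `T (p x) - T p ∈ range ∂`, so by the last
part of `exists_path` `T p - ξ ∈ range ∂` for all `p ∈ P`, i.e. `W = range ∂ + K ξ`. If moreover some `l₀` has
`wgt l₀ w ≠ 0` then some `wgt (Pi.single x 1) w ≠ 0` (`wgt l₀ w = ∑ l₀ x * wgt (Pi.single x 1) w`), and
`0 = tau (d x w) = ∑_p (d x w)_p T p ≡ (∑_p (d x w)_p) ξ = wgt (Pi.single x 1) w • ξ` modulo `range ∂` (all `p` in the
support are in `P`), so `ξ ∈ range ∂` and `W = range ∂`.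
For `l : α → K` let `Φ l = (tau (del l (d x w)))_x`; it is linear in `l`, and in `Π x, D x` (the support of
`del l (d x w)` is contained in that of `d x w`). If `wgt l w = 0` then `∂ (Φ l) = 0`: apply `del l` to
`fox_fundamental`: `∑ (del l (d x w) * (x - 1) + d x w * (l x • x)) = wgt l w • w = 0`, apply `tau`, and use
`tau (a * x) = x⁻¹ tau a`, `tau (d x w * x) = x⁻¹ tau (d x w) = 0`.
Case A: `wgt l w = 0` for all `l`. `dim ker ∂ = ∑ dim D x - rank ∂ ≤ ∑ dim D x - (dim W - 1) ≤ (m₁-1)(m₂-1) + 1 <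
card α = dim (α → K)`, so `Φ` has a nonzero kernel element.
Case B: otherwise `{l : wgt l w = 0}` has dimension `card α - 1` and `dim ker ∂ ≤ (m₁ - 1) (m₂ - 1) < card α - 1`.
-/

namespace PrimRank

open scoped TensorProduct

variable {K : Type*} [Field K] {α : Type} [DecidableEq α] [Fintype α]

private theorem t3_actQ_mul (I : Submodule (GA K α) (GA K α)) (g h : FreeGroup α) :
    actQ I g ∘ₗ actQ I h = actQ I (g * h) := by
  unfold actQ
  rw [map_mul (MonoidAlgebra.of K (FreeGroup α)), map_mul (Algebra.lsmul K K (GA K α ⧸ I))]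
  rfl

private theorem t3_actQ_one (I : Submodule (GA K α) (GA K α)) : actQ I 1 = LinearMap.id := by
  unfold actQ
  rw [map_one (MonoidAlgebra.of K (FreeGroup α)), map_one (Algebra.lsmul K K (GA K α ⧸ I))]
  rfl

private theorem t3_sum_of (a : GA K α) :
    ∑ p ∈ a.coeff.support, a.coeff p • MonoidAlgebra.of K (FreeGroup α) p = a := by
  conv_rhs => rw [← MonoidAlgebra.sum_coeff_single a]
  unfold Finsupp.sum
  refine Finset.sum_congr rfl fun p _ => ?_
  rw [MonoidAlgebra.of_apply, MonoidAlgebra.smul_single, smul_eq_mul, mul_one]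

private theorem t3_lin {X : Type*} [AddCommGroup X] [Module K X] (φ : GA K α →ₗ[K] X) (a : GA K α) :
    φ a = ∑ p ∈ a.coeff.support, a.coeff p • φ (MonoidAlgebra.of K (FreeGroup α) p) := by
  conv_lhs => rw [← t3_sum_of a]
  rw [map_sum]
  refine Finset.sum_congr rfl fun p _ => ?_
  rw [map_smul]

/-- The linear algebra of the dimension count. -/
private theorem t3_count {X V : Type*} [AddCommGroup X] [Module K X] [AddCommGroup V] [Module K V]
    [FiniteDimensional K V] (W : Submodule K X) [FiniteDimensional K W] (ξ : X) (N : ℕ)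
    (del : V →ₗ[K] X) (Φ : (α → K) →ₗ[K] V) (wl : (α → K) →ₗ[K] K)
    (hdim : Module.finrank K V ≤ Module.finrank K W + N)
    (hcard : N + 2 ≤ Fintype.card α)
    (hW : W ≤ LinearMap.range del ⊔ Submodule.span K {ξ})
    (hB : wl ≠ 0 → ξ ∈ LinearMap.range del)
    (hΦ : ∀ l, wl l = 0 → del (Φ l) = 0) :
    ∃ l : α → K, l ≠ 0 ∧ wl l = 0 ∧ Φ l = 0 := by
  have h1 := del.finrank_range_add_finrank_ker
  have h2 := wl.finrank_range_add_finrank_ker
  rw [Module.finrank_fintype_fun_eq_card] at h2
  haveI hfr : FiniteDimensional K (LinearMap.range del) := inferInstance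
  have h3 : Module.finrank K (LinearMap.ker del) + Module.finrank K (LinearMap.range wl) <
      Fintype.card α := by
    by_cases hw : wl = 0
    · have e1 : Module.finrank K (LinearMap.range wl) = 0 := by
        rw [hw, LinearMap.range_zero, finrank_bot]
      have e2 : Module.finrank K W ≤ Module.finrank K (LinearMap.range del) + 1 := by
        calc Module.finrank K W
            ≤ Module.finrank K ↥(LinearMap.range del ⊔ Submodule.span K {ξ}) :=
              Submodule.finrank_mono hW
          _ ≤ Module.finrank K (LinearMap.range del) +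
                Module.finrank K (Submodule.span K ({ξ} : Set X)) :=
              Submodule.finrank_add_le_finrank_add_finrank _ _
          _ ≤ Module.finrank K (LinearMap.range del) + 1 := by
              have := finrank_span_le_card (R := K) ({ξ} : Set X)
              simp only [Set.toFinset_singleton, Finset.card_singleton] at this
              omega
      omega
    · have e1 : Module.finrank K (LinearMap.range wl) ≤ 1 := by
        calc Module.finrank K (LinearMap.range wl) ≤ Module.finrank K K :=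
              Submodule.finrank_le _
          _ = 1 := Module.finrank_self K
      have e2 : Module.finrank K W ≤ Module.finrank K (LinearMap.range del) := by
        refine Submodule.finrank_mono (hW.trans (sup_le le_rfl ?_))
        rw [Submodule.span_le, Set.singleton_subset_iff]
        exact hB hw
      omega
  have h4 : Module.finrank K (LinearMap.ker del) < Module.finrank K (LinearMap.ker wl) := by
    omega
  let Ψ : LinearMap.ker wl →ₗ[K] LinearMap.ker del :=
    LinearMap.codRestrict (LinearMap.ker del) (Φ ∘ₗ (LinearMap.ker wl).subtype)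
      (fun l => hΦ _ l.2)
  have h5 : LinearMap.ker Ψ ≠ ⊥ := LinearMap.ker_ne_bot_of_finrank_lt h4
  obtain ⟨l, hl, hl0⟩ := (Submodule.ne_bot_iff _).1 h5
  refine ⟨l.1, fun h => hl0 (Subtype.ext h), l.2, ?_⟩
  have h6 : Ψ l = 0 := hl
  have h7 := congrArg Subtype.val h6
  exact h7

private theorem t3_gen {X : Type*} [AddCommGroup X] [Module K X]
    (A : FreeGroup α → X →ₗ[K] X) (hAmul : ∀ g h, A g ∘ₗ A h = A (g * h))
    (hA1 : A 1 = LinearMap.id) (τ : GA K α →ₗ[K] X)
    (htA : ∀ a h, τ (a * MonoidAlgebra.of K (FreeGroup α) h) = A h⁻¹ (τ a)) (N : ℕ)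
    (hHN' : ∀ (W : Submodule K X) [FiniteDimensional K W] (D : α → Submodule K X),
      (∀ x, D x ≤ W) → (∀ x, (D x).map (A (FreeGroup.of x)) ≤ W) →
        ∑ x, Module.finrank K (D x) ≤ Module.finrank K W + N)
    (d : α → FreeGroup α → GA K α) (hd : IsFox d)
    (w : FreeGroup α) (ht : ∀ x, τ (d x w) = 0) (hr : N + 2 ≤ Fintype.card α) :
    ∃ l : α → K, l ≠ 0 ∧ wgt l w = 0 ∧ ∀ x, τ (del l (d x w)) = 0 := by
  classical
  obtain ⟨P, hPf, hP1, hPw, hPs, hPc⟩ := exists_path d hd w
  set T : FreeGroup α → X :=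
    fun p => τ (MonoidAlgebra.of K (FreeGroup α) p) with hT
  have hAinv : ∀ g v, A g (A g⁻¹ v) = v := by
    intro g v
    rw [← LinearMap.comp_apply, hAmul, mul_inv_cancel, hA1, LinearMap.id_apply]
  have hAinv' : ∀ g v, A g⁻¹ (A g v) = v := by
    intro g v
    rw [← LinearMap.comp_apply, hAmul, inv_mul_cancel, hA1, LinearMap.id_apply]
  have hTA : ∀ p h, T (p * h) = A h⁻¹ (T p) := by
    intro p h
    simp only [hT]
    rw [map_mul (MonoidAlgebra.of K (FreeGroup α)), htA]
  -- the spaces
  set W : Submodule K X := Submodule.span K (T '' P) with hWd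
  haveI hWf : FiniteDimensional K W := FiniteDimensional.span_of_finite K (hPf.image T)
  set S : α → Set (FreeGroup α) := fun x => {p | p ∈ P ∧ p * FreeGroup.of x ∈ P} with hS
  have hSf : ∀ x, (S x).Finite := fun x => hPf.subset fun p hp => hp.1
  set D : α → Submodule K X :=
    fun x => Submodule.span K (T '' S x) with hDd
  haveI hDf : ∀ x, FiniteDimensional K (D x) := fun x =>
    FiniteDimensional.span_of_finite K ((hSf x).image T)
  have hDW : ∀ x, D x ≤ W := fun x => Submodule.span_mono (Set.image_mono fun p hp => hp.1)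
  have hD'W : ∀ x, (D x).map (A (FreeGroup.of x)⁻¹) ≤ W := by
    intro x
    rw [hDd]
    simp only
    rw [Submodule.map_span, Submodule.span_le]
    rintro _ ⟨_, ⟨p, hp, rfl⟩, rfl⟩
    rw [← hTA]
    exact Submodule.subset_span ⟨_, hp.2, rfl⟩
  have hHN := hHN' W
    (fun x => (D x).map (A (FreeGroup.of x)⁻¹)) hD'W (by
      intro x
      have e1 : ((D x).map (A (FreeGroup.of x)⁻¹)).map (A (FreeGroup.of x)) = D x := by
        rw [← Submodule.map_comp, hAmul, mul_inv_cancel, hA1, Submodule.map_id]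
      exact e1.le.trans (hDW x))
  have hfr : ∀ x, Module.finrank K ↥((D x).map (A (FreeGroup.of x)⁻¹)) =
      Module.finrank K (D x) := by
    intro x
    have hinj : Function.Injective (A (FreeGroup.of x)⁻¹) :=
      Function.LeftInverse.injective (g := A (FreeGroup.of x)) (hAinv _)
    exact ((Submodule.equivMapOfInjective _ hinj (D x)).finrank_eq).symm
  simp only [hfr] at hHN
  -- the boundary map
  let bd : (∀ x, D x) →ₗ[K] X :=
    ∑ x, ((A (FreeGroup.of x)⁻¹ - LinearMap.id) ∘ₗ (D x).subtype ∘ₗ LinearMap.proj x)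
  have hbd : ∀ e, bd e = ∑ x, (A (FreeGroup.of x)⁻¹ (e x) - (e x : _)) := by
    intro e
    simp only [bd, LinearMap.sum_apply, LinearMap.comp_apply, LinearMap.sub_apply,
      LinearMap.id_apply, LinearMap.proj_apply, Submodule.subtype_apply]
  have hstep : ∀ p x, p ∈ P → p * FreeGroup.of x ∈ P →
      T (p * FreeGroup.of x) - T p ∈ LinearMap.range bd := by
    intro p x h1 h2
    have hmem : T p ∈ D x := Submodule.subset_span ⟨p, ⟨h1, h2⟩, rfl⟩
    refine ⟨Pi.single x ⟨T p, hmem⟩, ?_⟩
    rw [hbd, Finset.sum_eq_single x]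
    · rw [Pi.single_eq_same, hTA]
    · intro y _ hy
      rw [Pi.single_eq_of_ne hy]
      simp
    · intro h
      exact absurd (Finset.mem_univ _) h
  have hT1 : ∀ p ∈ P, T p - T 1 ∈ LinearMap.range bd := by
    refine hPc (fun p => T p - T 1 ∈ LinearMap.range bd) (by
      rw [sub_self]
      exact Submodule.zero_mem _) ?_
    intro p x h1 h2
    have h3 := hstep p x h1 h2
    constructor
    · intro h4
      have := Submodule.add_mem _ h3 h4
      rwa [sub_add_sub_cancel] at this
    · intro h4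
      have := Submodule.sub_mem _ h4 h3
      rwa [sub_sub_sub_cancel_left] at this
  have hWle : W ≤ LinearMap.range bd ⊔ Submodule.span K {T 1} := by
    rw [hWd, Submodule.span_le]
    rintro _ ⟨p, hp, rfl⟩
    rw [← sub_add_cancel (T p) (T 1)]
    exact Submodule.add_mem _ (Submodule.mem_sup_left (hT1 p hp))
      (Submodule.mem_sup_right (Submodule.mem_span_singleton_self _))
  -- the weights
  let wl : (α → K) →ₗ[K] K :=
    { toFun := fun l => wgt l w
      map_add' := fun l l' => wgt_add l l' w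
      map_smul' := fun r l => by
        rw [wgt_smul]
        rfl }
  have hwl : ∀ l, wl l = wgt l w := fun l => rfl
  have hB : wl ≠ 0 → T 1 ∈ LinearMap.range bd := by
    intro hw0
    obtain ⟨x, hx⟩ : ∃ x, wgt (Pi.single x (1 : K)) w ≠ 0 := by
      by_contra hcon
      push Not at hcon
      apply hw0
      refine LinearMap.pi_ext fun x r => ?_
      have e1 : (Pi.single x r : α → K) = r • Pi.single x (1 : K) := by
        rw [← Pi.single_smul, smul_eq_mul, mul_one]
      rw [e1, map_smul, hwl, hcon, smul_zero]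
      rfl
    have e1 := t3_lin (τ) (d x w)
    rw [ht] at e1
    have e2 : ∑ p ∈ (d x w).coeff.support, (d x w).coeff p • (T p - T 1) ∈
        LinearMap.range bd :=
      Submodule.sum_mem _ fun p hp => Submodule.smul_mem _ _ (hT1 p (hPs x p hp).1)
    have e3 : ∑ p ∈ (d x w).coeff.support, (d x w).coeff p • (T p - T 1) =
        -(wgt (Pi.single x (1 : K)) w • T 1) := by
      rw [← fox_aug d hd x w]
      unfold Finsupp.sum
      simp only [smul_sub]
      rw [Finset.sum_sub_distrib, ← Finset.sum_smul, ← e1, zero_sub]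
    rw [e3] at e2
    have e4 := Submodule.smul_mem _ (wgt (Pi.single x (1 : K)) w)⁻¹ (Submodule.neg_mem _ e2)
    rwa [neg_neg, smul_smul, inv_mul_cancel₀ hx, one_smul] at e4
  -- the map `Φ`
  let φ : α → (α → K) →ₗ[K] X := fun x =>
    { toFun := fun l => τ (del l (d x w))
      map_add' := fun l l' => by rw [del_add, map_add]
      map_smul' := fun r l => by
        rw [del_smul, map_smul]
        rfl }
  have hφ : ∀ x l, φ x l ∈ D x := by
    intro x l
    have e1 : φ x l = ((τ) ∘ₗ (del l)) (d x w) := rfl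
    rw [e1, t3_lin]
    refine Submodule.sum_mem _ fun p hp => Submodule.smul_mem _ _ ?_
    rw [LinearMap.comp_apply, del_of, map_smul]
    exact Submodule.smul_mem _ _ (Submodule.subset_span ⟨p, hPs x p hp, rfl⟩)
  let Φ : (α → K) →ₗ[K] (∀ x, D x) :=
    LinearMap.pi fun x => LinearMap.codRestrict (D x) (φ x) (hφ x)
  have hΦv : ∀ l x, ((Φ l x : D x) : X) =
      τ (del l (d x w)) := fun l x => rfl
  have hΦ : ∀ l, wl l = 0 → bd (Φ l) = 0 := by
    intro l hl
    rw [hwl] at hl
    rw [hbd]
    simp only [hΦv]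
    have hf := congrArg (fun a => τ (del l a)) (fox_fundamental d hd w)
    simp only [map_sum, map_sub, del_mul, del_of, del_one, wgt_of, sub_zero, map_add, hl,
      zero_smul, map_zero, mul_smul_comm, map_smul] at hf
    rw [← hf]
    refine Finset.sum_congr rfl fun x _ => ?_
    rw [htA, ht, map_zero, smul_zero, add_zero, mul_sub, mul_one, map_sub, htA]
  have hdim : Module.finrank K (∀ x, D x) ≤ Module.finrank K W + N := by
    haveI : ∀ x, Module.Free K (D x) := fun x => Module.Free.of_divisionRing K (D x)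
    rw [Module.finrank_pi_fintype]
    exact hHN
  obtain ⟨l, h1, h2, h3⟩ := t3_count W (T 1) N bd Φ wl hdim hr hWle hB hΦ
  refine ⟨l, h1, h2, fun x => ?_⟩
  rw [← hΦv, h3]
  rfl

theorem exists_weight (I₁ I₂ : Submodule (GA K α) (GA K α)) (m₁ m₂ : ℕ) (hm₁ : 0 < m₁)
    (hm₂ : 0 < m₂) (b₁ : Module.Basis (Fin m₁) (GA K α) I₁)
    (b₂ : Module.Basis (Fin m₂) (GA K α) I₂) (d : α → FreeGroup α → GA K α) (hd : IsFox d)
    (w : FreeGroup α) (ht : ∀ x, tau I₁ I₂ (d x w) = 0)
    (hr : (m₁ - 1) * (m₂ - 1) + 2 ≤ Fintype.card α) :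
    ∃ l : α → K, l ≠ 0 ∧ wgt l w = 0 ∧ ∀ x, tau I₁ I₂ (del l (d x w)) = 0 := by
  refine t3_gen (fun h => TensorProduct.map (actQ I₁ h) (actQ I₂ h)) ?_ ?_ (tau I₁ I₂)
    (fun a h => tau_mul_of I₁ I₂ a h) ((m₁ - 1) * (m₂ - 1)) ?_ d hd w ht hr
  · intro g h
    beta_reduce
    rw [← TensorProduct.map_comp, t3_actQ_mul, t3_actQ_mul]
  · beta_reduce
    rw [t3_actQ_one, t3_actQ_one, TensorProduct.map_id]
  · intro W _ D h1 h2
    exact hanna_neumann I₁ I₂ m₁ m₂ hm₁ hm₂ b₁ b₂ W D h1 h2

end PrimRank
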