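import Pool.Agent.Lib.MP_b8b21d_al.HN.Defs

/-!
Definitions for the tangent argument.
-/

namespace PrimRank

open scoped TensorProduct

/-- `tau (g) = g⁻¹ v₁ ⊗ g⁻¹ v₂`, where `vᵢ` is the class of `1` in `GA / Iᵢ`. -/
noncomputable def tau {K : Type*} [Field K] {α : Type} (I₁ I₂ : Submodule (GA K α) (GA K α)) :
    GA K α →ₗ[K] (GA K α ⧸ I₁) ⊗[K] (GA K α ⧸ I₂) :=
  (Finsupp.linearCombination K fun g : FreeGroup α =>
    (Submodule.Quotient.mk (MonoidAlgebra.of K (FreeGroup α) g⁻¹) : GA K α ⧸ I₁) ⊗ₜ[K]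
      (Submodule.Quotient.mk (MonoidAlgebra.of K (FreeGroup α) g⁻¹) : GA K α ⧸ I₂)) ∘ₗ
    (MonoidAlgebra.coeffLinearEquiv K).toLinearMap

/-- The Fox derivatives. -/
def IsFox {K : Type*} [Field K] {α : Type} [DecidableEq α] (d : α → FreeGroup α → GA K α) : Prop :=
  ∀ x, IsDer (d x) ∧ ∀ y, d x (FreeGroup.of y) = if x = y then 1 else 0

/-- The linear extension of
`g ↦ ∑_p (coefficient of p in dx g) * u p • (p * ψ (class of x⁻¹ p⁻¹ g))`. -/
noncomputable def foxC {K : Type*} [Field K] {α : Type} (I : Submodule (GA K α) (GA K α))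
    (dx : FreeGroup α → GA K α) (x : α) (ψ : (GA K α ⧸ I) →ₗ[K] GA K α) (u : FreeGroup α → K) :
    GA K α →ₗ[K] GA K α :=
  (Finsupp.linearCombination K fun g : FreeGroup α =>
    (dx g).coeff.sum fun p r => (r * u p) • (MonoidAlgebra.of K (FreeGroup α) p *
      ψ (Submodule.Quotient.mk (MonoidAlgebra.of K (FreeGroup α)
        ((FreeGroup.of x)⁻¹ * p⁻¹ * g))))) ∘ₗ
    (MonoidAlgebra.coeffLinearEquiv K).toLinearMap

end PrimRank
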